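import Pool.Agent.Lib.MP_e3689b_an.Mg.G007

set_option autoImplicit false

/-!
# Growth of sets of monomials (Macaulay), II: the growth theorem
-/

namespace Pool.Agent.DAng

/-- `D ≥ A_i(g)` for some `i` implies it for the index `j` of the interval which contains `g`. -/
theorem G2_conv (m : ℕ) (g D : ℤ) : ∀ i j : ℕ,
    (m * g + pc (m + 1) i ≤ (i + 1) * D) → g ≤ pc (m + 1) j →
    (∀ j', j' + 1 = j → pc (m + 1) j' ≤ g) → m * g + pc (m + 1) j ≤ (j + 1) * D := by
  -- step up
  have hr : ∀ i : ℕ, ((i : ℤ) + 1) * pc (m + 1) (i + 1) = (m + i + 2) * pc (m + 1) i := by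
    intro i
    have h1 := pc_mul m i
    have h2 := pc_pascal m i
    rw [h2]
    linarith
  have up : ∀ i : ℕ, pc (m + 1) i ≤ g → m * g + pc (m + 1) i ≤ (i + 1) * D →
      m * g + pc (m + 1) (i + 1) ≤ ((i : ℤ) + 1 + 1) * D := by
    intro i hi h
    have h1 := hr i
    have hm : (0 : ℤ) ≤ m := Int.natCast_nonneg m
    have h2 : (m : ℤ) * pc (m + 1) i ≤ m * g := mul_le_mul_of_nonneg_left hi hm
    have hi1 : (0 : ℤ) < (i : ℤ) + 1 := by positivity
    have h3 : ((i : ℤ) + 1) * (m * g + pc (m + 1) (i + 1)) ≤ ((i : ℤ) + 1) * (((i : ℤ) + 1 + 1) * D) := by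
      have h4 : ((i : ℤ) + 1 + 1) * (m * g + pc (m + 1) i) ≤ ((i : ℤ) + 1 + 1) * ((i + 1) * D) :=
        mul_le_mul_of_nonneg_left h (by positivity)
      nlinarith
    exact le_of_mul_le_mul_left h3 hi1
  have down : ∀ i : ℕ, g ≤ pc (m + 1) i → m * g + pc (m + 1) (i + 1) ≤ ((i : ℤ) + 1 + 1) * D →
      m * g + pc (m + 1) i ≤ ((i : ℤ) + 1) * D := by
    intro i hi h
    have h1 := hr i
    have hm : (0 : ℤ) ≤ m := Int.natCast_nonneg m
    have h2 : (m : ℤ) * g ≤ m * pc (m + 1) i := mul_le_mul_of_nonneg_left hi hm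
    have hi1 : (0 : ℤ) < (i : ℤ) + 1 + 1 := by positivity
    have h3 : ((i : ℤ) + 1 + 1) * (m * g + pc (m + 1) i) ≤ ((i : ℤ) + 1 + 1) * (((i : ℤ) + 1) * D) := by
      have h4 : ((i : ℤ) + 1) * (m * g + pc (m + 1) (i + 1)) ≤ ((i : ℤ) + 1) * (((i : ℤ) + 1 + 1) * D) :=
        mul_le_mul_of_nonneg_left h (by positivity)
      nlinarith
    exact le_of_mul_le_mul_left h3 hi1
  intro i j hi hj hj'
  rcases le_total i j with hij | hij
  · -- going up from i to j
    have key : ∀ n, i ≤ n → n ≤ j → m * g + pc (m + 1) n ≤ ((n : ℤ) + 1) * D := by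
      intro n hn
      induction n, hn using Nat.le_induction with
      | base => intro _; exact hi
      | succ n hn ih =>
        intro hnj
        have h1 := ih (by omega)
        have h2 : pc (m + 1) n ≤ g := by
          refine le_trans (pc_mono (m + 1) (show n ≤ j - 1 by omega)) (hj' (j - 1) (by omega))
        have h3 := up n h2 h1
        push_cast
        exact h3
    exact key j hij (le_refl _)
  · have key : ∀ t n, n + t = i → j ≤ n → m * g + pc (m + 1) n ≤ ((n : ℤ) + 1) * D := by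
      intro t
      induction t with
      | zero => intro n hn _; rw [add_zero] at hn; rw [hn]; exact hi
      | succ t ih =>
        intro n hn hjn
        have h1 := ih (n + 1) (by omega) (by omega)
        push_cast at h1
        exact down n (hj.trans (pc_mono (m + 1) hjn)) h1
    exact key (i - j) j (by omega) (le_refl _)

/-- every positive number lies in one of the intervals -/
theorem G2_idx (m : ℕ) (g : ℕ) (_hg : 1 ≤ g) : ∃ i : ℕ, (g : ℤ) ≤ pc (m + 1) i ∧
    ∀ j, j + 1 = i → pc (m + 1) j < g := by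
  classical
  have hex : ∃ i : ℕ, (g : ℤ) ≤ pc (m + 1) i := by
    refine ⟨g, ?_⟩
    have := pc_ge m g
    omega
  refine ⟨Nat.find hex, Nat.find_spec hex, fun j hj => ?_⟩
  have := Nat.find_min hex (show j < Nat.find hex by omega)
  omega

/-- **Growth** (a piecewise linear form of Macaulay's theorem). -/
theorem G2_main {σ : Type*} (m : ℕ) : ∀ (T : Finset σ), T.card = m + 2 →
    ∀ (S : Finset (σ →₀ ℕ)), S.Nonempty → ∀ i : ℕ, (S.card : ℤ) ≤ pc (m + 1) i →
      (∀ j, j + 1 = i → pc (m + 1) j ≤ S.card) →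
      m * (S.card : ℤ) + pc (m + 1) i ≤ (i + 1) * ((bdT T S).card - S.card) := by
  classical
  induction m with
  | zero =>
    intro T hT S hS i hi hj
    obtain ⟨s, t, hst, rfl⟩ := Finset.card_eq_two.1 hT
    have hs : s ∉ ({t} : Finset σ) := by simpa using hst
    obtain ⟨S0, S', h0, h1, h2, h3⟩ := G1_slice {t} s hs S hS
    have h4 := bdT_nonempty {t} ⟨t, by simp⟩ S0 h0
    have h5 : ({s, t} : Finset σ) = insert s {t} := rfl
    rw [h5]
    have h6 : (1 : ℤ) ≤ ((bdT (insert s {t}) S).card : ℤ) - S.card := by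
      have : S.card + 1 ≤ (bdT (insert s {t}) S).card := by omega
      have : ((S.card + 1 : ℕ) : ℤ) ≤ ((bdT (insert s {t}) S).card : ℤ) := by exact_mod_cast this
      push_cast at this
      linarith
    rw [pc_one_left]
    push_cast
    have hi1 : (0 : ℤ) < (i : ℤ) + 1 := by positivity
    nlinarith
  | succ m ih =>
    intro T hT
    obtain ⟨s, hsT⟩ : T.Nonempty := Finset.card_pos.1 (by omega)
    obtain ⟨T0, hs0, rfl⟩ : ∃ T0 : Finset σ, s ∉ T0 ∧ insert s T0 = T :=
      ⟨T.erase s, Finset.notMem_erase s T, Finset.insert_erase hsT⟩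
    have hT0 : T0.card = m + 2 := by
      rw [Finset.card_insert_of_notMem hs0] at hT
      omega
    intro S
    induction hn : S.card using Nat.strong_induction_on generalizing S with
    | _ n ihn =>
    intro hS i hi hj
    obtain ⟨S0, S', h0, h1, h2, h3⟩ := G1_slice T0 s hs0 S hS
    have hg0 : 1 ≤ S0.card := Finset.card_pos.2 h0
    obtain ⟨i0, hi0, hi0'⟩ := G2_idx m S0.card hg0
    have hk := ih T0 hT0 S0 h0 i0 hi0 (fun j hj => (hi0' j hj).le)
    have hT0ne : T0.Nonempty := Finset.card_pos.1 (by omega)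
    have hk0 := card_le_bdT T0 hT0ne S0
    -- abbreviations
    obtain ⟨g0, hg0e⟩ : ∃ x : ℤ, x = S0.card := ⟨_, rfl⟩
    obtain ⟨g', hg'e⟩ : ∃ x : ℤ, x = S'.card := ⟨_, rfl⟩
    obtain ⟨k0, hk0e⟩ : ∃ x : ℤ, x = ((bdT T0 S0).card : ℤ) - S0.card := ⟨_, rfl⟩
    obtain ⟨D, hDe⟩ : ∃ x : ℤ, x = ((bdT (insert s T0) S).card : ℤ) - n := ⟨_, rfl⟩
    have e1 : (n : ℤ) = g0 + g' := by rw [hg0e, hg'e, ← hn, ← h1]; push_cast; ring
    have e2 : k0 + g0 ≤ D := by
      have h2' : (((bdT T0 S0).card + S.card : ℕ) : ℤ) ≤ ((bdT (insert s T0) S).card : ℕ) := by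
        exact_mod_cast h2
      push_cast at h2'
      rw [hk0e, hg0e, hDe, ← hn]
      linarith
    have ek0 : 0 ≤ k0 := by
      rw [hk0e]
      have : ((S0.card : ℕ) : ℤ) ≤ ((bdT T0 S0).card : ℕ) := by exact_mod_cast hk0
      linarith
    have ek : m * g0 + pc (m + 1) i0 ≤ (i0 + 1) * k0 := by rw [hg0e, hk0e]; exact hk
    rw [← hg0e] at hi0 hi0'
    have eg0 : 1 ≤ g0 := by rw [hg0e]; exact_mod_cast hg0
    have eg' : 0 ≤ g' := by rw [hg'e]; positivity
    rw [← hDe]
    rw [e1] at hi hj ⊢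
    -- it is enough to find some index
    suffices hex : ∃ j : ℕ, ((m + 1 : ℕ) : ℤ) * (g0 + g') + pc (m + 1 + 1) j ≤ (j + 1) * D by
      obtain ⟨j, hjj⟩ := hex
      exact G2_conv (m + 1) (g0 + g') D j i hjj hi hj
    push_cast
    -- the first inequality with `i0`
    have first : ∀ j' : ℕ, j' + 1 = i0 → (m + 1 : ℤ) * g' + pc (m + 2) j' ≤ (j' + 1) * g0 →
        ∃ j : ℕ, ((m : ℤ) + 1) * (g0 + g') + pc (m + 1 + 1) j ≤ (j + 1) * D := by
      intro j' hj' h
      refine ⟨i0, ?_⟩
      subst hj'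
      have h5 := pc_pascal (m + 1) j'
      have h6 : ((j' + 1 : ℕ) : ℤ) + 1 = (j' : ℤ) + 1 + 1 := by push_cast; ring
      rw [h6] at ek ⊢
      rw [show m + 1 + 1 = m + 2 from rfl] at h5 ⊢
      have h7 : ((j' : ℤ) + 1 + 1) * (k0 + g0) ≤ ((j' : ℤ) + 1 + 1) * D :=
        mul_le_mul_of_nonneg_left e2 (by positivity)
      nlinarith
    -- the case `i0 ≥ j + 2` or `S'` empty
    have far : ∀ j' : ℕ, j' + 1 = i0 → (j' = 0 → g' = 0) →
        (∀ j'', j'' + 1 = j' → g' ≤ pc (m + 2) j'') →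
        ∃ j : ℕ, ((m : ℤ) + 1) * (g0 + g') + pc (m + 1 + 1) j ≤ (j + 1) * D := by
      intro j' hj' hz hle
      apply first j' hj'
      have h8 := hi0' j' hj'
      cases j' with
      | zero =>
        rw [hz rfl, pc_zero]
        push_cast
        linarith
      | succ j'' =>
        have h9 := hle j'' rfl
        have h10 := pc_mul (m + 1) j''
        have h11 := pc_pascal (m + 1) j''
        rw [show m + 1 + 1 = m + 2 from rfl] at h10 h11
        push_cast at h10 ⊢
        have hm1 : (0 : ℤ) ≤ (m : ℤ) + 1 := by positivity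
        have h12 : ((m : ℤ) + 1) * g' ≤ ((m : ℤ) + 1) * pc (m + 2) j'' :=
          mul_le_mul_of_nonneg_left h9 hm1
        have h13 : ((j'' : ℤ) + 1 + 1) * pc (m + 1) (j'' + 1) ≤ ((j'' : ℤ) + 1 + 1) * g0 :=
          mul_le_mul_of_nonneg_left h8.le (by positivity)
        nlinarith
    rcases Nat.eq_zero_or_pos S'.card with hS'0 | hS'pos
    · -- `S'` is empty
      have hg'0 : g' = 0 := by rw [hg'e, hS'0]; rfl
      rcases Nat.eq_zero_or_pos i0 with hz | hp
      · refine ⟨0, ?_⟩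
        rw [hz, pc_zero] at ek
        rw [pc_zero, hg'0]
        push_cast at ek ⊢
        linarith
      · refine far (i0 - 1) (by omega) (fun _ => hg'0) (fun j'' _ => ?_)
        rw [hg'0]
        exact (pc_pos _ _).le
    · have hS' : S'.Nonempty := Finset.card_pos.1 hS'pos
      obtain ⟨j, hj1, hj2⟩ := G2_idx (m + 1) S'.card hS'pos
      have hD' := ihn S'.card (by omega) S' rfl hS' j hj1 (fun j' hj' => (hj2 j' hj').le)
      obtain ⟨D', hD'e⟩ : ∃ x : ℤ, x = ((bdT (insert s T0) S').card : ℤ) - S'.card := ⟨_, rfl⟩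
      have e3 : k0 + D' ≤ D := by
        have h3' : (((bdT T0 S0).card + (bdT (insert s T0) S').card : ℕ) : ℤ) ≤
            ((bdT (insert s T0) S).card : ℕ) := by exact_mod_cast h3
        push_cast at h3'
        rw [hk0e, hD'e, hDe, e1, hg0e, hg'e]
        linarith
      rw [← hD'e, ← hg'e] at hD'
      rw [← hg'e] at hj1 hj2
      push_cast at hD'
      rw [show m + 1 + 1 = m + 2 from rfl] at hD' hj1 hj2
      rcases Nat.lt_trichotomy i0 (j + 1) with hlt | heq | hgt
      · -- `i0 ≤ j`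
        refine ⟨j, ?_⟩
        rw [show m + 1 + 1 = m + 2 from rfl]
        have h5 : ((m : ℤ) + 1) * g0 ≤ (i0 + 1) * k0 := by linarith
        have h6 : ((i0 : ℤ) + 1) * k0 ≤ ((j : ℤ) + 1) * k0 := by
          apply mul_le_mul_of_nonneg_right _ ek0
          have : (i0 : ℤ) ≤ j := by exact_mod_cast (by omega : i0 ≤ j)
          linarith
        have h7 : ((j : ℤ) + 1) * (k0 + D') ≤ ((j : ℤ) + 1) * D :=
          mul_le_mul_of_nonneg_left e3 (by positivity)
        nlinarith
      · -- `i0 = j + 1`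
        refine ⟨j + 1, ?_⟩
        rw [show m + 1 + 1 = m + 2 from rfl]
        subst heq
        have h5 := pc_pascal (m + 1) j
        rw [show m + 1 + 1 = m + 2 from rfl] at h5
        push_cast at ek ⊢
        have h7 : ((j : ℤ) + 1) * (k0 + D') ≤ ((j : ℤ) + 1) * D :=
          mul_le_mul_of_nonneg_left e3 (by positivity)
        nlinarith
      · -- `i0 ≥ j + 2`
        refine far (i0 - 1) (by omega) (fun h => absurd h (by omega)) (fun j'' hj'' => ?_)
        exact hj1.trans (pc_mono (m + 2) (by omega))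

/-- The linear form of the growth theorem: for `|S| ≤ binom(r-1+i,i)`, `r = m + 2` variables,
`(i+1) |∂S| ≥ (r + i) |S|`. -/
theorem G2_lin {σ : Type*} (m : ℕ) (T : Finset σ) (hT : T.card = m + 2)
    (S : Finset (σ →₀ ℕ)) (i : ℕ) (hi : (S.card : ℤ) ≤ pc (m + 1) i) :
    ((m : ℤ) + 2 + i) * S.card ≤ (i + 1) * (bdT T S).card := by
  rcases S.eq_empty_or_nonempty with rfl | hS
  · simp only [Finset.card_empty, Nat.cast_zero, mul_zero]
    positivity
  · obtain ⟨j, hj1, hj2⟩ := G2_idx m S.card (Finset.card_pos.2 hS)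
    have h := G2_main m T hT S hS j hj1 (fun j' hj' => (hj2 j' hj').le)
    have hji : j ≤ i := by
      by_contra hc
      have h1 := hj2 (j - 1) (by omega)
      have h2 := pc_mono (m + 1) (show i ≤ j - 1 by omega)
      omega
    have hT0 : T.Nonempty := Finset.card_pos.1 (by omega)
    have h3 : ((S.card : ℕ) : ℤ) ≤ ((bdT T S).card : ℕ) := by exact_mod_cast card_le_bdT T hT0 S
    have h4 : ((j : ℤ) + 1) * ((bdT T S).card - S.card) ≤ ((i : ℤ) + 1) * ((bdT T S).card - S.card) := by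
      apply mul_le_mul_of_nonneg_right
      · have : (j : ℤ) ≤ i := by exact_mod_cast hji
        linarith
      · linarith
    nlinarith

end Pool.Agent.DAng
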