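import Pool.Agent.Lib.MP_e3689b_an.Mg.G008

set_option autoImplicit false

/-!
# Growth of sets of monomials, IV: the combinatorial conclusion
-/

namespace Pool.Agent.DAng

/-- The combinatorial conclusion. `m = n - 1` is the number of variables; `s` is the dimension of the
affine span of the image of a generic line; the set `X o` contains the initial monomials `S o` of the
leading forms of order `o` and all products of the elements of `X (o + 1)` with the `m` variables. -/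
theorem G4_comb {σ : Type*} [Fintype σ] {m N d k s D : ℕ} (hm : Fintype.card σ = m) (i0 : σ)
    (S X : ℕ → Finset (σ →₀ ℕ))
    (hB1 : ∀ o, 2 ≤ o → S o ⊆ X o)
    (hB2 : ∀ o, 2 ≤ o → bd (X (o + 1)) ⊆ X o)
    (hC : d ≤ s + ∑ o ∈ Finset.Icc 2 D, (o - 1) * (S o).card)
    (hD : s + (bd (bd (X 2))).card ≤ N)
    (hE : m * s + 1 + (PQ i0 (X 2)).card ≤ N)
    (hF : ∀ o, 2 ≤ o → (S o).card ≤ s)
    (hk : 3 ≤ k) (hmk : 2 * k * (k - 1) + 1 ≤ m) (hN : N ≤ (m + k - 2).choose k) :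
    m * d + 1 ≤ N := by
  classical
  rcases Nat.eq_zero_or_pos s with hs0 | hs
  · -- `s = 0`
    have h1 : ∑ o ∈ Finset.Icc 2 D, (o - 1) * (S o).card = 0 := by
      refine Finset.sum_eq_zero fun o ho => ?_
      have := hF o (Finset.mem_Icc.1 ho).1
      rw [show (S o).card = 0 by omega, mul_zero]
    have h2 : d = 0 := by omega
    rw [h2, mul_zero]
    omega
  -- parameters
  obtain ⟨i, rfl⟩ : ∃ i, k = i + 2 := ⟨k - 2, by omega⟩
  have hk1 : i + 2 - 1 = i + 1 := by omega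
  rw [hk1] at hmk
  have h13 : 13 ≤ m := by
    have : 2 * 3 * 2 ≤ 2 * (i + 2) * (i + 1) :=
      Nat.mul_le_mul (Nat.mul_le_mul (le_refl 2) hk) (by omega)
    omega
  obtain ⟨μ, rfl⟩ : ∃ μ, m = μ + 3 := ⟨m - 3, by omega⟩
  set R : Finset σ := Finset.univ.erase i0 with hR
  have hRc : R.card = μ + 2 := by
    rw [hR, Finset.card_erase_of_mem (Finset.mem_univ _), Finset.card_univ, hm]
    omega
  have hRne : R.Nonempty := Finset.card_pos.1 (by omega)
  have hbd : ∀ Y : Finset (σ →₀ ℕ), bdT R Y ⊆ bd Y := fun Y =>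
    bdT_mono (Finset.subset_univ _) (Finset.Subset.refl _)
  have hbd2 : bdT R (bdT R (X 2)) ⊆ bd (bd (X 2)) :=
    (bdT_mono (Finset.subset_univ _) (hbd _))
  have hNpc : (N : ℤ) ≤ pc (μ + 1) (i + 2) := by
    unfold pc
    rw [show μ + 1 + (i + 2) = μ + 3 + (i + 2) - 2 by omega]
    exact_mod_cast hN
  have hlt : ((bdT R (bdT R (X 2))).card : ℤ) < pc (μ + 1) (i + 2) := by
    have h1 := Finset.card_le_card hbd2
    have h2 : (bdT R (bdT R (X 2))).card < N := by omega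
    have h3 : (((bdT R (bdT R (X 2))).card : ℕ) : ℤ) < (N : ℕ) := by exact_mod_cast h2
    exact h3.trans_le hNpc
  have hB1' : ((bdT R (X 2)).card : ℤ) < pc (μ + 1) (i + 1) := by
    by_contra hc
    exact absurd (G3_thr μ R hRc (bdT R (X 2)) (i + 1) (not_lt.1 hc)) (not_le.2 hlt)
  have hx : ((X 2).card : ℤ) < pc (μ + 1) i := by
    by_contra hc
    exact absurd (G3_thr μ R hRc (X 2) i (not_lt.1 hc)) (not_le.2 hB1')
  -- the cardinalities are decreasing
  have hdec : ∀ o, 2 ≤ o → (X (o + 1)).card ≤ (X o).card := fun o ho =>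
    (card_le_bdT R hRne _).trans (Finset.card_le_card ((hbd _).trans (hB2 o ho)))
  have hle : ∀ o, 2 ≤ o → (X o).card ≤ (X 2).card := by
    intro o ho
    induction o, ho using Nat.le_induction with
    | base => exact le_refl _
    | succ o ho ih => exact (hdec o ho).trans ih
  have hgeo : ∀ o, 2 ≤ o → ((μ : ℤ) + 2 + i) * ((X (o + 1)).card : ℤ) ≤
      ((i : ℤ) + 1) * ((X o).card : ℤ) := by
    intro o ho
    have h1 : ((X (o + 1)).card : ℤ) ≤ pc (μ + 1) i := by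
      have : ((X (o + 1)).card : ℤ) ≤ (X 2).card := by exact_mod_cast hle (o + 1) (by omega)
      linarith
    refine (G2_lin μ R hRc (X (o + 1)) i h1).trans ?_
    refine mul_le_mul_of_nonneg_left ?_ (by positivity)
    exact_mod_cast Finset.card_le_card ((hbd _).trans (hB2 o ho))
  -- the weighted sum
  have hsum := G3_sum ((μ : ℤ) + 2 + i) ((i : ℤ) + 1) (by positivity) (by
      have : (0 : ℤ) ≤ μ := Int.natCast_nonneg μ
      linarith) (fun o => ((X o).card : ℤ)) (fun o => by positivity) hgeo (D - 1) 2 (le_refl _)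
  have hsum2 : (((∑ o ∈ Finset.Icc 2 D, (o - 1) * (S o).card : ℕ)) : ℤ) ≤
      ∑ j ∈ Finset.range (D - 1), (((2 : ℕ) : ℤ) + j - 1) * ((X (2 + j)).card : ℤ) := by
    have h1 : ∑ o ∈ Finset.Icc 2 D, (o - 1) * (S o).card ≤
        ∑ j ∈ Finset.range (D - 1), (j + 1) * (X (2 + j)).card := by
      have h2 : Finset.Icc 2 D = (Finset.range (D - 1)).image (fun j => 2 + j) := by
        ext o
        rw [Finset.mem_Icc, Finset.mem_image]
        constructor
        · rintro ⟨h3, h4⟩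
          exact ⟨o - 2, Finset.mem_range.2 (by omega), by omega⟩
        · rintro ⟨j, hj, rfl⟩
          have := Finset.mem_range.1 hj
          omega
      rw [h2, Finset.sum_image (fun a _ b _ h => by simpa using h)]
      refine Finset.sum_le_sum fun j _ => ?_
      rw [show 2 + j - 1 = j + 1 by omega]
      exact Nat.mul_le_mul_left _ (Finset.card_le_card (hB1 _ (by omega)))
    have h3 : (((∑ j ∈ Finset.range (D - 1), (j + 1) * (X (2 + j)).card : ℕ)) : ℤ) =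
        ∑ j ∈ Finset.range (D - 1), (((2 : ℕ) : ℤ) + j - 1) * ((X (2 + j)).card : ℤ) := by
      push_cast
      exact Finset.sum_congr rfl fun j _ => by ring
    rw [← h3]
    exact_mod_cast h1
  -- the second difference
  have hP := PQ_card i0 (X 2)
  rw [← hR, hRc] at hP
  have hg1 := G2_lin μ R hRc (X 2) i hx.le
  have hg2 := G2_lin μ R hRc (bdT R (X 2)) (i + 1) hB1'.le
  -- abbreviations
  obtain ⟨x, hxe⟩ : ∃ x : ℤ, x = (X 2).card := ⟨_, rfl⟩
  obtain ⟨B, hBe⟩ : ∃ x : ℤ, x = (bdT R (X 2)).card := ⟨_, rfl⟩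
  obtain ⟨B2, hB2e⟩ : ∃ x : ℤ, x = (bdT R (bdT R (X 2))).card := ⟨_, rfl⟩
  obtain ⟨P, hPe⟩ : ∃ x : ℤ, x = (PQ i0 (X 2)).card := ⟨_, rfl⟩
  obtain ⟨W, hWe⟩ : ∃ x : ℤ, x = ∑ j ∈ Finset.range (D - 1),
    (((2 : ℕ) : ℤ) + j - 1) * ((X (2 + j)).card : ℤ) := ⟨_, rfl⟩
  have eP : B2 ≤ P + (μ + 2) * x := by
    rw [hB2e, hPe, hxe]
    exact_mod_cast hP
  rw [← hxe, ← hBe] at hg1
  rw [← hB2e, ← hBe] at hg2
  have ex : 0 ≤ x := by rw [hxe]; positivity
  have eμ : (0 : ℤ) ≤ μ := Int.natCast_nonneg μ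
  have ei : (1 : ℤ) ≤ i := by exact_mod_cast (by omega : 1 ≤ i)
  have eW : ((μ : ℤ) + 1) ^ 2 * W ≤ (μ + 2 + i) ^ 2 * x := by
    have h1 : ((μ : ℤ) + 2 + i - (i + 1)) ^ 2 * W ≤ x * ((((2 : ℕ) : ℤ) - 1) * (μ + 2 + i) *
      (μ + 2 + i - (i + 1)) + (μ + 2 + i) * (i + 1)) := by
      rw [hWe, hxe]
      exact hsum
    have h2 : (μ : ℤ) + 2 + i - (i + 1) = μ + 1 := by ring
    rw [h2] at h1
    refine h1.trans (le_of_eq ?_)
    push_cast
    ring
  have epoly := G3_poly ((i : ℤ) + 2) (μ + 2) (by linarith) (by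
    have h1 : ((2 * (i + 2) * (i + 1) + 1 : ℕ) : ℤ) ≤ ((μ + 3 : ℕ) : ℤ) := by exact_mod_cast hmk
    push_cast at h1
    linarith)
  -- `(i+1)(i+2) B2 ≥ a (a+1) x`
  have h1 : ((μ : ℤ) + 2 + i) * (μ + 3 + i) * x ≤ (i + 1) * (i + 2) * B2 := by
    push_cast at hg2
    have h2 : ((μ : ℤ) + 3 + i) * ((μ + 2 + i) * x) ≤ (μ + 3 + i) * ((i + 1) * B) :=
      mul_le_mul_of_nonneg_left hg1 (by positivity)
    have h3 : ((i : ℤ) + 1) * ((μ + 2 + (i + 1)) * B) ≤ (i + 1) * ((i + 1 + 1) * B2) :=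
      mul_le_mul_of_nonneg_left hg2 (by positivity)
    nlinarith
  have hW : ((μ : ℤ) + 3) * W ≤ P := by
    have hpos : (0 : ℤ) < (i + 1) * (i + 2) * (μ + 1) ^ 2 := by positivity
    refine le_of_mul_le_mul_left ?_ hpos
    calc ((i : ℤ) + 1) * (i + 2) * (μ + 1) ^ 2 * ((μ + 3) * W)
        = ((i : ℤ) + 1) * (i + 2) * (μ + 3) * ((μ + 1) ^ 2 * W) := by ring
      _ ≤ ((i : ℤ) + 1) * (i + 2) * (μ + 3) * ((μ + 2 + i) ^ 2 * x) :=
          mul_le_mul_of_nonneg_left eW (by positivity)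
      _ = (((i : ℤ) + 2) * ((i + 2) - 1) * ((μ + 2) + 1) * ((μ + 2) + (i + 2) - 2) ^ 2) * x := by
          ring
      _ ≤ ((((μ : ℤ) + 2) + (i + 2) - 2) * ((μ + 2) + (i + 2) - 1) -
            (i + 2) * ((i + 2) - 1) * (μ + 2)) * ((μ + 2) - 1) ^ 2 * x :=
          mul_le_mul_of_nonneg_right epoly ex
      _ = (μ + 1) ^ 2 * (((μ : ℤ) + 2 + i) * (μ + 3 + i) * x - (i + 1) * (i + 2) * ((μ + 2) * x)) := by
          ring
      _ ≤ (μ + 1) ^ 2 * ((i + 1) * (i + 2) * B2 - (i + 1) * (i + 2) * ((μ + 2) * x)) :=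
          mul_le_mul_of_nonneg_left (by linarith) (by positivity)
      _ = (i + 1) * (i + 2) * (μ + 1) ^ 2 * (B2 - (μ + 2) * x) := by ring
      _ ≤ (i + 1) * (i + 2) * (μ + 1) ^ 2 * P :=
          mul_le_mul_of_nonneg_left (by linarith) hpos.le
  have hdW : (d : ℤ) ≤ s + W := by
    rw [hWe]
    have h2 : ((d : ℕ) : ℤ) ≤ ((s + ∑ o ∈ Finset.Icc 2 D, (o - 1) * (S o).card : ℕ) : ℤ) := by
      exact_mod_cast hC
    rw [Nat.cast_add] at h2
    linarith
  have hfin : (((μ + 3) * d + 1 : ℕ) : ℤ) ≤ N := by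
    have h3 : (((μ + 3) * s + 1 + (PQ i0 (X 2)).card : ℕ) : ℤ) ≤ N := by exact_mod_cast hE
    push_cast at h3 ⊢
    rw [← hPe] at h3
    nlinarith
  exact_mod_cast hfin

end Pool.Agent.DAng
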