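import Pool.Agent.Lib.MP_e3689b_an.TD

set_option autoImplicit false

namespace Pool.Agent.DAng

open MvPolynomial

/-- PROOF. `MvPolynomial.irreducible_sumSMulXSMulY` (Mathlib.RingTheory.MvPolynomial.IrreducibleQuadratic) for the `c : Fin t →₀ ℂ` with all values `1` (`Finsupp.equivFunOnFinite.symm 1`,
support = univ, nontrivial since `2 ≤ t`), `sumSMulXSMulY c = ss t` (`Finsupp.linearCombination` as a finite sum); `Irreducible.prime` (`MvPolynomial` over a field is a UFD). -/
theorem ss_prime {t : ℕ} (ht : 2 ≤ t) : Prime (ss t) := by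
  classical
  have h1 : sumSMulXSMulY (Finsupp.equivFunOnFinite.symm (fun _ : Fin t => (1 : ℂ))) = ss t := by
    unfold sumSMulXSMulY ss
    rw [Finsupp.linearCombination_apply, Finsupp.sum_fintype _ _ (fun i => by simp)]
    refine Finset.sum_congr rfl fun i _ => ?_
    simp
  have h2 : Irreducible (ss t) := by
    rw [← h1]
    apply irreducible_sumSMulXSMulY
    · refine ⟨⟨0, by omega⟩, ?_, ⟨1, by omega⟩, ?_, ?_⟩
      · simp
      · simp
      · intro h
        have := congrArg Fin.val h
        simp at this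
    · intro r hr
      have h3 := hr ⟨0, by omega⟩
      simp only [Finsupp.equivFunOnFinite_symm_apply_apply] at h3
      exact isUnit_of_dvd_one h3
  exact h2.prime

/-- PROOF. Nullstellensatz: `Ideal.span {ss t}` is prime (`Ideal.span_singleton_prime`), `MvPolynomial.IsPrime.vanishingIdeal_zeroLocus` (K = k = ℂ); every `x : Fin t ⊕ Fin t → ℂ` is
`Sum.elim (x ∘ inl) (x ∘ inr)`; `Ideal.mem_span_singleton`. -/
theorem ss_dvd {t : ℕ} (ht : 2 ≤ t) (P : BR t)
    (h : ∀ y w : Fin t → ℂ, ∑ j, y j * w j = 0 → eval (Sum.elim y w) P = 0) : ss t ∣ P := by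
  have hp := ss_prime ht
  have hI : (Ideal.span {ss t}).IsPrime := (Ideal.span_singleton_prime hp.ne_zero).2 hp
  have h1 : vanishingIdeal ℂ (zeroLocus ℂ (Ideal.span {ss t})) = Ideal.span {ss t} :=
    MvPolynomial.IsPrime.vanishingIdeal_zeroLocus _
  have h2 : P ∈ vanishingIdeal ℂ (zeroLocus ℂ (Ideal.span {ss t})) := by
    rw [mem_vanishingIdeal_iff]
    intro x hx
    have h3 := hx (ss t) (Ideal.mem_span_singleton_self _)
    have h4 := h (fun j => x (Sum.inl j)) (fun j => x (Sum.inr j)) (by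
      rw [← h3]
      simp [ss])
    have h5 : Sum.elim (fun j => x (Sum.inl j)) (fun j => x (Sum.inr j)) = x := by
      funext i
      cases i <;> rfl
    rw [h5] at h4
    rw [MvPolynomial.aeval_eq_eval]
    exact h4
  rw [h1] at h2
  exact Ideal.mem_span_singleton.1 h2

/-- PROOF. If `ss t * R = iy q`: choose `y` with `eval y q ≠ 0` (`MvPolynomial.funext`), evaluate at `Sum.elim y 0`: the left side is `0`, the right side is `eval y q` (`eval_rename`). -/
theorem ss_not_iy {t : ℕ} (q : MvPolynomial (Fin t) ℂ) (hq : q ≠ 0) : ¬ ss t ∣ iy q := by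
  rintro ⟨R, hR⟩
  apply hq
  apply MvPolynomial.funext
  intro y
  have h1 := congrArg (eval (Sum.elim y (0 : Fin t → ℂ))) hR
  unfold iy at h1
  rw [eval_rename, map_mul] at h1
  have h2 : eval (Sum.elim y (0 : Fin t → ℂ)) (ss t) = 0 := by
    simp [ss]
  rw [h2, zero_mul] at h1
  rw [map_zero]
  exact h1

private theorem GL01_cj_ne {t : ℕ} (q : MvPolynomial (Fin t) ℂ) (hq : q ≠ 0) : cj q ≠ 0 := by
  intro h
  apply hq
  unfold cj at h
  exact (MvPolynomial.map_injective _ (starRingEnd ℂ).injective) (by rw [h, map_zero])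

/-- PROOF. As `ss_not_iy`, at the points `Sum.elim 0 w`; `cj q ≠ 0` (`map` with an injective ring homomorphism). -/
theorem ss_not_iw {t : ℕ} (q : MvPolynomial (Fin t) ℂ) (hq : q ≠ 0) : ¬ ss t ∣ iw q := by
  rintro ⟨R, hR⟩
  apply GL01_cj_ne q hq
  apply MvPolynomial.funext
  intro w
  have h1 := congrArg (eval (Sum.elim (0 : Fin t → ℂ) w)) hR
  unfold iw at h1
  rw [eval_rename, map_mul] at h1
  have h2 : eval (Sum.elim (0 : Fin t → ℂ) w) (ss t) = 0 := by
    simp [ss]
  rw [h2, zero_mul] at h1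
  rw [map_zero]
  exact h1

private theorem GL01_evcj {n : ℕ} (z : Fin n → ℂ) (G : MvPolynomial (Fin n) ℂ) :
    eval (fun i => (starRingEnd ℂ) (z i)) (cj G) = (starRingEnd ℂ) (eval z G) := by
  unfold cj
  induction G using MvPolynomial.induction_on with
  | C a => simp
  | add p q hp hq => simp [hp, hq]
  | mul_X p i hp => simp [hp]

/-- PROOF. `eval (Sum.elim y w) (iw q) = eval w (cj q) = conj (eval (conj w) q)` (`S3_evcj` if you import S3, or directly). By `ss_dvd` applied to `iy q * iw q' * P`: for `y, w` with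
`∑ y w = 0` put `y' = conj w`; if `eval y q = 0` or `eval y' q' = 0` the product vanishes, otherwise `h`. Then `ss_prime` and `ss_not_iy`, `ss_not_iw`. -/
theorem ss_gen {t : ℕ} (ht : 2 ≤ t) (q q' : MvPolynomial (Fin t) ℂ) (hq : q ≠ 0) (hq' : q' ≠ 0)
    (P : BR t) (h : ∀ y y' : Fin t → ℂ, ∑ j, y j * (starRingEnd ℂ) (y' j) = 0 →
      eval y q ≠ 0 → eval y' q' ≠ 0 →
      eval (Sum.elim y (fun j => (starRingEnd ℂ) (y' j))) P = 0) : ss t ∣ P := by
  have hp := ss_prime ht
  have h1 : ss t ∣ iy q * iw q' * P := by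
    apply ss_dvd ht
    intro y w hyw
    rw [map_mul, map_mul]
    have e1 : eval (Sum.elim y w) (iy q) = eval y q := by
      unfold iy
      rw [eval_rename]
      rfl
    have hw : (fun i => (starRingEnd ℂ) ((starRingEnd ℂ) (w i))) = w := by
      funext i
      exact Complex.conj_conj _
    have e2 : eval (Sum.elim y w) (iw q') =
        (starRingEnd ℂ) (eval (fun i => (starRingEnd ℂ) (w i)) q') := by
      unfold iw
      rw [eval_rename, ← GL01_evcj, hw]
      rfl
    by_cases hy : eval y q = 0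
    · rw [e1, hy, zero_mul, zero_mul]
    · by_cases hy' : eval (fun i => (starRingEnd ℂ) (w i)) q' = 0
      · rw [e2, hy', map_zero, mul_zero, zero_mul]
      · have h2 := h y (fun i => (starRingEnd ℂ) (w i)) (by
          simpa using hyw) hy hy'
        rw [hw] at h2
        rw [h2, mul_zero]
  rcases hp.dvd_or_dvd h1 with h2 | h2
  · rcases hp.dvd_or_dvd h2 with h3 | h3
    · exact absurd h3 (ss_not_iy q hq)
    · exact absurd h3 (ss_not_iw q' hq')
  · exact h2

end Pool.Agent.DAng
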