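import Pool.Agent.Lib.MP_e3689b_an.Mg.G002

set_option autoImplicit false

namespace Pool.Agent.DAng

open MvPolynomial

variable {m : ℕ} (i0 : Fin m)

private theorem GL14_X0 : sgm i0 (X i0) = X i0 := by
  unfold sgm
  rw [aeval_X, if_pos rfl]

private theorem GL14_X {l : Fin m} (hl : l ≠ i0) : sgm i0 (X l) = X i0 * X l := by
  unfold sgm
  rw [aeval_X, if_neg hl]

private theorem GL14_C (a : ℂ) : sgm i0 (C a) = C a := by
  unfold sgm
  rw [aeval_C]
  rfl

/-- PROOF. Induction on `P`, or `aeval` and `eval` composition (`MvPolynomial.eval` as ring hom, `aeval_def`, `eval₂_comp`..). -/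
theorem sgm_eval (y : Fin m → ℂ) (P : MvPolynomial (Fin m) ℂ) :
    eval y (sgm i0 P) = eval (fun l => if l = i0 then y i0 else y i0 * y l) P := by
  induction P using MvPolynomial.induction_on with
  | C a => rw [GL14_C, eval_C, eval_C]
  | add p q hp hq => rw [map_add, map_add, map_add, hp, hq]
  | mul_X p l hp =>
    rw [map_mul, map_mul, map_mul, hp, eval_X]
    congr 1
    by_cases hl : l = i0
    · rw [hl, GL14_X0, eval_X, if_pos rfl]
    · rw [GL14_X i0 hl, if_neg hl, map_mul, eval_X, eval_X]

/-- PROOF. If `sgm i0 P = 0` then `P` vanishes at all points `y` with `y i0 ≠ 0` (`sgm_eval` at `τ = y i0`, `η_l = y l / y i0`), so `X i0 * P` vanishes everywhere, `P = 0` (`MvPolynomial.funext`). -/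
theorem sgm_inj : Function.Injective (sgm i0) := by
  rw [injective_iff_map_eq_zero]
  intro P hP
  have h1 : X i0 * P = 0 := by
    refine MvPolynomial.funext fun y => ?_
    rw [map_mul, eval_X, map_zero]
    by_cases hy : y i0 = 0
    · rw [hy, zero_mul]
    · have h2 := sgm_eval i0 (fun l => if l = i0 then y i0 else y l / y i0) P
      rw [hP, map_zero] at h2
      have h3 : (fun l => if l = i0 then (fun l => if l = i0 then y i0 else y l / y i0) i0 else
          (fun l => if l = i0 then y i0 else y l / y i0) i0 *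
            (fun l => if l = i0 then y i0 else y l / y i0) l) = y := by
        funext l
        by_cases hl : l = i0
        · simp [hl]
        · simp only [if_neg hl, if_true]
          field_simp
      rw [h3] at h2
      rw [← h2, mul_zero]
  rcases mul_eq_zero.1 h1 with h2 | h2
  · exact absurd h2 (X_ne_zero i0)
  · exact h2

/-- PROOF. Induction on `P` (Leibniz). -/
theorem sgm_pd (l : Fin m) (hl : l ≠ i0) (P : MvPolynomial (Fin m) ℂ) :
    pderiv l (sgm i0 P) = X i0 * sgm i0 (pderiv l P) := by
  induction P using MvPolynomial.induction_on with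
  | C a => rw [GL14_C, pderiv_C, map_zero, mul_zero]
  | add p q hp hq => rw [map_add, map_add, hp, hq, map_add, map_add, mul_add]
  | mul_X p j hp =>
    rw [map_mul, pderiv_mul, hp, pderiv_mul, map_add, map_mul, map_mul]
    by_cases hj : j = i0
    · subst hj
      rw [GL14_X0, pderiv_X_of_ne hl.symm, map_zero]
      ring
    · rw [GL14_X i0 hj, pderiv_mul, pderiv_X_of_ne hl.symm]
      by_cases hjl : j = l
      · subst hjl
        rw [pderiv_X_self, map_one]
        ring
      · rw [pderiv_X_of_ne hjl, map_zero]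
        ring

/-- PROOF. Induction on `P` (Leibniz); for `P = X l`, `l ≠ i0`: left side `X l`. -/
theorem sgm_pd0 (P : MvPolynomial (Fin m) ℂ) :
    pderiv i0 (sgm i0 P) = sgm i0 (pderiv i0 P) +
      ∑ l ∈ Finset.univ.erase i0, X l * sgm i0 (pderiv l P) := by
  induction P using MvPolynomial.induction_on with
  | C a => simp
  | add p q hp hq =>
    simp only [map_add, hp, hq, mul_add, Finset.sum_add_distrib]
    ring
  | mul_X p j hp =>
    have e1 : ∑ l ∈ Finset.univ.erase i0, X l * sgm i0 (pderiv l (p * X j)) =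
        (∑ l ∈ Finset.univ.erase i0, X l * sgm i0 (pderiv l p)) * sgm i0 (X j) +
          sgm i0 p * ∑ l ∈ Finset.univ.erase i0, X l * sgm i0 (pderiv l (X j)) := by
      rw [Finset.sum_mul, Finset.mul_sum, ← Finset.sum_add_distrib]
      refine Finset.sum_congr rfl fun l _ => ?_
      rw [pderiv_mul, map_add, map_mul, map_mul]
      ring
    have e2 : pderiv i0 (sgm i0 (X j)) = sgm i0 (pderiv i0 (X j)) +
        ∑ l ∈ Finset.univ.erase i0, X l * sgm i0 (pderiv l (X j)) := by
      by_cases hj : j = i0
      · subst hj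
        rw [GL14_X0, pderiv_X_self, map_one, Finset.sum_eq_zero, add_zero]
        intro l hl
        rw [pderiv_X_of_ne (Finset.ne_of_mem_erase hl).symm, map_zero, mul_zero]
      · rw [GL14_X i0 hj, pderiv_mul, pderiv_X_self, pderiv_X_of_ne hj, map_zero, zero_add,
          Finset.sum_eq_single j]
        · rw [pderiv_X_self, map_one]
          ring
        · intro l _ hl
          rw [pderiv_X_of_ne hl.symm, map_zero, mul_zero]
        · intro h
          exact absurd (Finset.mem_erase.2 ⟨hj, Finset.mem_univ _⟩) h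
    rw [e1, map_mul, pderiv_mul, hp, e2, pderiv_mul, map_add, map_mul, map_mul]
    ring

/-- HOMOGENISATION. PROOF. Induction on `P`: constants `E = 0`; sums: if `X^E P = sgm Q`, `X^{E'} P' = sgm Q'` then `X^{E+E'} (P + P') = sgm (X^{E'} Q + X^E Q')` (`sgm (X i0) = X i0`);
`P * X i0`: `E`, `Q * X i0`; `P * X l`, `l ≠ i0`: `E + 1`, `Q * X l` (`sgm (X l) = X i0 * X l`). -/
theorem sgm_hom (P : MvPolynomial (Fin m) ℂ) : ∃ (E : ℕ) (Q : MvPolynomial (Fin m) ℂ),
    X i0 ^ E * P = sgm i0 Q := by
  induction P using MvPolynomial.induction_on with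
  | C a => exact ⟨0, C a, by rw [GL14_C, pow_zero, one_mul]⟩
  | add p q hp hq =>
    obtain ⟨E, Q, h⟩ := hp
    obtain ⟨E', Q', h'⟩ := hq
    refine ⟨E + E', X i0 ^ E' * Q + X i0 ^ E * Q', ?_⟩
    rw [map_add, map_mul, map_mul, map_pow, map_pow, GL14_X0, ← h, ← h', pow_add]
    ring
  | mul_X p j hp =>
    obtain ⟨E, Q, h⟩ := hp
    by_cases hj : j = i0
    · subst hj
      refine ⟨E, Q * X j, ?_⟩
      rw [map_mul, GL14_X0, ← h]
      ring
    · refine ⟨E + 1, Q * X j, ?_⟩
      rw [map_mul, GL14_X i0 hj, ← h, pow_succ]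
      ring

/-- PROOF. Sum of the exponents of `sgm_hom` for the finitely many components. -/
theorem sgm_homv {M : ℕ} (x : PV m M) : ∃ (E : ℕ) (v : PV m M),
    ∀ a, X i0 ^ E * x a = sgm i0 (v a) := by
  choose E Q hQ using fun a => sgm_hom i0 (x a)
  refine ⟨∑ b, E b, fun a => X i0 ^ (∑ b ∈ Finset.univ.erase a, E b) * Q a, fun a => ?_⟩
  rw [map_mul, map_pow, GL14_X0, ← hQ, ← Finset.add_sum_erase Finset.univ E (Finset.mem_univ a),
    pow_add]
  ring

end Pool.Agent.DAng
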