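import Pool.Agent.Lib.MP_e3689b_an.Mg.G002
import Pool.Agent.Lib.MP_e3689b_an.Mg.G007
import Pool.Agent.Lib.MP_e3689b_an.Mg.G016
import Pool.Agent.Lib.MP_e3689b_an.Mg.G021

set_option autoImplicit false

namespace Pool.Agent.DAng

open MvPolynomial

/-- the coefficient vectors of `F` on the line `z_0 + t (1, b)` -/
noncomputable def Ph {m N : ℕ} (F : Option (Fin N) → MvPolynomial (Fin (m + 1)) ℂ)
    (V : Matrix (Fin m) (Fin m) ℂ) (i0 : Fin m) (η : Fin m → ℂ) (l : ℕ) : Option (Fin N) → ℂ :=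
  fun j => (lin (zz V i0) (Fin.cons 1 (bb V i0 η)) (F j)).coeff l

/-- columns of a unitary matrix -/
theorem GL16_col {m : ℕ} (V : Matrix (Fin m) (Fin m) ℂ) (hV : V ∈ Matrix.unitaryGroup (Fin m) ℂ)
    (l l' : Fin m) : ∑ i, V i l * (starRingEnd ℂ) (V i l') = if l = l' then 1 else 0 := by
  have h1 : star V * V = 1 := (Matrix.mem_unitaryGroup_iff').1 hV
  have h2 : (star V * V) l' l = (1 : Matrix (Fin m) (Fin m) ℂ) l' l := by rw [h1]
  rw [Matrix.mul_apply, Matrix.one_apply] at h2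
  have h3 : (∑ i, V i l * (starRingEnd ℂ) (V i l')) = ∑ i, star V l' i * V i l := by
    apply Finset.sum_congr rfl
    intro i _
    rw [Matrix.star_apply, mul_comm]
    rfl
  rw [h3, h2]
  by_cases h : l = l'
  · rw [if_pos h, if_pos h.symm]
  · rw [if_neg h, if_neg (fun h' => h h'.symm)]

/-- pairing with the base point -/
theorem GL16_bb0 {m : ℕ} (V : Matrix (Fin m) (Fin m) ℂ) (hV : V ∈ Matrix.unitaryGroup (Fin m) ℂ)
    (i0 : Fin m) (η : Fin m → ℂ) : ∑ i, bb V i0 η i * (starRingEnd ℂ) (V i i0) = 0 := by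
  unfold bb
  simp only [Finset.sum_mul]
  rw [Finset.sum_comm]
  apply Finset.sum_eq_zero
  intro l hl
  have h1 : ∑ i, V i l * η l * (starRingEnd ℂ) (V i i0) =
      η l * ∑ i, V i l * (starRingEnd ℂ) (V i i0) := by
    rw [Finset.mul_sum]
    apply Finset.sum_congr rfl
    intro i _
    ring
  rw [h1, GL16_col V hV, if_neg (Finset.ne_of_mem_erase hl), mul_zero]

theorem GL16_bb0' {m : ℕ} (V : Matrix (Fin m) (Fin m) ℂ) (hV : V ∈ Matrix.unitaryGroup (Fin m) ℂ)
    (i0 : Fin m) (η : Fin m → ℂ) : ∑ i, V i i0 * (starRingEnd ℂ) (bb V i0 η i) = 0 := by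
  have h := congrArg (starRingEnd ℂ) (GL16_bb0 V hV i0 η)
  rw [map_sum, map_zero] at h
  rw [← h]
  apply Finset.sum_congr rfl
  intro i _
  rw [map_mul, Complex.conj_conj, mul_comm]

theorem GL16_bb1 {m : ℕ} (V : Matrix (Fin m) (Fin m) ℂ) (hV : V ∈ Matrix.unitaryGroup (Fin m) ℂ)
    (i0 : Fin m) (η η' : Fin m → ℂ) : ∑ i, bb V i0 η i * (starRingEnd ℂ) (bb V i0 η' i) =
      ∑ l ∈ Finset.univ.erase i0, η l * (starRingEnd ℂ) (η' l) := by
  have h1 : ∀ i, bb V i0 η i * (starRingEnd ℂ) (bb V i0 η' i) =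
      ∑ l ∈ Finset.univ.erase i0, ∑ l' ∈ Finset.univ.erase i0,
        (η l * (starRingEnd ℂ) (η' l')) * (V i l * (starRingEnd ℂ) (V i l')) := by
    intro i
    unfold bb
    rw [map_sum, Finset.sum_mul_sum]
    apply Finset.sum_congr rfl
    intro l _
    apply Finset.sum_congr rfl
    intro l' _
    rw [map_mul]
    ring
  rw [Finset.sum_congr rfl (fun i _ => h1 i), Finset.sum_comm]
  apply Finset.sum_congr rfl
  intro l hl
  rw [Finset.sum_comm, Finset.sum_eq_single l]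
  · rw [← Finset.mul_sum, GL16_col V hV, if_pos rfl, mul_one]
  · intro l' _ hl'
    rw [← Finset.mul_sum, GL16_col V hV, if_neg (fun h => hl' h.symm), mul_zero]
  · intro h
    exact absurd hl h

theorem GL16_B_add {N : ℕ} (v v' w : Option (Fin N) → ℂ) :
    S4_B (v + v') w = S4_B v w + S4_B v' w := by
  unfold S4_B
  rw [← Finset.sum_add_distrib]
  apply Finset.sum_congr rfl
  intro j _
  rw [Pi.add_apply]
  ring

theorem GL16_B_smul {N : ℕ} (a : ℂ) (v w : Option (Fin N) → ℂ) :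
    S4_B (a • v) w = a * S4_B v w := by
  unfold S4_B
  rw [Finset.mul_sum]
  apply Finset.sum_congr rfl
  intro j _
  rw [Pi.smul_apply, smul_eq_mul]
  ring

theorem GL16_B_zero {N : ℕ} (w : Option (Fin N) → ℂ) : S4_B 0 w = 0 := by
  unfold S4_B
  apply Finset.sum_eq_zero
  intro j _
  rw [Pi.zero_apply, zero_mul, mul_zero]

/-- PROOF. Evaluation of `ps` at `η`: `a ↦ V e_{i0}`, `b ↦ bb V i0 η`; `lin_phi`. -/
theorem GL16_ps {m N : ℕ} (F : Option (Fin N) → MvPolynomial (Fin (m + 1)) ℂ)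
    (V : Matrix (Fin m) (Fin m) ℂ) (i0 : Fin m) (η : Fin m → ℂ) (j : Option (Fin N)) (l : ℕ) :
    eval η (ps V i0 ((phi m (F j)).coeff l)) = Ph F V i0 η l j := by
  unfold Ph zz
  rw [lin_phi]
  generalize (phi m (F j)).coeff l = P
  unfold ps evA
  induction P using MvPolynomial.induction_on with
  | C a => 
    simp only [MvPolynomial.algHom_C, MvPolynomial.algebraMap_eq, eval_C]
  | add p q hp hq => rw [map_add, map_add, hp, hq, map_add]
  | mul_X p v hp =>
    rw [map_mul, map_mul, hp, map_mul, eval_X, aeval_X]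
    congr 1
    rcases v with a | b
    · simp
    · simp [bb]

/-- PROOF. `Submodule.span_induction`. Generators: `x = la s (ps ∘ vec d F θ)`: `eval η (x i) = -∑_j sg j conj(s i j) ∑_l θ_l(η) Ph (l+1) j = -S4_B X (s i)` with `X = ∑_l θ_l(η) Ph (l+1)`
(`GL16_ps`). Sums and multiples (`c • x`: `X ↦ eval η c • X`). -/
theorem GL16_span {m N M d : ℕ} (F : Option (Fin N) → MvPolynomial (Fin (m + 1)) ℂ)
    (u : ℕ → CR m) (V : Matrix (Fin m) (Fin m) ℂ) (i0 : Fin m) (s : Fin M → Option (Fin N) → ℂ)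
    (k : ℕ) (η : Fin m → ℂ) (x : PV m M)
    (hx : x ∈ Submodule.span (MvPolynomial (Fin m) ℂ) (GW d F u V i0 s k)) :
    ∃ Y ∈ Submodule.span ℂ (Set.range (fun l : ℕ => Ph F V i0 η (l + 1))),
      ∀ i, eval η (x i) = -S4_B Y (s i) := by
  induction hx using Submodule.span_induction with
  | mem x hx =>
    obtain ⟨v, ⟨θ, H, rfl, -, -⟩, rfl⟩ := hx
    refine ⟨∑ l ∈ Finset.range d, (eval η (ps V i0 (θ l))) • Ph F V i0 η (l + 1), ?_, ?_⟩
    · refine Submodule.sum_mem _ fun l _ => Submodule.smul_mem _ _ (Submodule.subset_span ⟨l, rfl⟩)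
    · intro i
      unfold la vec S4_B
      rw [map_neg, map_sum, neg_inj]
      apply Finset.sum_congr rfl
      intro j _
      rw [map_mul, eval_C]
      beta_reduce
      rw [map_sum, map_sum, Finset.sum_apply]
      have h1 : ∑ l ∈ Finset.range d, eval η (ps V i0 (θ l * (phi m (F j)).coeff (l + 1))) =
          ∑ l ∈ Finset.range d, (eval η (ps V i0 (θ l)) • Ph F V i0 η (l + 1)) j := by
        apply Finset.sum_congr rfl
        intro l _
        rw [map_mul, map_mul, GL16_ps, Pi.smul_apply, smul_eq_mul]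
      rw [h1]
      ring
  | zero =>
    refine ⟨0, Submodule.zero_mem _, fun i => ?_⟩
    rw [GL16_B_zero, neg_zero]
    exact map_zero _
  | add x y _ _ hx hy =>
    obtain ⟨Y1, hY1, h1⟩ := hx
    obtain ⟨Y2, hY2, h2⟩ := hy
    refine ⟨Y1 + Y2, Submodule.add_mem _ hY1 hY2, fun i => ?_⟩
    rw [Pi.add_apply, map_add, h1, h2, GL16_B_add]
    ring
  | smul a x _ hx =>
    obtain ⟨Y1, hY1, h1⟩ := hx
    refine ⟨eval η a • Y1, Submodule.smul_mem _ _ hY1, fun i => ?_⟩
    rw [Pi.smul_apply, smul_eq_mul, map_mul, h1, GL16_B_smul]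
    ring

theorem GL16_hyp {m : ℕ} (V : Matrix (Fin m) (Fin m) ℂ) (hV : V ∈ Matrix.unitaryGroup (Fin m) ℂ)
    (i0 : Fin m) (η η' : Fin m → ℂ)
    (h : 1 + ∑ l ∈ Finset.univ.erase i0, η l * (starRingEnd ℂ) (η' l) = 0) (s t : ℂ) :
    ∑ i, (zz V i0 i + s * (Fin.cons 1 (bb V i0 η) : Fin (m + 1) → ℂ) i) *
      (starRingEnd ℂ) (zz V i0 i + t * (Fin.cons 1 (bb V i0 η') : Fin (m + 1) → ℂ) i) = 1 := by
  rw [Fin.sum_univ_succ]
  unfold zz
  simp only [Fin.cons_zero, Fin.cons_succ]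
  have h1 : ∑ i, (V i i0 + s * bb V i0 η i) * (starRingEnd ℂ) (V i i0 + t * bb V i0 η' i) =
      ∑ i, V i i0 * (starRingEnd ℂ) (V i i0) + s * ∑ i, bb V i0 η i * (starRingEnd ℂ) (V i i0) +
      (starRingEnd ℂ) t * ∑ i, V i i0 * (starRingEnd ℂ) (bb V i0 η' i) +
      s * (starRingEnd ℂ) t * ∑ i, bb V i0 η i * (starRingEnd ℂ) (bb V i0 η' i) := by
    rw [Finset.mul_sum, Finset.mul_sum, Finset.mul_sum, ← Finset.sum_add_distrib,
      ← Finset.sum_add_distrib, ← Finset.sum_add_distrib]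
    apply Finset.sum_congr rfl
    intro i _
    rw [map_add, map_mul]
    ring
  rw [h1, GL16_col V hV, if_pos rfl, GL16_bb0 V hV, GL16_bb0' V hV, GL16_bb1 V hV]
  have h2 : ∑ l ∈ Finset.univ.erase i0, η l * (starRingEnd ℂ) (η' l) = -1 := by
    linear_combination h
  rw [h2, zero_add, zero_add, map_mul, map_one]
  ring

/-- PROOF. `S3` for `x = x' = zz V i0`, `y = cons 1 (bb η)`, `y' = cons 1 (bb η')`: `⟨x,x⟩ = 1`, `⟨x,y'⟩ = ⟨y,x⟩ = 0` (`GL16_col`), `⟨y,y'⟩ = 1 + ∑_{l ≠ i0} η_l conj η'_l = 0`.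
Then both spans by bilinearity (`Submodule.span_induction` twice). -/
theorem GL16_orth {m N : ℕ} (F : Option (Fin N) → MvPolynomial (Fin (m + 1)) ℂ) (hQ : Quad F)
    (V : Matrix (Fin m) (Fin m) ℂ) (hV : V ∈ Matrix.unitaryGroup (Fin m) ℂ) (i0 : Fin m)
    (η η' : Fin m → ℂ)
    (h : 1 + ∑ l ∈ Finset.univ.erase i0, η l * (starRingEnd ℂ) (η' l) = 0)
    (Y Y' : Option (Fin N) → ℂ)
    (hY : Y ∈ Submodule.span ℂ (Set.range (fun l : ℕ => Ph F V i0 η (l + 1))))
    (hY' : Y' ∈ Submodule.span ℂ (Set.range (fun l : ℕ => Ph F V i0 η' (l + 1)))) :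
    S4_B Y Y' = 0 := by
  have key : ∀ k l : ℕ, S4_B (Ph F V i0 η k) (Ph F V i0 η' l) = 0 := by
    intro k l
    exact S3 F hQ (zz V i0) (Fin.cons 1 (bb V i0 η)) (zz V i0) (Fin.cons 1 (bb V i0 η'))
      (GL16_hyp V hV i0 η η' h) k l
  have step : ∀ l : ℕ, S4_B Y (Ph F V i0 η' (l + 1)) = 0 := by
    intro l
    induction hY using Submodule.span_induction with
    | mem x hx =>
      obtain ⟨k, rfl⟩ := hx
      exact key (k + 1) (l + 1)
    | zero => exact GL16_B_zero _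
    | add x y _ _ hx hy => rw [GL16_B_add, hx, hy, add_zero]
    | smul a x _ hx => rw [GL16_B_smul, hx, mul_zero]
  have step2 : S4_B Y' Y = 0 := by
    induction hY' using Submodule.span_induction with
    | mem x hx =>
      obtain ⟨l, rfl⟩ := hx
      rw [S4_B_conj, step l, map_zero]
    | zero => exact GL16_B_zero _
    | add x y _ _ hx hy => rw [GL16_B_add, hx, hy, add_zero]
    | smul a x _ hx => rw [GL16_B_smul, hx, mul_zero]
  rw [S4_B_conj, step2, map_zero]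

/-- PROOF. `S3` for `x = x' = zz V i0`, `y = cons 1 (bb η)`, `y' = 0`, `l = 0` (`(lin x' 0 G).coeff 0 = eval x' G`). Span by linearity. -/
theorem GL16_c {m N : ℕ} (F : Option (Fin N) → MvPolynomial (Fin (m + 1)) ℂ) (hQ : Quad F)
    (V : Matrix (Fin m) (Fin m) ℂ) (hV : V ∈ Matrix.unitaryGroup (Fin m) ℂ) (i0 : Fin m)
    (η : Fin m → ℂ) (Y : Option (Fin N) → ℂ)
    (hY : Y ∈ Submodule.span ℂ (Set.range (fun l : ℕ => Ph F V i0 η (l + 1)))) :
    S4_B Y (fun j => eval (zz V i0) (F j)) = 0 := by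
  have hyp : ∀ s t : ℂ, ∑ i, (zz V i0 i + s * (Fin.cons 1 (bb V i0 η) : Fin (m + 1) → ℂ) i) *
      (starRingEnd ℂ) (zz V i0 i + t * (0 : Fin (m + 1) → ℂ) i) = 1 := by
    intro s t
    rw [Fin.sum_univ_succ]
    unfold zz
    simp only [Fin.cons_zero, Fin.cons_succ, Pi.zero_apply, mul_zero, add_zero, map_zero, zero_add]
    have h1 : ∑ i, (V i i0 + s * bb V i0 η i) * (starRingEnd ℂ) (V i i0) =
        ∑ i, V i i0 * (starRingEnd ℂ) (V i i0) +
          s * ∑ i, bb V i0 η i * (starRingEnd ℂ) (V i i0) := by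
      rw [Finset.mul_sum, ← Finset.sum_add_distrib]
      apply Finset.sum_congr rfl
      intro i _
      ring
    rw [h1, GL16_col V hV, if_pos rfl, GL16_bb0 V hV, mul_zero, add_zero]
  have key : ∀ k : ℕ, S4_B (Ph F V i0 η k) (fun j => eval (zz V i0) (F j)) = 0 := by
    intro k
    have h1 := S3 F hQ (zz V i0) (Fin.cons 1 (bb V i0 η)) (zz V i0) 0 hyp k 0
    have h2 : ∀ j, (lin (zz V i0) 0 (F j)).coeff 0 = eval (zz V i0) (F j) := by
      intro j
      rw [Polynomial.coeff_zero_eq_eval_zero, lin_eval]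
      congr 1
      simp
    simp only [h2] at h1
    exact h1
  induction hY using Submodule.span_induction with
  | mem x hx =>
    obtain ⟨k, rfl⟩ := hx
    exact key (k + 1)
  | zero => exact GL16_B_zero _
  | add x y _ _ hx hy => rw [GL16_B_add, hx, hy, add_zero]
  | smul a x _ hx => rw [GL16_B_smul, hx, mul_zero]

/-- PROOF. The points `zz + t (1, bb η)` satisfy `Zp` (`GL16_col`), so the values of `F` there are in `SS`; the coefficients are combinations of the values: `V17` with `G j = lin .. (F j)` and `lin_eval`. -/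
theorem GL16_SS {m N : ℕ} (F : Option (Fin N) → MvPolynomial (Fin (m + 1)) ℂ)
    (V : Matrix (Fin m) (Fin m) ℂ) (hV : V ∈ Matrix.unitaryGroup (Fin m) ℂ) (i0 : Fin m)
    (η : Fin m → ℂ) (Y : Option (Fin N) → ℂ)
    (hY : Y ∈ Submodule.span ℂ (Set.range (fun l : ℕ => Ph F V i0 η (l + 1)))) :
    Y ∈ SS F V i0 := by
  have key : ∀ k : ℕ, Ph F V i0 η k ∈ SS F V i0 := by
    intro k
    have h1 := V17 (fun j => lin (zz V i0) (Fin.cons 1 (bb V i0 η)) (F j)) k
    refine Submodule.span_le.2 ?_ h1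
    rintro _ ⟨t, rfl⟩
    refine Submodule.subset_span ⟨fun i => zz V i0 i + t * (Fin.cons 1 (bb V i0 η) : Fin (m + 1) → ℂ) i,
      ?_, ?_⟩
    · unfold Zp zz
      simp only [Fin.cons_succ]
      have h2 : ∑ i, V i i0 * (starRingEnd ℂ) (V i i0 + t * bb V i0 η i) =
          ∑ i, V i i0 * (starRingEnd ℂ) (V i i0) +
            (starRingEnd ℂ) t * ∑ i, V i i0 * (starRingEnd ℂ) (bb V i0 η i) := by
        rw [Finset.mul_sum, ← Finset.sum_add_distrib]
        apply Finset.sum_congr rfl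
        intro i _
        rw [map_add, map_mul]
        ring
      rw [h2, GL16_col V hV, if_pos rfl, GL16_bb0' V hV, mul_zero, add_zero]
    · funext j
      exact lin_eval _ _ _ _
  refine Submodule.span_le.2 ?_ hY
  rintro _ ⟨l, rfl⟩
  exact key (l + 1)

end Pool.Agent.DAng
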