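import Pool.Agent.Lib.MP_e3689b_an.Mg.G002

set_option autoImplicit false

namespace Pool.Agent.DAng

open MvPolynomial

/-- NONVANISHING AT A POINT. PROOF. Some coefficient of `P` is a nonzero polynomial in `y`: it is nonzero at some `η` (`MvPolynomial.funext`), so `P₁ = map (eval η) P ≠ 0` in `MvPolynomial (Sg m) ℂ`.
Multiply by the nonzero polynomials `X x1` and `∑ C (a i) * X (xi i)` (nonzero as `a ≠ 0`): the product is nonzero at some point `X` (`MvPolynomial.funext`). Since `e0 P = P`, `P₁` does not change if we put `X x0 = 0`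
(`eval (X with X x0 := 0) P₁ = eval X (e0 P₁)` and `e0 P₁ = map (eval η) (e0 P) = P₁`). -/
theorem GL18_pt {m : ℕ} (a : Fin m → ℂ) (ha : a ≠ 0)
    (P : MvPolynomial (Sg m) (MvPolynomial (Fin m) ℂ)) (hP : P ≠ 0) (he : e0 P = P) :
    ∃ (η : Fin m → ℂ) (Y : Sg m → ℂ), Y x0 = 0 ∧ Y x1 ≠ 0 ∧ ∑ i, a i * Y (xi i) ≠ 0 ∧
      eval₂ (eval η) Y P ≠ 0 := by
  classical
  -- a coefficient which does not vanish at a point
  obtain ⟨M, hM⟩ := MvPolynomial.ne_zero_iff.1 hP
  obtain ⟨η, hη⟩ : ∃ η : Fin m → ℂ, eval η (coeff M P) ≠ 0 := by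
    by_contra h
    push Not at h
    exact hM (MvPolynomial.funext fun η => by rw [h η, map_zero])
  have hP₁ : map (eval η) P ≠ 0 := by
    refine MvPolynomial.ne_zero_iff.2 ⟨M, ?_⟩
    rw [coeff_map]
    exact hη
  have hinj : ∀ i j : Fin m, (xi i : Sg m) = xi j → i = j := by
    intro i j h
    exact Sum.inl_injective (toLex.injective h)
  have hL : (∑ i, C (a i) * X (xi i) : MvPolynomial (Sg m) ℂ) ≠ 0 := by
    obtain ⟨i₀, hi₀⟩ := Function.ne_iff.1 ha
    intro h
    have h1 := congrArg (eval fun v : Sg m => if v = xi i₀ then (1 : ℂ) else 0) h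
    rw [map_sum, map_zero, Finset.sum_eq_single i₀] at h1
    · rw [map_mul, eval_C, eval_X, if_pos rfl, mul_one] at h1
      exact hi₀ h1
    · intro j _ hj
      rw [map_mul, eval_C, eval_X, if_neg (fun h2 => hj (hinj _ _ h2)), mul_zero]
    · intro h2
      exact absurd (Finset.mem_univ _) h2
  have hX : (X x1 : MvPolynomial (Sg m) ℂ) ≠ 0 := X_ne_zero _
  obtain ⟨Y₀, hY₀⟩ : ∃ Y₀ : Sg m → ℂ, eval Y₀ (map (eval η) P * (X x1 *
      ∑ i, C (a i) * X (xi i))) ≠ 0 := by
    by_contra h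
    push Not at h
    exact mul_ne_zero hP₁ (mul_ne_zero hX hL) (MvPolynomial.funext fun Y => by rw [h Y, map_zero])
  rw [map_mul, map_mul, eval_X, map_sum] at hY₀
  simp only [map_mul, eval_C, eval_X] at hY₀
  have h1 : eval Y₀ (map (eval η) P) ≠ 0 := left_ne_zero_of_mul hY₀
  have h2 : Y₀ x1 ≠ 0 := left_ne_zero_of_mul (right_ne_zero_of_mul hY₀)
  have h3 : ∑ i, a i * Y₀ (xi i) ≠ 0 := right_ne_zero_of_mul (right_ne_zero_of_mul hY₀)
  refine ⟨η, Function.update Y₀ x0 0, Function.update_self _ _ _, ?_, ?_, ?_⟩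
  · rw [Function.update_of_ne V01_ne10]
    exact h2
  · have e : ∀ i : Fin m, Function.update Y₀ x0 0 (xi i) = Y₀ (xi i) := fun i =>
      Function.update_of_ne (V01_nei0 i) _ _
    simp only [e]
    exact h3
  · have h : ((eval₂Hom (eval η) Y₀).comp
        (e0 (m := m) (B := MvPolynomial (Fin m) ℂ) :
          MvPolynomial (Sg m) (MvPolynomial (Fin m) ℂ) →+*
            MvPolynomial (Sg m) (MvPolynomial (Fin m) ℂ))) =
        eval₂Hom (eval η) (Function.update Y₀ x0 0) := by
      apply MvPolynomial.ringHom_ext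
      · intro c
        rw [RingHom.comp_apply]
        change eval₂Hom (eval η) Y₀ (e0 (C c)) = _
        rw [V01_e0_C, eval₂Hom_C, eval₂Hom_C]
      · intro v
        rw [RingHom.comp_apply]
        change eval₂Hom (eval η) Y₀ (e0 (X v)) = _
        unfold e0
        rw [aeval_X]
        split_ifs with hv
        · rw [map_zero, eval₂Hom_X', hv, Function.update_self]
        · rw [eval₂Hom_X', eval₂Hom_X', Function.update_of_ne hv]
    have h4 := congrArg (fun f => f P) h
    change eval₂ (eval η) Y₀ (e0 P) = eval₂ (eval η) (Function.update Y₀ x0 0) P at h4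
    rw [← h4, he, ← eval_map]
    exact h1

end Pool.Agent.DAng
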