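import Pool.Agent.Lib.MP_e3689b_an.Mg.G021

set_option autoImplicit false

/-!
# Definitions for the exponential range (Theorem T), local part

`t = n - 1` is the dimension of the tangent space at a point of the sphere, `M` the dimension of the
target Hilbert space. Elements of `PV t M` are polynomial maps `ℂ^t → ℂ^M`.
-/

namespace Pool.Agent.DAng

open MvPolynomial

/-- polynomial maps `ℂ^t → ℂ^M` -/
abbrev PV (t M : ℕ) := Fin M → MvPolynomial (Fin t) ℂ

/-- polynomials in `y_j = X (inl j)` and `w_j = X (inr j)` -/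
abbrev BR (t : ℕ) := MvPolynomial (Fin t ⊕ Fin t) ℂ

/-- `G(y)` -/
noncomputable def iy {t : ℕ} : MvPolynomial (Fin t) ℂ →ₐ[ℂ] BR t := rename Sum.inl

/-- the polynomial with conjugated coefficients, in the variables `w` -/
noncomputable def iw {t : ℕ} (G : MvPolynomial (Fin t) ℂ) : BR t := rename Sum.inr (cj G)

/-- `s = ∑ y_j w_j` -/
noncomputable def ss (t : ℕ) : BR t := ∑ j : Fin t, X (Sum.inl j) * X (Sum.inr j)

/-- the pairing `⟨v(y), v'(w)⟩` -/
noncomputable def prg {t M : ℕ} (v v' : PV t M) : BR t := ∑ k, iy (v k) * iw (v' k)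

/-- the directional derivative -/
noncomputable def dv {t M : ℕ} (c : Fin t → ℂ) (v : PV t M) : PV t M :=
  fun k => ∑ a, C (c a) * pderiv a (v k)

end Pool.Agent.DAng
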