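import Pool.Agent.Lib.MP_e3689b_an.Mg.G016

set_option autoImplicit false

/-!
# Definitions for the superpolynomial range (Theorem S)
-/

namespace Pool.Agent.DAng

open MvPolynomial

/-- the fraction field of the ring `CA m` of the polynomials in the parameters of the lines -/
abbrev KA (m : ℕ) := FractionRing (CA m)

/-- extension of the coefficients from `CA m` to its fraction field -/
noncomputable def io {m : ℕ} {σ : Type} : MvPolynomial σ (CA m) →+* MvPolynomial σ (KA m) :=
  map (algebraMap (CA m) (KA m))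

/-- the substitution `X_0 ↦ 0` -/
noncomputable def e0 {m : ℕ} {B : Type} [CommRing B] :
    MvPolynomial (Sg m) B →ₐ[B] MvPolynomial (Sg m) B :=
  aeval (fun v => if v = x0 then 0 else X v)

/-- the substitution `X_0, X_1 ↦ 0` -/
noncomputable def kap {m : ℕ} {B : Type} [CommRing B] :
    MvPolynomial (Sg m) B →ₐ[B] MvPolynomial (Fin m) B :=
  aeval (fun v => Sum.elim (fun i : Fin m => X i) (fun _ => 0) (ofLex v))

/-- the set of leading exponents of the nonzero elements of `W` -/
def lead {σ B : Type} [CommRing B] (mo : MonomialOrder.{0, 0} σ)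
    (W : Submodule B (MvPolynomial σ B)) : Set (σ →₀ ℕ) :=
  {M | ∃ P ∈ W, P ≠ 0 ∧ mo.degree P = M}

section
variable {m : ℕ} {K : Type} [Field K]

/-- `U_k = {f | X_0^k f ∈ U}` -/
noncomputable def Uk (U : Submodule K (MvPolynomial (Sg m) K)) (k : ℕ) :
    Submodule K (MvPolynomial (Sg m) K) :=
  U.comap (LinearMap.mulLeft K (X x0 ^ k))

/-- `R_k = {g | X_1^k g ∈ e0(U)}` -/
noncomputable def Rk (U : Submodule K (MvPolynomial (Sg m) K)) (k : ℕ) :
    Submodule K (MvPolynomial (Sg m) K) :=
  (U.map e0.toLinearMap).comap (LinearMap.mulLeft K (X x1 ^ k))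

/-- `H_k = kap(R_k)` -/
noncomputable def Hb (U : Submodule K (MvPolynomial (Sg m) K)) (k : ℕ) :
    Submodule K (MvPolynomial (Fin m) K) :=
  (Rk U k).map kap.toLinearMap

/-- the span of the products of a monomial of degree `j` with an element of `H_{o+j-1}`, all `j` -/
noncomputable def GG (U : Submodule K (MvPolynomial (Sg m) K)) (o : ℕ) :
    Submodule K (MvPolynomial (Fin m) K) :=
  Submodule.span K {P | ∃ (j : ℕ) (α : Fin m →₀ ℕ) (h : MvPolynomial (Fin m) K),
    h ∈ Hb U (o + j - 1) ∧ α.degree = j ∧ P = monomial α 1 * h}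
end

/-- the span of the `u_k` over the fraction field -/
noncomputable def UU {m : ℕ} (d : ℕ) (u : ℕ → CR m) :
    Submodule (KA m) (MvPolynomial (Sg m) (KA m)) :=
  Submodule.span (KA m) (Set.range (fun k : Fin d => io (u k)))

/-- the span of the `gam F_j` over `CA m` -/
noncomputable def FA {m N : ℕ} (d : ℕ) (F : Option (Fin N) → MvPolynomial (Fin (m + 1)) ℂ) :
    Submodule (CA m) (CR m) :=
  Submodule.span (CA m) (Set.range (fun j => gam m d (F j)))

/-- the span of the `kap (gam F_j)` over the fraction field -/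
noncomputable def FF {m N : ℕ} (d : ℕ) (F : Option (Fin N) → MvPolynomial (Fin (m + 1)) ℂ) :
    Submodule (KA m) (MvPolynomial (Fin m) (KA m)) :=
  Submodule.span (KA m) (Set.range (fun j => kap (io (gam m d (F j)))))

open Classical in
/-- all products of a monomial of `Y` with two different variables different from `i0` -/
noncomputable def PP {m : ℕ} (i0 : Fin m) (Y : Finset (Fin m →₀ ℕ)) : Finset (Fin m →₀ ℕ) :=
  Y.biUnion (fun M => ((Finset.univ : Finset (Fin m × Fin m)).filter
    (fun p => p.1 ≠ p.2 ∧ p.1 ≠ i0 ∧ p.2 ≠ i0)).image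
      (fun p => M + Finsupp.single p.1 1 + Finsupp.single p.2 1))

/-- points of the star: at most one coordinate different from the coordinate `i0` is not zero -/
def IsStar {m : ℕ} (i0 : Fin m) (x : Fin m → ℂ) : Prop :=
  ∀ i j, i ≠ j → i ≠ i0 → j ≠ i0 → x i * x j = 0

/-- the linear substitution `G(z) ↦ G(W z)` -/
noncomputable def sub {n : ℕ} (W : Matrix (Fin n) (Fin n) ℂ) :
    MvPolynomial (Fin n) ℂ →ₐ[ℂ] MvPolynomial (Fin n) ℂ :=
  aeval (fun i => ∑ k, C (W i k) * X k)

/-- the hypotheses on the family `F` (denominator `F none`, numerators `F (some j)`) -/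
structure Good {n N : ℕ} (d : ℕ) (F : Option (Fin N) → MvPolynomial (Fin n) ℂ) : Prop where
  quad : Quad F
  deg : ∀ j, (F j).totalDegree ≤ d
  top : ∃ j, F j ≠ 0 ∧ (F j).totalDegree = d
  red : ∀ r : MvPolynomial (Fin n) ℂ, (∀ j, r ∣ F j) → IsUnit r
  ball : ∀ z : Fin n → ℂ, ∑ i, ‖z i‖ ^ 2 ≤ 1 → eval z (F none) ≠ 0

/-- the chart variable of the base point of the tangent line -/
def i00 {m : ℕ} (hm : 0 < m) : Fin m := ⟨0, hm⟩

/-- the base point of the tangent line in the chart -/
noncomputable def a00 {m : ℕ} (hm : 0 < m) : Fin m → ℂ := Pi.single (i00 hm) 1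

/-- the minor with rows `f` and columns `g` of the coefficients of `F` on the line `x + t y` -/
noncomputable def mnr {n N ρ : ℕ} (F : Option (Fin N) → MvPolynomial (Fin n) ℂ)
    (f : Fin ρ → Option (Fin N)) (g : Fin ρ → ℕ) (x y : Fin n → ℂ) : ℂ :=
  (Matrix.of (fun α β : Fin ρ => (lin x y (F (f α))).coeff (g β))).det

/-- the coordinate vector -/
noncomputable def ev {n : ℕ} (i : Fin n) : Fin n → ℂ := Pi.single i 1

end Pool.Agent.DAng
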