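import Pool.Agent.Lib.MP_e3689b_an.Mg.G025
import Pool.Agent.Lib.MP_e3689b_an.Mg.G023
import Pool.Agent.Lib.MP_e3689b_an.Mg.G022

set_option autoImplicit false

/-!
# Negative squares: the quotient restricted to a good line has rank `d`
-/

namespace Pool.Agent.DAng

open MvPolynomial

theorem nsR_eval {m : ℕ} (a b : Fin m → ℂ) (t : ℂ) (f : MvPolynomial (Fin (m + 1)) ℂ) :
    (nsR a b f).eval t = eval (pt a b t) f := by
  have h1 : (Polynomial.evalRingHom t).comp (nsR a b : MvPolynomial (Fin (m + 1)) ℂ →+* _) =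
      eval (pt a b t) := by
    apply MvPolynomial.ringHom_ext
    · intro c
      rw [eval_C, RingHom.comp_apply]
      unfold nsR
      rw [RingHom.coe_coe, aeval_C, Polynomial.coe_evalRingHom]
      exact Polynomial.eval_C
    · intro i
      rw [eval_X, RingHom.comp_apply]
      unfold nsR pt
      rw [RingHom.coe_coe, aeval_X, Polynomial.coe_evalRingHom]
      refine Fin.cases ?_ (fun i => ?_) i
      · rw [Fin.cons_zero, Fin.cons_zero, Polynomial.eval_X]
      · rw [Fin.cons_succ, Fin.cons_succ, Polynomial.eval_add, Polynomial.eval_C,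
          Polynomial.eval_mul, Polynomial.eval_C, Polynomial.eval_X, mul_comm t]
  exact congrArg (fun f' : MvPolynomial (Fin (m + 1)) ℂ →+* ℂ => f' f) h1

/-- The quotient `u(·, w)` restricted to a suitable line spans a space of dimension at least `d`. -/
theorem NS3 {m N d : ℕ} (F : Option (Fin N) → MvPolynomial (Fin (m + 1)) ℂ)
    (hF : ∀ j, (F j).totalDegree ≤ d)
    (hred : ∀ r : MvPolynomial (Fin (m + 1)) ℂ, (∀ j, r ∣ F j) → IsUnit r)
    (hd : ∃ j, F j ≠ 0 ∧ (F j).totalDegree = d)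
    (hq : ∀ z : Fin (m + 1) → ℂ, ∑ i, ‖z i‖ ^ 2 ≤ 1 → eval z (F none) ≠ 0)
    (u : (Fin (m + 1) → ℂ) → MvPolynomial (Fin (m + 1)) ℂ)
    (hu : ∀ z w : Fin (m + 1) → ℂ, eval z (F none) * (starRingEnd ℂ) (eval w (F none)) -
      ∑ j, eval z (F (some j)) * (starRingEnd ℂ) (eval w (F (some j))) =
        (1 - ∑ i, z i * (starRingEnd ℂ) (w i)) * eval z (u w))
    (E : Submodule ℂ (MvPolynomial (Fin (m + 1)) ℂ)) [FiniteDimensional ℂ E]
    (hE : ∀ w, u w ∈ E) :
    ∃ a b : Fin m → ℂ, d ≤ Module.finrank ℂ (E.map (nsR a b).toLinearMap) := by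
  obtain ⟨a, b, ha, hz, hd'⟩ := B4 F hred hd
  refine ⟨a, b, ?_⟩
  obtain ⟨κ, ρ, t0, hκ, hρ, hL2⟩ := L2 a b ha
  have hρ0 : (ρ : ℂ) ≠ 0 := by exact_mod_cast hρ.ne'
  obtain ⟨hlin1, hlin2⟩ := L3_lin t0 ρ hρ
  let gp : Option (Fin N) → Polynomial ℂ := fun j =>
    ((phi m (F j)).map (evA a b)).comp (Polynomial.C t0 + Polynomial.C (ρ : ℂ) * Polynomial.X)
  have gp_eval : ∀ j τ, (gp j).eval τ = eval (pt a b (t0 + ρ * τ)) (F j) := by
    intro j τ
    simp only [gp, Polynomial.eval_comp, Polynomial.eval_add, Polynomial.eval_C,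
      Polynomial.eval_mul, Polynomial.eval_X, phi_eval]
  have hmapdeg : ∀ j, ((phi m (F j)).map (evA a b)).natDegree ≤ d := fun j =>
    Polynomial.natDegree_map_le.trans ((phi_natDegree (F j)).trans (hF j))
  have gp_deg : ∀ j, (gp j).natDegree ≤ d := by
    intro j
    simp only [gp, Polynomial.natDegree_comp, hlin1, mul_one]
    exact hmapdeg j
  have gp_coeff : ∃ j, (gp j).coeff d ≠ 0 := by
    obtain ⟨j, hj⟩ := hd'
    refine ⟨j, ?_⟩
    have h1 : ((phi m (F j)).map (evA a b)).coeff d ≠ 0 := by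
      rw [Polynomial.coeff_map]
      exact hj
    have h2 : ((phi m (F j)).map (evA a b)).natDegree = d :=
      le_antisymm (hmapdeg j) (Polynomial.le_natDegree_of_ne_zero h1)
    have h3 := Polynomial.coeff_comp_degree_mul_degree (p := (phi m (F j)).map (evA a b))
      (q := Polynomial.C t0 + Polynomial.C (ρ : ℂ) * Polynomial.X) (by rw [hlin1]; exact one_ne_zero)
    rw [hlin1, hlin2, h2, mul_one] at h3
    simp only [gp]
    rw [h3]
    refine mul_ne_zero ?_ (pow_ne_zero _ hρ0)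
    rw [Polynomial.leadingCoeff, h2]
    exact h1
  have hreal : ∀ τ : ℂ, 1 - ∑ i, ‖pt a b (t0 + ρ * τ) i‖ ^ 2 = κ * ρ ^ 2 * (1 - ‖τ‖ ^ 2) := by
    intro τ
    have h1 := hL2 (t0 + ρ * τ) (t0 + ρ * τ)
    have h2 : ∀ z : ℂ, z * (starRingEnd ℂ) z = ((‖z‖ ^ 2 : ℝ) : ℂ) := by
      intro z
      rw [Complex.mul_conj, Complex.normSq_eq_norm_sq]
    simp only [h2] at h1
    rw [add_sub_cancel_left, norm_mul, Complex.norm_real, Real.norm_of_nonneg hρ.le] at h1
    have h3 : (1 - ∑ i, ‖pt a b (t0 + ρ * τ) i‖ ^ 2) = κ * (ρ ^ 2 - (ρ * ‖τ‖) ^ 2) := by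
      exact_mod_cast h1
    rw [h3]
    ring
  have hkey : ∀ t s : ℂ, (gp none).eval t * (starRingEnd ℂ) ((gp none).eval s) -
      ∑ j, (gp (some j)).eval t * (starRingEnd ℂ) ((gp (some j)).eval s) =
      (1 - t * (starRingEnd ℂ) s) * (κ * ρ ^ 2 *
        eval (pt a b (t0 + ρ * t)) (u (pt a b (t0 + ρ * s)))) := by
    intro t s
    have h1 := hu (pt a b (t0 + ρ * t)) (pt a b (t0 + ρ * s))
    rw [hL2] at h1
    simp only [gp_eval]
    rw [h1, add_sub_cancel_left, add_sub_cancel_left, map_mul, Complex.conj_ofReal]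
    ring
  let w : Fin d → ℂ := fun i => ((1 / ((i : ℝ) + 2) : ℝ) : ℂ)
  have hwpos : ∀ i : Fin d, 0 < 1 / ((i : ℝ) + 2) := fun i => by positivity
  have hw1 : ∀ i, ‖w i‖ < 1 := by
    intro i
    simp only [w]
    rw [Complex.norm_real, Real.norm_of_nonneg (hwpos i).le, div_lt_one (by positivity)]
    have : (0 : ℝ) ≤ (i : ℕ) := Nat.cast_nonneg _
    linarith
  have hw0 : ∀ i, w i ≠ 0 := by
    intro i
    simp only [w]
    exact_mod_cast (hwpos i).ne'
  have hinj : Function.Injective w := by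
    intro i j hij
    simp only [w] at hij
    have h1 : 1 / ((i : ℝ) + 2) = 1 / ((j : ℝ) + 2) := by exact_mod_cast hij
    rw [one_div, one_div, inv_inj] at h1
    have h2 : ((i : ℕ) : ℝ) = ((j : ℕ) : ℝ) := by linarith
    exact Fin.ext (by exact_mod_cast h2)
  let r : Fin d → E.map (nsR a b).toLinearMap := fun l =>
    ⟨nsR a b (u (pt a b (t0 + ρ * w l))), ⟨_, hE _, rfl⟩⟩
  have hli : LinearIndependent ℂ r := by
    rw [Fintype.linearIndependent_iff]
    intro y hy
    have hy' : ∀ i, ∑ l, y l *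
        eval (pt a b (t0 + ρ * w i)) (u (pt a b (t0 + ρ * w l))) = 0 := by
      intro i
      have h1 := congrArg (fun f : E.map (nsR a b).toLinearMap =>
        (f : Polynomial ℂ).eval (t0 + ρ * w i)) hy
      simpa [r, Submodule.coe_sum, Polynomial.eval_finsetSum, nsR_eval] using h1
    have hc := P8 (gp none) (fun j => gp (some j)) (d := d)
      (by
        intro τ hτ
        rw [gp_eval]
        apply hq
        have h1 := hreal τ
        have h2 : 0 ≤ κ * ρ ^ 2 * (1 - ‖τ‖ ^ 2) := by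
          have h3 : ‖τ‖ ^ 2 ≤ 1 := by nlinarith [norm_nonneg τ]
          have h4 : 0 ≤ 1 - ‖τ‖ ^ 2 := by linarith
          positivity
        linarith)
      (by
        intro τ hτ
        have h1 := hkey τ τ
        have h2 : ∀ z : ℂ, z * (starRingEnd ℂ) z = ((‖z‖ ^ 2 : ℝ) : ℂ) := by
          intro z
          rw [Complex.mul_conj, Complex.normSq_eq_norm_sq]
        simp only [h2, hτ] at h1
        rw [one_pow, Complex.ofReal_one, sub_self, zero_mul, sub_eq_zero] at h1
        have h3 : ‖(gp none).eval τ‖ ^ 2 = ∑ j, ‖(gp (some j)).eval τ‖ ^ 2 := by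
          exact_mod_cast h1
        exact h3.symm)
      (gp_deg none) (fun j => gp_deg (some j))
      (by
        obtain ⟨j, hj⟩ := gp_coeff
        cases j with
        | none => exact Or.inl hj
        | some j => exact Or.inr ⟨j, hj⟩)
      (by
        intro τ
        obtain ⟨j, hj⟩ := hz (t0 + ρ * τ)
        rw [← gp_eval] at hj
        cases j with
        | none => exact Or.inl hj
        | some j => exact Or.inr ⟨j, hj⟩)
      w hw1 hw0 hinj
      (fun t s => κ * ρ ^ 2 * eval (pt a b (t0 + ρ * t)) (u (pt a b (t0 + ρ * s))))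
      hkey (fun i => (starRingEnd ℂ) (y i))
      (by
        apply Finset.sum_eq_zero
        intro i _
        have h1 : ∀ k : Fin d, (starRingEnd ℂ) (y i) * (starRingEnd ℂ) ((starRingEnd ℂ) (y k)) *
            (κ * ρ ^ 2 * eval (pt a b (t0 + ρ * w i)) (u (pt a b (t0 + ρ * w k)))) =
            (starRingEnd ℂ) (y i) * (κ * ρ ^ 2) * (y k *
              eval (pt a b (t0 + ρ * w i)) (u (pt a b (t0 + ρ * w k)))) := by
          intro k
          rw [Complex.conj_conj]
          ring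
        simp only [h1]
        rw [← Finset.mul_sum, hy', mul_zero])
    intro i
    have h1 := congrFun hc i
    simp only [Pi.zero_apply] at h1
    exact (map_eq_zero _).mp h1
  have h1 := hli.fintype_card_le_finrank
  rw [Fintype.card_fin] at h1
  exact h1

end Pool.Agent.DAng
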