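import Pool.Agent.Lib.MP_e3689b_an.NS3
import Pool.Agent.Lib.MP_e3689b_an.Mg.G025

set_option autoImplicit false

/-!
# Negative squares: the degree bound
-/

namespace Pool.Agent.DAng

open MvPolynomial

/-- The bound for linearly independent `g`, `h`.
PROOF. `|q|² + ∑ |z_i g_j|² + ∑ |h_j|² = ∑ |p_j|² + ∑ |g_j|² + ∑ |z_i h_j|²`, so the span `T` of the `p_j`, `g_j`,
`z_i h_j` contains all the `g_j`, `h_j`, `z_i g_j`, `z_i h_j` (`NS1_mem`). Its dimension is at most `N + |ι| + (m + 1) |κ|`,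
and at least `|ι| + |κ| + m d + 1` by the growth lemma `NS2_growth` and the rank `d` of the quotient on a line (`NS3`). -/
theorem NS5_indep {m N d : ℕ} {ι κ : Type} [Fintype ι] [Fintype κ] (hm : 0 < m) (hd0 : 0 < d)
    (p : Fin N → MvPolynomial (Fin (m + 1)) ℂ) (q : MvPolynomial (Fin (m + 1)) ℂ)
    (hred : ∀ r : MvPolynomial (Fin (m + 1)) ℂ, r ∣ q → (∀ j, r ∣ p j) → IsUnit r)
    (hq : ∀ z : Fin (m + 1) → ℂ, ∑ i, ‖z i‖ ^ 2 ≤ 1 → eval z q ≠ 0)
    (g : ι → MvPolynomial (Fin (m + 1)) ℂ) (h : κ → MvPolynomial (Fin (m + 1)) ℂ)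
    (hli : LinearIndependent ℂ (Sum.elim g h))
    (hid : ∀ z w : Fin (m + 1) → ℂ, eval z q * (starRingEnd ℂ) (eval w q) -
      ∑ j, eval z (p j) * (starRingEnd ℂ) (eval w (p j)) =
        (1 - ∑ i, z i * (starRingEnd ℂ) (w i)) *
          (∑ j, eval z (g j) * (starRingEnd ℂ) (eval w (g j)) -
            ∑ j, eval z (h j) * (starRingEnd ℂ) (eval w (h j))))
    (hd : max (Finset.univ.sup (fun j => (p j).totalDegree)) q.totalDegree = d) :
    m * d + 1 ≤ N + m * Fintype.card κ := by
  classical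
  set E : Submodule ℂ (MvPolynomial (Fin (m + 1)) ℂ) :=
    Submodule.span ℂ (Set.range (Sum.elim g h)) with hE
  set φ : Unit ⊕ ((Fin (m + 1) × ι) ⊕ κ) → MvPolynomial (Fin (m + 1)) ℂ :=
    Sum.elim (fun _ => q) (Sum.elim (fun x => X x.1 * g x.2) h) with hφ
  set ψ : Fin N ⊕ (ι ⊕ (Fin (m + 1) × κ)) → MvPolynomial (Fin (m + 1)) ℂ :=
    Sum.elim p (Sum.elim g (fun x => X x.1 * h x.2)) with hψ
  set T : Submodule ℂ (MvPolynomial (Fin (m + 1)) ℂ) := Submodule.span ℂ (Set.range ψ) with hT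
  have hfE : FiniteDimensional ℂ E := FiniteDimensional.span_of_finite ℂ (Set.finite_range _)
  have hfT : FiniteDimensional ℂ T := FiniteDimensional.span_of_finite ℂ (Set.finite_range _)
  have hkern : ∀ z w : Fin (m + 1) → ℂ,
      ∑ a, eval z (φ a) * (starRingEnd ℂ) (eval w (φ a)) =
      ∑ b, eval z (ψ b) * (starRingEnd ℂ) (eval w (ψ b)) := by
    intro z w
    have hprod : ∀ {α : Type} [Fintype α] (f : α → MvPolynomial (Fin (m + 1)) ℂ),
        ∑ x : Fin (m + 1) × α, eval z (X x.1 * f x.2) *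
          (starRingEnd ℂ) (eval w (X x.1 * f x.2)) =
        (∑ i, z i * (starRingEnd ℂ) (w i)) *
          ∑ j, eval z (f j) * (starRingEnd ℂ) (eval w (f j)) := by
      intro α _ f
      rw [Fintype.sum_prod_type, Finset.sum_mul_sum]
      refine Finset.sum_congr rfl fun i _ => Finset.sum_congr rfl fun j _ => ?_
      rw [map_mul, map_mul, map_mul, eval_X, eval_X]
      ring
    rw [Fintype.sum_sum_type, Fintype.sum_sum_type, Fintype.sum_sum_type, Fintype.sum_sum_type]
    simp only [hφ, hψ, Sum.elim_inl, Sum.elim_inr, hprod, Finset.univ_unique,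
      Finset.sum_singleton]
    have h1 := hid z w
    linear_combination h1
  have hgT : ∀ j, g j ∈ T := fun j => Submodule.subset_span ⟨Sum.inr (Sum.inl j), rfl⟩
  have hhT : ∀ j, h j ∈ T := fun j => NS1_mem φ ψ hkern (Sum.inr (Sum.inr j))
  have hXg : ∀ i j, X i * g j ∈ T := fun i j => NS1_mem φ ψ hkern (Sum.inr (Sum.inl (i, j)))
  have hXh : ∀ i j, X i * h j ∈ T := fun i j =>
    Submodule.subset_span ⟨Sum.inr (Sum.inr (i, j)), rfl⟩
  have hET : E ≤ T := by
    refine Submodule.span_le.2 ?_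
    rintro _ ⟨x, rfl⟩
    rcases x with x | x
    · exact hgT x
    · exact hhT x
  have hXT : ∀ i, ∀ f ∈ E, X i * f ∈ T := by
    intro i
    have h1 : E ≤ T.comap (LinearMap.mulLeft ℂ (X i : MvPolynomial (Fin (m + 1)) ℂ)) := by
      refine Submodule.span_le.2 ?_
      rintro _ ⟨x, rfl⟩
      rcases x with x | x
      · exact hXg i x
      · exact hXh i x
    exact fun f hf => h1 hf
  -- the line
  have hqz : q ≠ 0 := by
    intro hq0
    apply hq 0 (by simp)
    rw [hq0, map_zero]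
  set F : Option (Fin N) → MvPolynomial (Fin (m + 1)) ℂ := fun j => j.elim q p with hFdef
  have hF : ∀ j, (F j).totalDegree ≤ d := by
    intro j
    rcases j with _ | j
    · exact hd ▸ le_max_right _ _
    · refine le_trans ?_ (hd ▸ le_max_left _ _)
      exact Finset.le_sup (f := fun j => (p j).totalDegree) (Finset.mem_univ j)
  have hmax : ∃ j, F j ≠ 0 ∧ (F j).totalDegree = d := by
    rcases le_total (Finset.univ.sup (fun j => (p j).totalDegree)) q.totalDegree with hle | hle
    · refine ⟨none, hqz, ?_⟩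
      rw [max_eq_right hle] at hd
      exact hd
    · rw [max_eq_left hle] at hd
      have hne : (Finset.univ : Finset (Fin N)).Nonempty := by
        by_contra hc
        rw [Finset.not_nonempty_iff_eq_empty] at hc
        rw [hc, Finset.sup_empty] at hd
        simp at hd
        omega
      obtain ⟨j, _, hj⟩ := Finset.exists_mem_eq_sup Finset.univ hne (fun j => (p j).totalDegree)
      refine ⟨some j, ?_, ?_⟩
      · intro hz
        have hz' : p j = 0 := hz
        rw [hj, hz', totalDegree_zero] at hd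
        omega
      · change (p j).totalDegree = d
        rw [← hj, hd]
  have hredF : ∀ r : MvPolynomial (Fin (m + 1)) ℂ, (∀ j, r ∣ F j) → IsUnit r := by
    intro r hr
    exact hred r (hr none) (fun j => hr (some j))
  obtain ⟨a, b, hab⟩ := NS3 F hF hredF hmax hq
    (fun w => ∑ j, (starRingEnd ℂ) (eval w (g j)) • g j -
      ∑ j, (starRingEnd ℂ) (eval w (h j)) • h j)
    (by
      intro z w
      have h1 := hid z w
      have h2 : eval z (∑ j, (starRingEnd ℂ) (eval w (g j)) • g j -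
          ∑ j, (starRingEnd ℂ) (eval w (h j)) • h j) =
          ∑ j, eval z (g j) * (starRingEnd ℂ) (eval w (g j)) -
            ∑ j, eval z (h j) * (starRingEnd ℂ) (eval w (h j)) := by
        rw [map_sub, map_sum, map_sum]
        simp only [smul_eval]
        congr 1 <;> exact Finset.sum_congr rfl fun j _ => mul_comm _ _
      rw [h2]
      exact h1) E
    (by
      intro w
      refine E.sub_mem (E.sum_mem fun j _ => E.smul_mem _ ?_)
        (E.sum_mem fun j _ => E.smul_mem _ ?_)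
      · exact Submodule.subset_span ⟨Sum.inl j, rfl⟩
      · exact Submodule.subset_span ⟨Sum.inr j, rfl⟩)
  have h1 := NS2_growth a b E T hET hXT hm d hd0 hab
  have h2 : Module.finrank ℂ E = Fintype.card ι + Fintype.card κ := by
    rw [hE, finrank_span_eq_card hli, Fintype.card_sum]
  have h3 := finrank_range_le_card (R := ℂ) ψ
  rw [Set.finrank, Fintype.card_sum, Fintype.card_sum, Fintype.card_prod, Fintype.card_fin,
    Fintype.card_fin] at h3
  rw [hT] at h1
  have h4 : (m + 1) * Fintype.card κ = m * Fintype.card κ + Fintype.card κ := by ring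
  omega

/-- THEOREM. If `|q|² - ∑ |p_j|² = (1 - |z|²) (∑ |g_j|² - ∑ |h_j|²)` with `ν` polynomials `h_j` then
`(n - 1) d + 1 ≤ N + (n - 1) ν`, `n = m + 1`. -/
theorem NS5 {m N π ν d : ℕ} (hm : 0 < m)
    (p : Fin N → MvPolynomial (Fin (m + 1)) ℂ) (q : MvPolynomial (Fin (m + 1)) ℂ)
    (hred : ∀ r : MvPolynomial (Fin (m + 1)) ℂ, r ∣ q → (∀ j, r ∣ p j) → IsUnit r)
    (hq : ∀ z : Fin (m + 1) → ℂ, ∑ i, ‖z i‖ ^ 2 ≤ 1 → eval z q ≠ 0)
    (g : Fin π → MvPolynomial (Fin (m + 1)) ℂ) (h : Fin ν → MvPolynomial (Fin (m + 1)) ℂ)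
    (hid : ∀ z : Fin (m + 1) → ℂ, ‖eval z q‖ ^ 2 - ∑ j, ‖eval z (p j)‖ ^ 2 =
      (1 - ∑ i, ‖z i‖ ^ 2) * (∑ j, ‖eval z (g j)‖ ^ 2 - ∑ j, ‖eval z (h j)‖ ^ 2))
    (hd : max (Finset.univ.sup (fun j => (p j).totalDegree)) q.totalDegree = d) :
    m * d + 1 ≤ N + m * ν := by
  rcases Nat.eq_zero_or_pos d with hd0 | hd0
  · -- `N ≥ 1`
    have hN : 0 < N := by
      by_contra hN
      obtain rfl : N = 0 := by omega
      have hz : ∑ i, ‖(Pi.single 0 1 : Fin (m + 1) → ℂ) i‖ ^ 2 = 1 := by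
        rw [Finset.sum_eq_single 0]
        · rw [Pi.single_eq_same, norm_one, one_pow]
        · intro i _ hi
          rw [Pi.single_eq_of_ne hi, norm_zero, zero_pow two_ne_zero]
        · intro hc
          exact absurd (Finset.mem_univ _) hc
      have h1 := hid (Pi.single 0 1)
      rw [hz, sub_self, zero_mul, Finset.univ_eq_empty, Finset.sum_empty, sub_zero] at h1
      exact hq _ hz.le (norm_eq_zero.1 (pow_eq_zero_iff two_ne_zero |>.1 h1))
    rw [hd0, Nat.mul_zero]
    omega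
  · have hpol := NS1_polar p q g h hid
    obtain ⟨ι', κ', _, _, g', h', hli, hcard, hker⟩ := NS4 g h
    have h1 := NS5_indep hm hd0 p q hred hq g' h' hli
      (fun z w => by rw [hpol z w, hker z w]) hd
    rw [Fintype.card_fin] at hcard
    have h2 : m * Fintype.card κ' ≤ m * ν := Nat.mul_le_mul_left m hcard
    omega

end Pool.Agent.DAng
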