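import Pool.Agent.Lib.MP_e3689b_an.Mg.G014

set_option autoImplicit false

namespace Pool.Agent.DAng

open MvPolynomial

theorem T2_card (m : ℕ) : (Finset.univ : Finset (Sg m)).card = m + 2 := by
  rw [Finset.card_univ]
  have : Fintype.card (Sg m) = Fintype.card (Fin m ⊕ Fin 2) := rfl
  rw [this, Fintype.card_sum, Fintype.card_fin, Fintype.card_fin]

/-- THEOREM A. PROOF. `T1`. If `d ≠ s`, `S` is nonempty (`d - s ≥ 1`), `K1` with `T = univ`, `|σ| = m + 2`: `|S| + m + 1 ≤ |∂S| ≤ d`, so `d - s + m + 1 ≤ d`,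
`s ≥ m + 1`, `m (m+1) + 1 ≤ N`; but `N ≤ (m+1) m`. So `d = s` and `d * m + 1 ≤ N`. -/
theorem thmA {m N d : ℕ} (p : Fin N → MvPolynomial (Fin (m + 1)) ℂ) (q : MvPolynomial (Fin (m + 1)) ℂ)
    (hred : ∀ r : MvPolynomial (Fin (m + 1)) ℂ, r ∣ q → (∀ j, r ∣ p j) → IsUnit r)
    (hq : ∀ z : Fin (m + 1) → ℂ, ∑ i, ‖z i‖ ^ 2 ≤ 1 → eval z q ≠ 0)
    (hs : ∀ z : Fin (m + 1) → ℂ, ∑ i, ‖z i‖ ^ 2 = 1 → ∑ j, ‖eval z (p j) / eval z q‖ ^ 2 = 1)
    (hd : max (Finset.univ.sup (fun j => (p j).totalDegree)) q.totalDegree = d)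
    (hN : N ≤ (m + 1) * m) : d * m + 1 ≤ N := by
  obtain ⟨s, hsd, hsN, h⟩ := T1 p q hred hq hs hd
  rcases h with h | ⟨S, hS1, hS2⟩
  · rw [h, mul_comm]; exact hsN
  · rcases Nat.eq_or_lt_of_le hsd with h | hlt
    · rw [← h, mul_comm]; exact hsN
    · exfalso
      have hne : S.Nonempty := by
        rw [← Finset.card_pos]; omega
      have hun : (Finset.univ : Finset (Sg m)).Nonempty := by
        rw [← Finset.card_pos, T2_card]; omega
      have h1 := K1 (Finset.univ : Finset (Sg m)) hun S hne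
      rw [T2_card] at h1
      have h2 : (bdT Finset.univ S).card ≤ d := hS2
      have h3 : m + 1 ≤ s := by omega
      have h4 : m * (m + 1) ≤ m * s := Nat.mul_le_mul_left m h3
      have h5 : (m + 1) * m = m * (m + 1) := mul_comm _ _
      omega

/-- THEOREM B (`m ≥ 1`). PROOF. `T1`, `K5` (`|σ| = m + 2 ≥ 3`) and `K7` (`n = m + 1`): with `G = |∂S| - |S| ≤ d - (d - s) = s` (monotonicity) and `d - s ≤ |S|`.
`s ≤ (N - 1)/m`. -/
theorem thmB {m N d : ℕ} (hm : 0 < m) (p : Fin N → MvPolynomial (Fin (m + 1)) ℂ)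
    (q : MvPolynomial (Fin (m + 1)) ℂ)
    (hred : ∀ r : MvPolynomial (Fin (m + 1)) ℂ, r ∣ q → (∀ j, r ∣ p j) → IsUnit r)
    (hq : ∀ z : Fin (m + 1) → ℂ, ∑ i, ‖z i‖ ^ 2 ≤ 1 → eval z q ≠ 0)
    (hs : ∀ z : Fin (m + 1) → ℂ, ∑ i, ‖z i‖ ^ 2 = 1 → ∑ j, ‖eval z (p j) / eval z q‖ ^ 2 = 1)
    (hd : max (Finset.univ.sup (fun j => (p j).totalDegree)) q.totalDegree = d) :
    2 * d ≤ ((N - 1) / m) * ((N - 1) / m + 1) ∧
    ((m + 1) * (d - (N - 1) / m)) ^ m ≤ Nat.factorial m * ((N - 1) / m) ^ (m + 1) := by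
  obtain ⟨s, hsd, hsN, h⟩ := T1 p q hred hq hs hd
  have hsM : s ≤ (N - 1) / m := by
    rw [Nat.le_div_iff_mul_le hm]
    have : s * m = m * s := mul_comm _ _
    omega
  have key : 2 * (d - s) ≤ s * (s - 1) ∧ ((m + 1) * (d - s)) ^ m ≤ Nat.factorial m * s ^ (m + 1) := by
    rcases h with h | ⟨S, hS1, hS2⟩
    · rw [h, Nat.sub_self]
      refine ⟨by simp, ?_⟩
      rw [mul_zero, zero_pow hm.ne']
      exact Nat.zero_le _
    · have hG : (bdT Finset.univ S).card - S.card ≤ s := by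
        have h2 : (bdT Finset.univ S).card ≤ d := hS2
        omega
      have h5 := K5 (Finset.univ : Finset (Sg m)) (by rw [T2_card]; omega) S
      have h7 := K7 (m + 1) (by omega) (Finset.univ : Finset (Sg m)) (by rw [T2_card]) S
      rw [Nat.add_sub_cancel] at h7
      refine ⟨?_, ?_⟩
      · calc 2 * (d - s) ≤ 2 * S.card := Nat.mul_le_mul_left 2 hS1
          _ ≤ _ := h5
          _ ≤ s * (s - 1) := Nat.mul_le_mul hG (Nat.sub_le_sub_right hG 1)
      · calc ((m + 1) * (d - s)) ^ m ≤ ((m + 1) * S.card) ^ m :=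
              Nat.pow_le_pow_left (Nat.mul_le_mul_left _ hS1) m
          _ ≤ _ := h7
          _ ≤ Nat.factorial m * s ^ (m + 1) :=
              Nat.mul_le_mul_left _ (Nat.pow_le_pow_left hG _)
  refine ⟨?_, ?_⟩
  · have h1 : 2 * d ≤ s * (s + 1) := by
      have h2 := key.1
      rcases Nat.eq_zero_or_pos s with h0 | h0
      · subst h0; simp at h2 ⊢; omega
      · obtain ⟨r, rfl⟩ : ∃ r, s = r + 1 := ⟨s - 1, by omega⟩
        have h3 : (r + 1) * (r + 1 - 1) = (r + 1) * r := by rw [Nat.add_sub_cancel]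
        rw [h3] at h2
        have h4 : (r + 1) * (r + 1 + 1) = (r + 1) * r + 2 * (r + 1) := by ring
        rw [h4]; omega
    exact h1.trans (Nat.mul_le_mul hsM (Nat.add_le_add_right hsM 1))
  · calc ((m + 1) * (d - (N - 1) / m)) ^ m ≤ ((m + 1) * (d - s)) ^ m :=
          Nat.pow_le_pow_left (Nat.mul_le_mul_left _ (Nat.sub_le_sub_left hsM d)) m
      _ ≤ Nat.factorial m * s ^ (m + 1) := key.2
      _ ≤ _ := Nat.mul_le_mul_left _ (Nat.pow_le_pow_left hsM _)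

end Pool.Agent.DAng
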