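import Pool.Agent.Lib.MP_e3689b_an.Mg.G010
import Pool.Agent.Lib.MP_e3689b_an.T2
import Pool.Agent.Lib.MP_e3689b_an.G4

set_option autoImplicit false

namespace Pool.Agent.DAng

open MvPolynomial

theorem V27_P {m : ℕ} (i0 : Fin m) (Y : Finset (Fin m →₀ ℕ)) : PP i0 Y = PQ i0 Y := by
  classical
  ext x
  rw [mem_PQ]
  unfold PP
  simp only [Finset.mem_biUnion, Finset.mem_filter, Finset.mem_univ, true_and, Finset.mem_image,
    Prod.exists]
  constructor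
  · rintro ⟨M, hM, i, j, ⟨h1, h2, h3⟩, rfl⟩
    exact ⟨i, j, h1, h2, h3, M, hM, rfl⟩
  · rintro ⟨i, j, h1, h2, h3, M, hM, rfl⟩
    exact ⟨M, hM, i, j, ⟨h1, h2, h3⟩, rfl⟩

/-- THEOREM S. -/
theorem thmS {m N d k : ℕ} (hk : 1 ≤ k) (hmk : 2 * k * (k - 1) + 1 ≤ m) (hN : N ≤ (m + k - 2).choose k)
    (p : Fin N → MvPolynomial (Fin (m + 1)) ℂ) (q : MvPolynomial (Fin (m + 1)) ℂ)
    (hred : ∀ r : MvPolynomial (Fin (m + 1)) ℂ, r ∣ q → (∀ j, r ∣ p j) → IsUnit r)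
    (hq : ∀ z : Fin (m + 1) → ℂ, ∑ i, ‖z i‖ ^ 2 ≤ 1 → eval z q ≠ 0)
    (hs : ∀ z : Fin (m + 1) → ℂ, ∑ i, ‖z i‖ ^ 2 = 1 → ∑ j, ‖eval z (p j) / eval z q‖ ^ 2 = 1)
    (hd : max (Finset.univ.sup (fun j => (p j).totalDegree)) q.totalDegree = d) :
    m * d + 1 ≤ N := by
  rcases Nat.lt_or_ge k 3 with h3 | h3
  · have hle : N ≤ (m + 1) * m := by
      refine hN.trans ?_
      interval_cases k
      · rw [Nat.choose_one_right]
        have h1 : m + 1 - 2 ≤ m := by omega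
        have h2 : m ≤ (m + 1) * m := Nat.le_mul_of_pos_left m (by omega)
        omega
      · rw [Nat.choose_two_right]
        refine (Nat.div_le_self _ _).trans ?_
        obtain ⟨m', rfl⟩ : ∃ m', m = m' + 1 := ⟨m - 1, by omega⟩
        have e1 : m' + 1 + 2 - 2 = m' + 1 := by omega
        rw [e1, Nat.add_sub_cancel]
        nlinarith
    have h := thmA p q hred hq hs hd hle
    rw [mul_comm]
    exact h
  · have hm : 0 < m := by omega
    obtain ⟨s, D, S, Y, i0, _, a2, a3, a4, a5, a6⟩ := ALG hm p q hred hq hs hd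
    rw [V27_P] at a6
    exact G4_comb (Fintype.card_fin m) i0 S Y (fun o ho => (a2 o ho).1) (fun o ho => (a2 o ho).2)
      a4 a5 a6 (fun o _ => a3 o) h3 hmk hN

end Pool.Agent.DAng
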