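import Pool.Agent.Lib.MP_e3689b_an.WD

set_option autoImplicit false

namespace Pool.Agent.DAng

open MvPolynomial

variable {t M : ℕ}

theorem dv_single (a : Fin t) (v : PV t M) : dv (Pi.single a 1) v = fun k => pderiv a (v k) := by
  unfold dv
  funext k
  rw [Finset.sum_eq_single a]
  · simp
  · intro b _ hb
    rw [Pi.single_eq_of_ne hb]
    simp
  · intro h
    exact absurd (Finset.mem_univ a) h

theorem dv_sum (c : Fin t → ℂ) (v : PV t M) :
    dv c v = ∑ a, (C (c a) : MvPolynomial (Fin t) ℂ) • dv (Pi.single a 1) v := by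
  funext k
  rw [Finset.sum_apply]
  unfold dv
  refine Finset.sum_congr rfl fun a _ => ?_
  rw [Pi.smul_apply, smul_eq_mul]
  congr 1
  rw [Finset.sum_eq_single a]
  · simp
  · intro b _ hb
    rw [Pi.single_eq_of_ne hb]
    simp
  · intro h
    exact absurd (Finset.mem_univ a) h

theorem W01_sum {ι : Type} (S : Finset ι) (f : ι → Derivation ℂ (BR t) (BR t)) (P : BR t) :
    (∑ a ∈ S, f a) P = ∑ a ∈ S, f a P := by
  classical
  induction S using Finset.induction_on with
  | empty => simp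
  | insert a S ha ih => rw [Finset.sum_insert ha, Finset.sum_insert ha, Derivation.add_apply, ih]

theorem Dy_apply (c : Fin t → ℂ) (P : BR t) : Dy c P = ∑ a, C (c a) * pderiv (Sum.inl a) P := by
  unfold Dy
  rw [W01_sum]
  refine Finset.sum_congr rfl fun a _ => ?_
  rw [Derivation.smul_apply, smul_eq_C_mul]

theorem Dw_apply (c : Fin t → ℂ) (P : BR t) :
    Dw c P = ∑ a, C ((starRingEnd ℂ) (c a)) * pderiv (Sum.inr a) P := by
  unfold Dw
  rw [W01_sum]
  refine Finset.sum_congr rfl fun a _ => ?_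
  rw [Derivation.smul_apply, smul_eq_C_mul]

theorem W01_iy (a : Fin t) (G : MvPolynomial (Fin t) ℂ) :
    pderiv (Sum.inl a) (iy G) = iy (pderiv a G) := by
  unfold iy
  exact pderiv_rename Sum.inl_injective a G

theorem W01_cj (a : Fin t) (G : MvPolynomial (Fin t) ℂ) :
    pderiv a (cj G) = cj (pderiv a G) := by
  unfold cj
  exact pderiv_map

theorem W01_iw (a : Fin t) (G : MvPolynomial (Fin t) ℂ) :
    pderiv (Sum.inr a) (iw G) = iw (pderiv a G) := by
  unfold iw
  rw [pderiv_rename Sum.inr_injective, W01_cj]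

theorem W01_iw0 (a : Fin t) (G : MvPolynomial (Fin t) ℂ) :
    pderiv (Sum.inl a) (iw G) = 0 := by
  induction G using MvPolynomial.induction_on with
  | C c => rw [iw_C, pderiv_C]
  | add p q hp hq => rw [iw_add, map_add, hp, hq, add_zero]
  | mul_X p i hp => rw [iw_mul, iw_X, pderiv_mul, hp, pderiv_X_of_ne (by simp)]; simp

theorem W01_iy0 (a : Fin t) (G : MvPolynomial (Fin t) ℂ) :
    pderiv (Sum.inr a) (iy G) = 0 := by
  induction G using MvPolynomial.induction_on with
  | C c => rw [iy_C, pderiv_C]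
  | add p q hp hq => rw [map_add, map_add, hp, hq, add_zero]
  | mul_X p i hp => rw [map_mul, iy_X, pderiv_mul, hp, pderiv_X_of_ne (by simp)]; simp

theorem iw_sum {ι : Type} (S : Finset ι) (f : ι → MvPolynomial (Fin t) ℂ) :
    iw (∑ i ∈ S, f i) = ∑ i ∈ S, iw (f i) := by
  classical
  induction S using Finset.induction_on with
  | empty => simp [iw_zero]
  | insert a S ha ih => rw [Finset.sum_insert ha, Finset.sum_insert ha, iw_add, ih]

theorem Dy_iy (c : Fin t → ℂ) (G : MvPolynomial (Fin t) ℂ) :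
    Dy c (iy G) = iy (∑ a, C (c a) * pderiv a G) := by
  rw [Dy_apply, map_sum]
  refine Finset.sum_congr rfl fun a _ => ?_
  rw [W01_iy, map_mul, iy_C]

theorem Dw_iw (c : Fin t → ℂ) (G : MvPolynomial (Fin t) ℂ) :
    Dw c (iw G) = iw (∑ a, C (c a) * pderiv a G) := by
  rw [Dw_apply, iw_sum]
  refine Finset.sum_congr rfl fun a _ => ?_
  rw [W01_iw, iw_mul, iw_C]

theorem Dy_iw (c : Fin t → ℂ) (G : MvPolynomial (Fin t) ℂ) : Dy c (iw G) = 0 := by
  rw [Dy_apply]
  refine Finset.sum_eq_zero fun a _ => ?_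
  rw [W01_iw0, mul_zero]

theorem Dw_iy (c : Fin t → ℂ) (G : MvPolynomial (Fin t) ℂ) : Dw c (iy G) = 0 := by
  rw [Dw_apply]
  refine Finset.sum_eq_zero fun a _ => ?_
  rw [W01_iy0, mul_zero]

theorem Dy_prg (c : Fin t → ℂ) (v v' : PV t M) : Dy c (prg v v') = prg (dv c v) v' := by
  unfold prg
  rw [map_sum]
  refine Finset.sum_congr rfl fun k _ => ?_
  rw [Derivation.leibniz, Dy_iw, Dy_iy, smul_zero, zero_add, smul_eq_mul, mul_comm]
  rfl

theorem Dw_prg (c : Fin t → ℂ) (v v' : PV t M) : Dw c (prg v v') = prg v (dv c v') := by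
  unfold prg
  rw [map_sum]
  refine Finset.sum_congr rfl fun k _ => ?_
  rw [Derivation.leibniz, Dw_iw, Dw_iy, smul_zero, add_zero, smul_eq_mul]
  rfl

theorem W01_pdy (a : Fin t) : pderiv (Sum.inl a) (ss t) = X (Sum.inr a) := by
  unfold ss
  rw [map_sum, Finset.sum_eq_single a]
  · rw [pderiv_mul, pderiv_X_self, pderiv_X_of_ne (by simp)]
    simp
  · intro b _ hb
    rw [pderiv_mul, pderiv_X_of_ne (by simpa using hb), pderiv_X_of_ne (by simp)]
    simp
  · intro h
    exact absurd (Finset.mem_univ a) h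

theorem W01_pdw (a : Fin t) : pderiv (Sum.inr a) (ss t) = X (Sum.inl a) := by
  unfold ss
  rw [map_sum, Finset.sum_eq_single a]
  · rw [pderiv_mul, pderiv_X_self, pderiv_X_of_ne (by simp)]
    simp
  · intro b _ hb
    rw [pderiv_mul, pderiv_X_of_ne (by simp), pderiv_X_of_ne (by simpa using hb)]
    simp
  · intro h
    exact absurd (Finset.mem_univ a) h

theorem Dy_ss (c : Fin t → ℂ) : Dy c (ss t) = lw c := by
  rw [Dy_apply, lw]
  refine Finset.sum_congr rfl fun a _ => ?_
  rw [W01_pdy]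

theorem Dw_ss (c : Fin t → ℂ) : Dw c (ss t) = ly c := by
  rw [Dw_apply, ly]
  refine Finset.sum_congr rfl fun a _ => ?_
  rw [W01_pdw]

theorem Dy_lw (c c' : Fin t → ℂ) : Dy c (lw c') = 0 := by
  rw [Dy_apply]
  refine Finset.sum_eq_zero fun a _ => ?_
  have : pderiv (Sum.inl a) (lw c') = 0 := by
    unfold lw
    rw [map_sum]
    refine Finset.sum_eq_zero fun b _ => ?_
    rw [pderiv_C_mul, pderiv_X_of_ne (by simp), mul_zero]
  rw [this, mul_zero]

theorem Dw_ly (c c' : Fin t → ℂ) : Dw c (ly c') = 0 := by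
  rw [Dw_apply]
  refine Finset.sum_eq_zero fun a _ => ?_
  have : pderiv (Sum.inr a) (ly c') = 0 := by
    unfold ly
    rw [map_sum]
    refine Finset.sum_eq_zero fun b _ => ?_
    rw [pderiv_C_mul, pderiv_X_of_ne (by simp), mul_zero]
  rw [this, mul_zero]

theorem Dy_ly (c c' : Fin t → ℂ) : Dy c (ly c') = C (∑ a, c a * (starRingEnd ℂ) (c' a)) := by
  rw [Dy_apply, map_sum]
  refine Finset.sum_congr rfl fun a _ => ?_
  have : pderiv (Sum.inl a) (ly c') = C ((starRingEnd ℂ) (c' a)) := by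
    unfold ly
    rw [map_sum, Finset.sum_eq_single a]
    · rw [pderiv_C_mul, pderiv_X_self, mul_one]
    · intro b _ hb
      rw [pderiv_C_mul, pderiv_X_of_ne (by simpa using hb), mul_zero]
    · intro h
      exact absurd (Finset.mem_univ a) h
  rw [this, map_mul]

theorem lw_single (a : Fin t) : lw (Pi.single a 1) = X (Sum.inr a) := by
  unfold lw
  rw [Finset.sum_eq_single a]
  · simp
  · intro b _ hb
    rw [Pi.single_eq_of_ne hb]
    simp
  · intro h
    exact absurd (Finset.mem_univ a) h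

theorem ly_single (a : Fin t) : ly (Pi.single a 1) = X (Sum.inl a) := by
  unfold ly
  rw [Finset.sum_eq_single a]
  · simp
  · intro b _ hb
    rw [Pi.single_eq_of_ne hb]
    simp
  · intro h
    exact absurd (Finset.mem_univ a) h

theorem W01_sw_X (v : Fin t ⊕ Fin t) : sw (X v : BR t) = X (Sum.swap v) := by
  simp [sw]

theorem W01_sw_C (c : ℂ) : sw (C c : BR t) = C ((starRingEnd ℂ) c) := by
  simp [sw]

theorem sw_ss : sw (ss t) = ss t := by
  unfold ss
  rw [map_sum]
  refine Finset.sum_congr rfl fun j _ => ?_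
  rw [map_mul, W01_sw_X, W01_sw_X, Sum.swap_inl, Sum.swap_inr, mul_comm]

theorem W01_sw_iy (G : MvPolynomial (Fin t) ℂ) : sw (iy G) = iw G := by
  induction G using MvPolynomial.induction_on with
  | C c => rw [iy_C, iw_C, W01_sw_C]
  | add p q hp hq => rw [map_add, map_add, iw_add, hp, hq]
  | mul_X p i hp => rw [map_mul, map_mul, iw_mul, hp, iy_X, iw_X, W01_sw_X, Sum.swap_inl]

theorem W01_sw_iw (G : MvPolynomial (Fin t) ℂ) : sw (iw G) = iy G := by
  induction G using MvPolynomial.induction_on with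
  | C c => rw [iy_C, iw_C, W01_sw_C, Complex.conj_conj]
  | add p q hp hq => rw [iw_add, map_add, map_add, hp, hq]
  | mul_X p i hp => rw [iw_mul, map_mul, map_mul, hp, iy_X, iw_X, W01_sw_X, Sum.swap_inr]

theorem sw_prg (v v' : PV t M) : sw (prg v v') = prg v' v := by
  unfold prg
  rw [map_sum]
  refine Finset.sum_congr rfl fun k _ => ?_
  rw [map_mul, W01_sw_iy, W01_sw_iw, mul_comm]

theorem dvd_swap (v v' : PV t M) (j : ℕ) (h : ss t ^ j ∣ prg v v') : ss t ^ j ∣ prg v' v := by
  have h1 := map_dvd (sw (t := t)) h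
  rwa [map_pow, sw_ss, sw_prg] at h1

theorem W01_ev_iy (y w : Fin t → ℂ) (G : MvPolynomial (Fin t) ℂ) :
    eval (Sum.elim y w) (iy G) = eval y G := by
  unfold iy
  rw [eval_rename]
  rfl

theorem W01_ev_iw (y w : Fin t → ℂ) (G : MvPolynomial (Fin t) ℂ) :
    eval (Sum.elim y (fun j => (starRingEnd ℂ) (w j))) (iw G) = (starRingEnd ℂ) (eval w G) := by
  induction G using MvPolynomial.induction_on with
  | C c => rw [iw_C, eval_C, eval_C]
  | add p q hp hq => rw [iw_add, map_add, hp, hq, map_add, map_add]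
  | mul_X p i hp => rw [iw_mul, map_mul, hp, iw_X, eval_X, map_mul, eval_X, map_mul]; rfl

theorem prg_self (v : PV t M) (h : prg v v = 0) : v = 0 := by
  funext k
  refine MvPolynomial.funext fun y => ?_
  rw [Pi.zero_apply, map_zero]
  have h1 := congrArg (eval (Sum.elim y (fun j => (starRingEnd ℂ) (y j)))) h
  unfold prg at h1
  rw [map_sum, map_zero] at h1
  have h2 : ∑ k, ((‖eval y (v k)‖ ^ 2 : ℝ) : ℂ) = 0 := by
    rw [← h1]
    refine Finset.sum_congr rfl fun k _ => ?_
    rw [map_mul, W01_ev_iy, W01_ev_iw, Complex.mul_conj, Complex.normSq_eq_norm_sq]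
  have h3 : ∑ k, ‖eval y (v k)‖ ^ 2 = 0 := by exact_mod_cast h2
  have h4 := (Finset.sum_eq_zero_iff_of_nonneg (fun k _ => by positivity)).1 h3 k (Finset.mem_univ k)
  have h5 : ‖eval y (v k)‖ = 0 := by simpa using h4
  exact norm_eq_zero.1 h5

theorem prg_sum_smul_right {ι : Type} (S : Finset ι) (c : ι → MvPolynomial (Fin t) ℂ)
    (f : ι → PV t M) (v : PV t M) :
    prg v (∑ i ∈ S, c i • f i) = ∑ i ∈ S, iw (c i) * prg v (f i) := by
  classical
  induction S using Finset.induction_on with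
  | empty => simp [prg_zero_right]
  | insert a S ha ih => rw [Finset.sum_insert ha, Finset.sum_insert ha, prg_add_right, ih, prg_smul_right]

theorem prg_sum_smul_left {ι : Type} (S : Finset ι) (c : ι → MvPolynomial (Fin t) ℂ)
    (f : ι → PV t M) (v : PV t M) :
    prg (∑ i ∈ S, c i • f i) v = ∑ i ∈ S, iy (c i) * prg (f i) v := by
  classical
  induction S using Finset.induction_on with
  | empty => simp [prg_zero_left]
  | insert a S ha ih => rw [Finset.sum_insert ha, Finset.sum_insert ha, prg_add_left, ih, prg_smul_left]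

theorem Dy_dvd (c : Fin t → ℂ) (P : BR t) (j : ℕ) (h : ss t ^ (j + 1) ∣ P) : ss t ^ j ∣ Dy c P := by
  obtain ⟨g, rfl⟩ := h
  rw [Derivation.leibniz, Derivation.leibniz_pow, Dy_ss]
  simp only [smul_eq_mul, nsmul_eq_mul, Nat.add_sub_cancel]
  refine ⟨g * ((j + 1 : ℕ) * lw c) + ss t * Dy c g, ?_⟩
  ring

theorem Dw_dvd (c : Fin t → ℂ) (P : BR t) (j : ℕ) (h : ss t ^ (j + 1) ∣ P) : ss t ^ j ∣ Dw c P := by
  obtain ⟨g, rfl⟩ := h
  rw [Derivation.leibniz, Derivation.leibniz_pow, Dw_ss]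
  simp only [smul_eq_mul, nsmul_eq_mul, Nat.add_sub_cancel]
  refine ⟨g * ((j + 1 : ℕ) * ly c) + ss t * Dw c g, ?_⟩
  ring

end Pool.Agent.DAng
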