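import Pool.Agent.Lib.MP_e3689b_an.W01

set_option autoImplicit false

namespace Pool.Agent.DAng

open MvPolynomial

variable {t M : ℕ}

theorem ss_prime (ht : 2 ≤ t) : Prime (ss t) := by
  classical
  have h1 : ss t = sumSMulXSMulY (Finsupp.equivFunOnFinite.symm (fun _ : Fin t => (1 : ℂ))) := by
    unfold ss sumSMulXSMulY
    rw [Finsupp.linearCombination_apply, Finsupp.sum_fintype]
    · refine Finset.sum_congr rfl fun j _ => ?_
      rw [Finsupp.coe_equivFunOnFinite_symm, one_smul]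
    · intro i
      rw [zero_smul]
  rw [h1]
  refine Irreducible.prime (irreducible_sumSMulXSMulY _ ?_ ?_)
  · refine ⟨⟨0, by omega⟩, ?_, ⟨1, by omega⟩, ?_, ?_⟩
    · simp
    · simp
    · intro h
      have := congrArg Fin.val h
      simp at this
  · intro r hr
    have h2 := hr ⟨0, by omega⟩
    rw [Finsupp.coe_equivFunOnFinite_symm] at h2
    exact isUnit_of_dvd_one h2

theorem ss_not_dvd_iy (c : MvPolynomial (Fin t) ℂ) (hc : c ≠ 0) : ¬ ss t ∣ iy c := by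
  rintro ⟨Q, hQ⟩
  have h1 := congrArg (aeval (Sum.elim (fun a => X a) (fun _ => 0)) :
    BR t →ₐ[ℂ] MvPolynomial (Fin t) ℂ) hQ
  rw [map_mul] at h1
  have h2 : (aeval (Sum.elim (fun a => X a) (fun _ => 0)) : BR t →ₐ[ℂ] MvPolynomial (Fin t) ℂ)
      (ss t) = 0 := by
    unfold ss
    rw [map_sum]
    refine Finset.sum_eq_zero fun j _ => ?_
    rw [map_mul, aeval_X, aeval_X]
    simp
  rw [h2, zero_mul] at h1
  apply hc
  unfold iy at h1
  rw [aeval_rename] at h1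
  have h3 : (Sum.elim (fun a => X a) (fun _ => 0) : Fin t ⊕ Fin t → MvPolynomial (Fin t) ℂ) ∘ Sum.inl
      = X := by
    funext a
    rfl
  rw [h3, aeval_X_left_apply] at h1
  exact h1

theorem ss_not_dvd_iw (c : MvPolynomial (Fin t) ℂ) (hc : c ≠ 0) : ¬ ss t ∣ iw c := by
  intro h
  have h1 := map_dvd (sw (t := t)) h
  rw [sw_ss, W01_sw_iw] at h1
  exact ss_not_dvd_iy c hc h1

theorem ss_cancel_y (ht : 2 ≤ t) (c : MvPolynomial (Fin t) ℂ) (hc : c ≠ 0) (j : ℕ) (P : BR t)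
    (h : ss t ^ j ∣ iy c * P) : ss t ^ j ∣ P :=
  (ss_prime ht).pow_dvd_of_dvd_mul_left j (ss_not_dvd_iy c hc) h

theorem ss_pow_dvd (ht : 2 ≤ t) (P : BR t) (h : ∀ j, ss t ^ j ∣ P) : P = 0 := by
  by_contra hP
  have h1 : FiniteMultiplicity (ss t) P := FiniteMultiplicity.of_prime_left (ss_prime ht) hP
  obtain ⟨n, hn⟩ := h1
  exact hn (h (n + 1))

theorem W02_max (ht : 2 ≤ t) (P : BR t) (hP : P ≠ 0) (h1 : ss t ∣ P) :
    ∃ (m : ℕ) (g : BR t), P = ss t ^ (m + 1) * g ∧ ¬ ss t ∣ g := by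
  have h2 : FiniteMultiplicity (ss t) P := FiniteMultiplicity.of_prime_left (ss_prime ht) hP
  obtain ⟨g, hg, hg'⟩ := h2.exists_eq_pow_mul_and_not_dvd
  have h3 : multiplicity (ss t) P ≠ 0 := by
    intro h0
    rw [h0, pow_zero, one_mul] at hg
    exact hg' (hg ▸ h1)
  obtain ⟨m, hm⟩ := Nat.exists_eq_succ_of_ne_zero h3
  rw [hm] at hg
  exact ⟨m, g, hg, hg'⟩

theorem W02_key (ht : 2 ≤ t) (D : Derivation ℂ (BR t) (BR t)) (m : ℕ) (g : BR t)
    (hg : ¬ ss t ∣ g) (hD : ¬ ss t ∣ D (ss t)) (h : ss t ^ (m + 1) ∣ D (ss t ^ (m + 1) * g)) :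
    False := by
  rw [Derivation.leibniz, Derivation.leibniz_pow] at h
  simp only [smul_eq_mul, nsmul_eq_mul, Nat.add_sub_cancel] at h
  have h1 : ss t ^ (m + 1) ∣ g * (((m + 1 : ℕ) : BR t) * (ss t ^ m * D (ss t))) := by
    have h2 : ss t ^ (m + 1) ∣ ss t ^ (m + 1) * D g := dvd_mul_right _ _
    exact (dvd_add_right h2).1 h
  have h3 : ss t ^ m * ss t ∣ ss t ^ m * (g * (((m + 1 : ℕ) : BR t) * D (ss t))) := by
    rw [← pow_succ]
    convert h1 using 1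
    ring
  have h4 : ss t ∣ g * (((m + 1 : ℕ) : BR t) * D (ss t)) :=
    (mul_dvd_mul_iff_left (pow_ne_zero m (ss_prime ht).ne_zero)).1 h3
  rcases (ss_prime ht).dvd_or_dvd h4 with h5 | h5
  · exact hg h5
  · rcases (ss_prime ht).dvd_or_dvd h5 with h6 | h6
    · have h7 : IsUnit (((m + 1 : ℕ) : BR t)) := by
        have h8 : (((m + 1 : ℕ) : BR t)) = C (((m + 1 : ℕ) : ℂ)) := by simp
        rw [h8]
        exact (isUnit_iff_ne_zero.2 (Nat.cast_ne_zero.2 (by omega))).map C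
      exact (ss_prime ht).not_isUnit (isUnit_of_dvd_unit h6 h7)
    · exact hD h6

theorem OLy (ht : 2 ≤ t) (P : BR t) (j : ℕ) (h1 : ss t ∣ P)
    (h : ∀ a : Fin t, ss t ^ j ∣ Dy (Pi.single a 1) P) : ss t ^ (j + 1) ∣ P := by
  by_cases hP : P = 0
  · rw [hP]; exact dvd_zero _
  obtain ⟨m, g, rfl, hg⟩ := W02_max ht P hP h1
  rcases Nat.lt_or_ge m j with hm | hm
  · exfalso
    refine W02_key ht (Dy (Pi.single ⟨0, by omega⟩ 1)) m g hg ?_
      ((pow_dvd_pow _ (by omega)).trans (h ⟨0, by omega⟩))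
    rw [Dy_ss, lw_single, ← iw_X]
    exact ss_not_dvd_iw _ (X_ne_zero _)
  · exact dvd_mul_of_dvd_left (pow_dvd_pow _ (by omega)) _

theorem OLw (ht : 2 ≤ t) (P : BR t) (j : ℕ) (h1 : ss t ∣ P)
    (h : ∀ a : Fin t, ss t ^ j ∣ Dw (Pi.single a 1) P) : ss t ^ (j + 1) ∣ P := by
  by_cases hP : P = 0
  · rw [hP]; exact dvd_zero _
  obtain ⟨m, g, rfl, hg⟩ := W02_max ht P hP h1
  rcases Nat.lt_or_ge m j with hm | hm
  · exfalso
    refine W02_key ht (Dw (Pi.single ⟨0, by omega⟩ 1)) m g hg ?_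
      ((pow_dvd_pow _ (by omega)).trans (h ⟨0, by omega⟩))
    rw [Dw_ss, ly_single, ← iy_X]
    exact ss_not_dvd_iy _ (X_ne_zero _)
  · exact dvd_mul_of_dvd_left (pow_dvd_pow _ (by omega)) _

end Pool.Agent.DAng
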