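import Pool.Agent.Lib.MP_e3689b_an.W02

set_option autoImplicit false

namespace Pool.Agent.DAng

open MvPolynomial

variable {t M : ℕ}

theorem exists_max (F₁ : Submodule (MvPolynomial (Fin t) ℂ) (PV t M)) (h : IsoV F₁) :
    ∃ V : Submodule (MvPolynomial (Fin t) ℂ) (PV t M), F₁ ≤ V ∧ IsoV V ∧ MaxV V := by
  have hN : IsNoetherian (MvPolynomial (Fin t) ℂ) (PV t M) := inferInstance
  obtain ⟨V, ⟨hV1, hV2⟩, hV3⟩ := set_has_maximal_iff_noetherian.2 hN
    {V | F₁ ≤ V ∧ IsoV V} ⟨F₁, le_rfl, h⟩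
  refine ⟨V, hV1, hV2, fun V' hle hiso => ?_⟩
  have h1 := hV3 V' ⟨hV1.trans hle, hiso⟩
  by_contra hc
  exact h1 (lt_of_le_not_ge hle hc)

theorem TT_test (V : Submodule (MvPolynomial (Fin t) ℂ) (PV t M)) (v : PV t M) (j : ℕ)
    (h1 : ∀ v' ∈ V, ss t ^ j ∣ prg v v') (h2 : ∀ v' ∈ RR V, ∀ c, ss t ^ j ∣ prg v (dv c v')) :
    ∀ τ ∈ TT V, ss t ^ j ∣ prg v τ := by
  intro τ hτ
  obtain ⟨a, ha, b, hb, rfl⟩ := Submodule.mem_sup.1 hτ
  rw [prg_add_right]
  refine dvd_add (h1 a ha) ?_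
  clear hτ ha
  induction hb using Submodule.span_induction with
  | mem x hx =>
    obtain ⟨r, hr, c, rfl⟩ := hx
    exact h2 r hr c
  | zero => rw [prg_zero_right]; exact dvd_zero _
  | add x y _ _ hx hy => rw [prg_add_right]; exact dvd_add hx hy
  | smul c x _ hx => rw [prg_smul_right]; exact dvd_mul_of_dvd_right hx _

theorem V_le_TT (V : Submodule (MvPolynomial (Fin t) ℂ) (PV t M)) : V ≤ TT V := le_sup_left

theorem dv_RR_mem_TT (V : Submodule (MvPolynomial (Fin t) ℂ) (PV t M)) (v : PV t M) (hv : v ∈ RR V)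
    (c : Fin t → ℂ) : dv c v ∈ TT V :=
  Submodule.mem_sup_right (Submodule.subset_span ⟨v, hv, c, rfl⟩)

theorem FL_le (V : Submodule (MvPolynomial (Fin t) ℂ) (PV t M)) (j : ℕ) : FL V j ≤ V :=
  fun _ hv => hv.1

theorem FL_anti (V : Submodule (MvPolynomial (Fin t) ℂ) (PV t M)) {i j : ℕ} (h : i ≤ j) :
    FL V j ≤ FL V i :=
  fun _ hv => ⟨hv.1, fun τ hτ => (pow_dvd_pow _ h).trans (hv.2 τ hτ)⟩

theorem FL_one (V : Submodule (MvPolynomial (Fin t) ℂ) (PV t M)) (hV : IsoV V) : FL V 1 = V := by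
  apply le_antisymm (FL_le V 1)
  intro v hv
  refine ⟨hv, TT_test V v 1 ?_ ?_⟩
  · intro v' hv'
    rw [pow_one]
    exact hV v hv v' hv'
  · intro r hr c
    rw [← Dw_prg]
    exact Dw_dvd c _ 1 (dvd_swap _ _ 2 (hr.2 v hv))

theorem FL_RR (V : Submodule (MvPolynomial (Fin t) ℂ) (PV t M)) : FL V 2 ≤ RR V :=
  fun _ hv => ⟨hv.1, fun τ hτ => hv.2 τ (V_le_TT V hτ)⟩

theorem FL_two (V : Submodule (MvPolynomial (Fin t) ℂ) (PV t M)) (v v' : PV t M) (hv : v ∈ FL V 2)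
    (hv' : v' ∈ V) : ss t ^ 2 ∣ prg v v' :=
  hv.2 v' (V_le_TT V hv')

/-- a submodule which is spanned by two parts is isotropic if all pairs of generators are -/
theorem W03_iso (V : Submodule (MvPolynomial (Fin t) ℂ) (PV t M)) (T : Set (PV t M)) (hV : IsoV V)
    (h1 : ∀ v ∈ V, ∀ x ∈ T, ss t ∣ prg v x) (h2 : ∀ x ∈ T, ∀ y ∈ T, ss t ∣ prg x y) :
    IsoV (V ⊔ Submodule.span (MvPolynomial (Fin t) ℂ) T) := by
  have h1' : ∀ v ∈ V, ∀ x ∈ Submodule.span (MvPolynomial (Fin t) ℂ) T, ss t ∣ prg v x := by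
    intro v hv x hx
    induction hx using Submodule.span_induction with
    | mem x hx => exact h1 v hv x hx
    | zero => rw [prg_zero_right]; exact dvd_zero _
    | add x y _ _ hx hy => rw [prg_add_right]; exact dvd_add hx hy
    | smul c x _ hx => rw [prg_smul_right]; exact dvd_mul_of_dvd_right hx _
  have h3 : ∀ x ∈ T, ∀ y ∈ Submodule.span (MvPolynomial (Fin t) ℂ) T, ss t ∣ prg x y := by
    intro x hx y hy
    induction hy using Submodule.span_induction with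
    | mem y hy => exact h2 x hx y hy
    | zero => rw [prg_zero_right]; exact dvd_zero _
    | add x y _ _ hx hy => rw [prg_add_right]; exact dvd_add hx hy
    | smul c x _ hx => rw [prg_smul_right]; exact dvd_mul_of_dvd_right hx _
  have h4 : ∀ x ∈ Submodule.span (MvPolynomial (Fin t) ℂ) T,
      ∀ y ∈ Submodule.span (MvPolynomial (Fin t) ℂ) T, ss t ∣ prg x y := by
    intro x hx y hy
    induction hx using Submodule.span_induction with
    | mem x hx => exact h3 x hx y hy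
    | zero => rw [prg_zero_left]; exact dvd_zero _
    | add x x' _ _ hx hx' => rw [prg_add_left]; exact dvd_add hx hx'
    | smul c x _ hx => rw [prg_smul_left]; exact dvd_mul_of_dvd_right hx _
  have hsw : ∀ v v' : PV t M, ss t ∣ prg v v' → ss t ∣ prg v' v := by
    intro v v' h
    have := dvd_swap v v' 1 (by rw [pow_one]; exact h)
    rwa [pow_one] at this
  intro a ha b hb
  obtain ⟨v, hv, x, hx, rfl⟩ := Submodule.mem_sup.1 ha
  obtain ⟨v', hv', x', hx', rfl⟩ := Submodule.mem_sup.1 hb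
  rw [prg_add_left, prg_add_right, prg_add_right]
  exact dvd_add (dvd_add (hV v hv v' hv') (h1' v hv x' hx'))
    (dvd_add (hsw _ _ (h1' v' hv' x hx)) (h4 x hx x' hx'))

theorem FL_D_mem (V : Submodule (MvPolynomial (Fin t) ℂ) (PV t M)) (hV : IsoV V) (hm : MaxV V)
    (v : PV t M) (hv : v ∈ FL V 2) (c : Fin t → ℂ) : dv c v ∈ V := by
  have h1 : IsoV (V ⊔ Submodule.span (MvPolynomial (Fin t) ℂ)
      {x | ∃ v ∈ FL V 2, ∃ c : Fin t → ℂ, x = dv c v}) := by
    apply W03_iso V _ hV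
    · rintro v' hv' x ⟨u, hu, c, rfl⟩
      rw [← Dw_prg]
      have := Dw_dvd c _ 1 (dvd_swap _ _ 2 (FL_two V u v' hu hv'))
      rwa [pow_one] at this
    · rintro x ⟨u, hu, c, rfl⟩ y ⟨u', hu', c', rfl⟩
      rw [← Dy_prg]
      have := Dy_dvd c _ 1 (hu.2 (dv c' u') (dv_RR_mem_TT V u' (FL_RR V hu') c'))
      rwa [pow_one] at this
  exact hm _ le_sup_left h1 (Submodule.mem_sup_right (Submodule.subset_span ⟨v, hv, c, rfl⟩))

theorem FL_D (V : Submodule (MvPolynomial (Fin t) ℂ) (PV t M)) (hV : IsoV V) (hm : MaxV V) (j : ℕ)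
    (hj : 1 ≤ j) (v : PV t M) (hv : v ∈ FL V (j + 1)) (c : Fin t → ℂ) : dv c v ∈ FL V j := by
  refine ⟨FL_D_mem V hV hm v (FL_anti V (by omega) hv) c, fun τ hτ => ?_⟩
  rw [← Dy_prg]
  exact Dy_dvd c _ j (hv.2 τ hτ)

theorem FL_two_two (ht : 2 ≤ t) (V : Submodule (MvPolynomial (Fin t) ℂ) (PV t M)) (v v' : PV t M)
    (hv : v ∈ FL V 2) (hv' : v' ∈ FL V 2) : ss t ^ 3 ∣ prg v v' := by
  refine OLw ht _ 2 ?_ fun a => ?_
  · exact (dvd_pow_self _ two_ne_zero).trans (FL_two V v v' hv (FL_le V 2 hv'))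
  · rw [Dw_prg]
    exact hv.2 _ (dv_RR_mem_TT V v' (FL_RR V hv') _)

theorem Fc_le (ht : 2 ≤ t) (V : Submodule (MvPolynomial (Fin t) ℂ) (PV t M)) (hV : IsoV V)
    (Fc : ℕ → Submodule (MvPolynomial (Fin t) ℂ) (PV t M)) (h1 : Fc 1 ≤ V)
    (h2 : ∀ j, 1 ≤ j → Fc (j + 1) ≤ Fc j)
    (h3 : ∀ j, 1 ≤ j → ∀ v ∈ Fc (j + 1), ∀ i, dv (Pi.single i 1) v ∈ Fc j) (j : ℕ) (hj : 1 ≤ j) :
    Fc j ≤ FL V j := by
  induction j, hj using Nat.le_induction with
  | base => rw [FL_one V hV]; exact h1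
  | succ j hj ih =>
    intro v hv
    have hvj := ih (h2 j hj hv)
    refine ⟨hvj.1, fun τ hτ => ?_⟩
    refine OLy ht _ j ?_ fun a => ?_
    · exact (dvd_pow_self _ (by omega)).trans (hvj.2 τ hτ)
    · rw [Dy_prg]
      exact (ih (h3 j hj v hv a)).2 τ hτ

theorem FL_bot (ht : 2 ≤ t) (V : Submodule (MvPolynomial (Fin t) ℂ) (PV t M)) :
    ∃ D : ℕ, ∀ j, D < j → FL V j = ⊥ := by
  obtain ⟨f, hf⟩ : ∃ f : ℕ → ℕ, f = fun j => Module.finrank (MvPolynomial (Fin t) ℂ) (FL V j) :=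
    ⟨_, rfl⟩
  have hanti : Antitone f := by
    intro i j hij
    rw [hf]
    exact Submodule.finrank_mono (FL_anti V hij)
  obtain ⟨D, hD⟩ : ∃ D, ∀ j, D ≤ j → f j = f D := by
    obtain ⟨D, hD⟩ := WellFounded.has_min (measure f).wf Set.univ ⟨0, trivial⟩
    refine ⟨D, fun j hj => le_antisymm (hanti hj) ?_⟩
    exact not_lt.1 (hD.2 j trivial)
  refine ⟨D, fun j hj => ?_⟩
  rw [Submodule.eq_bot_iff]
  intro v hv
  apply prg_self
  apply ss_pow_dvd ht
  intro i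
  -- pass to the maximum of i and j
  have hij : FL V (max i j) ≤ FL V j := FL_anti V (le_max_right _ _)
  have hrk : Module.finrank (MvPolynomial (Fin t) ℂ) (FL V (max i j)) =
      Module.finrank (MvPolynomial (Fin t) ℂ) (FL V j) := by
    have h4 := hD (max i j) (by omega)
    have h5 := hD j hj.le
    rw [hf] at h4 h5
    exact h4.trans h5.symm
  have hq := Submodule.finrank_quotient_add_finrank ((FL V (max i j)).submoduleOf (FL V j))
  rw [(Submodule.submoduleOfEquivOfLe hij).finrank_eq, hrk] at hq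
  have hq0 : Module.finrank (MvPolynomial (Fin t) ℂ)
      (FL V j ⧸ (FL V (max i j)).submoduleOf (FL V j)) = 0 := by omega
  have htor := Module.finrank_eq_zero_iff_isTorsion.1 hq0
  obtain ⟨⟨c, hc⟩, hcv⟩ := @htor (Submodule.Quotient.mk ⟨v, hv⟩)
  have hc0 : c ≠ 0 := nonZeroDivisors.ne_zero hc
  have h6 : c • (Submodule.Quotient.mk ⟨v, hv⟩ :
      FL V j ⧸ (FL V (max i j)).submoduleOf (FL V j)) = 0 := hcv
  rw [← Submodule.Quotient.mk_smul, Submodule.Quotient.mk_eq_zero] at h6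
  have h7 : c • v ∈ FL V (max i j) := h6
  have h8 := h7.2 v (V_le_TT V (FL_le V j hv))
  rw [prg_smul_left] at h8
  exact (pow_dvd_pow _ (le_max_left i j)).trans (ss_cancel_y ht c hc0 _ _ h8)

end Pool.Agent.DAng
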