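import Pool.Agent.Lib.MP_e3689b_an.W03

set_option autoImplicit false

namespace Pool.Agent.DAng

open MvPolynomial

variable {t M : ℕ}

theorem W04_rho_inl (o : Fin t → Fin t → ℂ) (l j : Fin t) :
    rho o l (X (Sum.inl j)) = C (o l j) := by
  simp [rho]

theorem W04_rho_inr (o : Fin t → Fin t → ℂ) (l j : Fin t) :
    rho o l (X (Sum.inr j)) =
      ∑ b ∈ Finset.univ.erase l, C ((starRingEnd ℂ) (o b j)) * X b := by
  simp [rho]

theorem W04_rho_C (o : Fin t → Fin t → ℂ) (l : Fin t) (c : ℂ) :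
    rho o l (C c) = C c := by
  rw [← algebraMap_eq, ← algebraMap_eq]
  exact (rho o l).commutes c

theorem W04_sum (o : Fin t → Fin t → ℂ) (l : Fin t) (c : Fin t → ℂ) :
    (∑ j : Fin t, (C (c j) * ∑ b ∈ Finset.univ.erase l, C ((starRingEnd ℂ) (o b j)) * X b :
      MvPolynomial (Fin t) ℂ)) =
    ∑ b ∈ Finset.univ.erase l, C (∑ j, c j * (starRingEnd ℂ) (o b j)) * X b := by
  rw [Finset.sum_congr rfl fun j _ => Finset.mul_sum _ _ _, Finset.sum_comm]
  refine Finset.sum_congr rfl fun b _ => ?_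
  rw [map_sum, Finset.sum_mul]
  refine Finset.sum_congr rfl fun j _ => ?_
  rw [map_mul]
  ring

/-- PROOF. `aeval_X`, exchange the sums: `∑_{a ≠ l} C (∑_j o l j conj (o a j)) * X a = 0` by `ho l a`. -/
theorem rho_ss (o : Fin t → Fin t → ℂ) (ho : ON o) (l : Fin t) : rho o l (ss t) = 0 := by
  unfold ss
  rw [map_sum]
  have h1 : ∀ j : Fin t, rho o l (X (Sum.inl j) * X (Sum.inr j)) =
      C (o l j) * ∑ b ∈ Finset.univ.erase l, C ((starRingEnd ℂ) (o b j)) * X b := by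
    intro j
    rw [map_mul, W04_rho_inl, W04_rho_inr]
  rw [Finset.sum_congr rfl fun j _ => h1 j, W04_sum o l (o l)]
  refine Finset.sum_eq_zero fun b hb => ?_
  rw [ho l b, if_neg (Finset.ne_of_mem_erase hb).symm, map_zero, zero_mul]

/-- PROOF. `∑_{b ≠ l} C (∑_j o a j conj (o b j)) * X b = X a` by `ho a b`. -/
theorem rho_lw (o : Fin t → Fin t → ℂ) (ho : ON o) (l a : Fin t) (h : a ≠ l) :
    rho o l (lw (o a)) = X a := by
  unfold lw
  rw [map_sum]
  have h1 : ∀ j : Fin t, rho o l (C (o a j) * X (Sum.inr j)) =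
      C (o a j) * ∑ b ∈ Finset.univ.erase l, C ((starRingEnd ℂ) (o b j)) * X b := by
    intro j
    rw [map_mul, W04_rho_C, W04_rho_inr]
  rw [Finset.sum_congr rfl fun j _ => h1 j, W04_sum o l (o a), Finset.sum_eq_single a]
  · rw [ho a a, if_pos rfl, map_one, one_mul]
  · intro b _ hba
    rw [ho a b, if_neg (Ne.symm hba), map_zero, zero_mul]
  · intro hn
    exact absurd (Finset.mem_erase.2 ⟨h, Finset.mem_univ a⟩) hn

/-- PROOF. `unfold enc`, `Finset.mul_sum`. -/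
theorem enc_mul {q : ℕ} (o : Fin t → Fin t → ℂ) (l a : Fin t) (c : ℂ) (g g' : Fin q → BR t)
    (h : ∀ i, rho o l (g' i) = C c * (X a * rho o l (g i))) :
    enc o l g' = C c * (X (Sum.inr a) * enc o l g) := by
  unfold enc
  rw [Finset.mul_sum, Finset.mul_sum]
  refine Finset.sum_congr rfl fun i _ => ?_
  rw [h i, map_mul, map_mul, rename_C, rename_X]
  ring

/-- the growth of the leading forms.
PROOF. `P = enc o l g` with `v ∈ FL V (j+1)`, `prg v (τ i) = s^(j+1) g i`. `v' = dv (o a) v ∈ FL V j` (`FL_D`), `prg v' (τ i) = Dy (o a) (s^(j+1) g i) = s^j * ((j+1) * lw (o a) * g i + s * Dy (o a) (g i))`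
(`Dy_prg`, `Dy_ss`, Leibniz); `rho` of the bracket is `(j+1) X a * rho (g i)` (`rho_ss`, `rho_lw`). So `(j+1) • (X (inr a) * P) ∈ GS V τ o l j` (`enc_mul`); divide by `j+1` (`Submodule.smul_mem` with `1/(j+1)`). -/
theorem GS_X (V : Submodule (MvPolynomial (Fin t) ℂ) (PV t M)) (hV : IsoV V) (hm : MaxV V) {q : ℕ}
    (τ : Fin q → PV t M) (o : Fin t → Fin t → ℂ) (ho : ON o) (l a : Fin t) (ha : a ≠ l) (j : ℕ)
    (hj : 1 ≤ j) (P : MvPolynomial (Fin q ⊕ Fin t) ℂ) (hP : P ∈ GS V τ o l (j + 1)) :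
    X (Sum.inr a) * P ∈ GS V τ o l j := by
  obtain ⟨v, hv, g, hg, rfl⟩ := hP
  have hj0 : ((j : ℂ) + 1) ≠ 0 := by
    exact_mod_cast Nat.succ_ne_zero j
  have hkey : C ((j : ℂ) + 1) * (X (Sum.inr a) * enc o l g) ∈ GS V τ o l j := by
    refine ⟨dv (o a) v, FL_D V hV hm j hj v hv (o a),
      fun i => C ((j : ℂ) + 1) * lw (o a) * g i + ss t * Dy (o a) (g i), fun i => ?_, ?_⟩
    · rw [← Dy_prg, hg i, Derivation.leibniz, Derivation.leibniz_pow, Dy_ss]
      simp only [smul_eq_mul, nsmul_eq_mul, Nat.add_sub_cancel]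
      have h2 : (C ((j : ℂ) + 1) : BR t) = ((j + 1 : ℕ) : BR t) := by
        push_cast
        rw [map_add, map_one, map_natCast]
      rw [h2]
      ring
    · symm
      refine enc_mul o l a _ g _ fun i => ?_
      rw [map_add, map_mul, map_mul, map_mul, W04_rho_C, rho_lw o ho l a ha, rho_ss o ho l]
      ring
  have h3 := (GS V τ o l j).smul_mem ((j : ℂ) + 1)⁻¹ hkey
  rwa [smul_eq_C_mul, ← mul_assoc, ← C_mul, inv_mul_cancel₀ hj0, map_one, one_mul] at h3

/-- evaluation at `y = o l` -/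
noncomputable def W04_kap (o : Fin t → Fin t → ℂ) (l : Fin t) :
    BR t →ₐ[ℂ] MvPolynomial (Fin t) ℂ :=
  aeval (Sum.elim (fun j => C (o l j)) (fun j => X j))

theorem W04_kap_iy (o : Fin t → Fin t → ℂ) (l : Fin t) (G : MvPolynomial (Fin t) ℂ) :
    W04_kap o l (iy G) = C (eval (o l) G) := by
  have h : ((W04_kap o l).comp iy) = ((Algebra.ofId ℂ (MvPolynomial (Fin t) ℂ)).comp
      (aeval (o l))) := by
    apply algHom_ext
    intro j
    simp [W04_kap, iy, Algebra.ofId_apply]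
  have h2 := DFunLike.congr_fun h G
  simpa [Algebra.ofId_apply, aeval_eq_eval] using h2

theorem W04_rho_kap (o : Fin t → Fin t → ℂ) (l : Fin t) (P : BR t) :
    rho o l P = aeval (fun j => ∑ b ∈ Finset.univ.erase l,
      C ((starRingEnd ℂ) (o b j)) * X b) (W04_kap o l P) := by
  have h : rho o l = (aeval (fun j => ∑ b ∈ Finset.univ.erase l,
      (C ((starRingEnd ℂ) (o b j)) * X b : MvPolynomial (Fin t) ℂ))).comp (W04_kap o l) := by
    apply algHom_ext
    rintro (j | j)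
    · simp [rho, W04_kap, ← algebraMap_eq]
    · simp [rho, W04_kap]
  exact DFunLike.congr_fun h P

/-- PROOF. Let `κ : BR t →ₐ[ℂ] MvPolynomial (Fin t) ℂ`, `inl j ↦ C (o l j)`, `inr j ↦ X j`. `κ (prg v (τ i)) = ∑ k, C (eval (o l) (v k)) * cj (τ i k) = 0`, `κ (ss t) = ∑ j, C (o l j) * X j ≠ 0` (`o l ≠ 0` by `ho l l`), so
`κ (g i) = 0`, and `rho o l (g i)` is the image of `κ (g i)` under the homomorphism `X j ↦ ∑_{a ≠ l} C (conj (o a j)) * X a`. So `rho o l (g i) = 0`. -/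
theorem enc_zero_of_val {q : ℕ} (τ : Fin q → PV t M) (o : Fin t → Fin t → ℂ) (ho : ON o)
    (l : Fin t) (j : ℕ) (v : PV t M) (g : Fin q → BR t) (hg : ∀ i, prg v (τ i) = ss t ^ j * g i)
    (hv : ∀ k, eval (o l) (v k) = 0) : enc o l g = 0 := by
  unfold enc
  refine Finset.sum_eq_zero fun i _ => ?_
  have hk1 : W04_kap o l (prg v (τ i)) = 0 := by
    unfold prg
    rw [map_sum]
    refine Finset.sum_eq_zero fun k _ => ?_
    rw [map_mul, W04_kap_iy, hv k, map_zero, zero_mul]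
  have hk2 : W04_kap o l (ss t) ≠ 0 := by
    intro h0
    have h1 := congrArg (eval (fun j => (starRingEnd ℂ) (o l j))) h0
    rw [map_zero] at h1
    unfold ss at h1
    rw [map_sum, map_sum] at h1
    have h2 : ∑ j : Fin t, o l j * (starRingEnd ℂ) (o l j) = 0 := by
      rw [← h1]
      refine Finset.sum_congr rfl fun j _ => ?_
      rw [map_mul, map_mul]
      simp [W04_kap]
    rw [ho l l, if_pos rfl] at h2
    exact one_ne_zero h2
  have hk3 : W04_kap o l (g i) = 0 := by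
    rw [hg i, map_mul, map_pow] at hk1
    exact (mul_eq_zero.1 hk1).resolve_left (pow_ne_zero _ hk2)
  rw [W04_rho_kap, hk3, map_zero, map_zero, mul_zero]

/-- PROOF. `s^j g i = prg v (τ i)` is divisible by `s^(j+1)`, so `s ∣ g i` (cancel `s^j`, `ss t ≠ 0` by `ss_prime`), and `rho o l (g i) = 0` by `rho_ss`. -/
theorem enc_zero_of_mem (ht : 2 ≤ t) (V : Submodule (MvPolynomial (Fin t) ℂ) (PV t M)) {q : ℕ}
    (τ : Fin q → PV t M) (hτ : ∀ i, τ i ∈ TT V) (o : Fin t → Fin t → ℂ) (ho : ON o)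
    (l : Fin t) (j : ℕ) (v : PV t M) (g : Fin q → BR t) (hg : ∀ i, prg v (τ i) = ss t ^ j * g i)
    (hv : v ∈ FL V (j + 1)) : enc o l g = 0 := by
  unfold enc
  refine Finset.sum_eq_zero fun i _ => ?_
  have h1 : ss t ^ j * ss t ∣ ss t ^ j * g i := by
    rw [← hg i, ← pow_succ]
    exact hv.2 (τ i) (hτ i)
  have h2 : ss t ∣ g i :=
    (mul_dvd_mul_iff_left (pow_ne_zero _ (ss_prime ht).ne_zero)).1 h1
  obtain ⟨q', hq'⟩ := h2
  rw [hq', map_mul, rho_ss o ho l, zero_mul, map_zero, mul_zero]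

end Pool.Agent.DAng
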