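import Pool.Agent.Lib.MP_e3689b_an.W04

set_option autoImplicit false

namespace Pool.Agent.DAng

open MvPolynomial

variable {t M : ℕ}

theorem W05_add {q : ℕ} (o : Fin t → Fin t → ℂ) (l : Fin t) (g g' : Fin q → BR t) :
    enc o l (fun i => g i + g' i) = enc o l g + enc o l g' := by
  unfold enc
  rw [← Finset.sum_add_distrib]
  refine Finset.sum_congr rfl fun i _ => ?_
  rw [map_add, map_add, mul_add]

theorem W05_smul {q : ℕ} (o : Fin t → Fin t → ℂ) (l : Fin t) (c : ℂ) (g : Fin q → BR t) :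
    enc o l (fun i => C c * g i) = c • enc o l g := by
  unfold enc
  rw [Finset.smul_sum]
  refine Finset.sum_congr rfl fun i _ => ?_
  rw [map_mul, map_mul, smul_eq_C_mul]
  have h1 : rename Sum.inr ((rho o l) (C c)) = (C c : MvPolynomial (Fin q ⊕ Fin t) ℂ) := by
    have h2 : (rho o l) (C c) = C c := by
      rw [← algebraMap_eq, ← algebraMap_eq]
      exact (rho o l).commutes c
    rw [h2, rename_C]
  rw [h1]
  ring

/-- the quotients -/
theorem W05_quo (V : Submodule (MvPolynomial (Fin t) ℂ) (PV t M)) {q : ℕ}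
    (τ : Fin q → PV t M) (hτ : ∀ i, τ i ∈ TT V) (j : ℕ) (v : PV t M) (hv : v ∈ FL V j) :
    ∃ g : Fin q → BR t, ∀ i, prg v (τ i) = ss t ^ j * g i := by
  have h : ∀ i, ∃ g : BR t, prg v (τ i) = ss t ^ j * g := fun i => hv.2 (τ i) (hτ i)
  choose g hg using h
  exact ⟨g, hg⟩

/-- the encoding depends only on the value -/
theorem W05_key {q : ℕ} (τ : Fin q → PV t M) (o : Fin t → Fin t → ℂ) (ho : ON o)
    (l : Fin t) (j : ℕ) (v v' : PV t M) (g g' : Fin q → BR t)
    (hg : ∀ i, prg v (τ i) = ss t ^ j * g i) (hg' : ∀ i, prg v' (τ i) = ss t ^ j * g' i)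
    (hv : ∀ k, eval (o l) (v k) = eval (o l) (v' k)) : enc o l g = enc o l g' := by
  have h1 : enc o l (fun i => g i + C (-1) * g' i) = 0 := by
    refine enc_zero_of_val τ o ho l j (v + (C (-1) : MvPolynomial (Fin t) ℂ) • v') _ ?_ ?_
    · intro i
      rw [prg_add_left, prg_smul_left, hg, hg', iy_C]
      ring
    · intro k
      rw [Pi.add_apply, Pi.smul_apply, smul_eq_mul, map_add, map_mul, eval_C, hv k]
      ring
  rw [W05_add o l g (fun i => C (-1) * g' i), W05_smul] at h1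
  rw [neg_one_smul] at h1
  exact sub_eq_zero.1 (by rw [sub_eq_add_neg]; exact h1)

/-- The space of the leading forms is finite dimensional and its dimension is bounded by the drop of the dimension of the values.
PROOF. Let `E = Fv (FL V j) (o l)` (finite dimensional), `x_i` a basis of `E`, `x_i` the value of `v_i ∈ FL V j`, and `g_i : Fin q → BR t` with `prg (v_i) (τ c) = s^j g_i c` (exists: `τ c ∈ TT V`). Let `Λ : E →ₗ[ℂ] MvPolynomial (Fin q ⊕ Fin t) ℂ`
be the linear map with `Λ x_i = enc o l g_i` (`Basis.constr`). Claim: if `v ∈ FL V j`, `prg v (τ c) = s^j g c`, then `Λ (value of v) = enc o l g`: write the value of `v` as `∑ α_i x_i`; `v - ∑ C (α_i) • v_i ∈ FL V j` has value `0`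
and quotients `g c - ∑ C (α_i) g_i c`, so `enc o l (..) = 0` by `enc_zero_of_val`, and `enc` is additive. So the range of `Λ` is `GS V τ o l j` (`≤`: `enc o l g_i ∈ GS`; `≥`: claim), hence finite dimensional, and
the subspace `Fv (FL V (j+1)) (o l) ≤ E` (`FL_anti`) lies in the kernel (claim and `enc_zero_of_mem`). `LinearMap.finrank_range_add_finrank_ker`. -/
theorem GS_val (ht : 2 ≤ t) (V : Submodule (MvPolynomial (Fin t) ℂ) (PV t M)) {q : ℕ}
    (τ : Fin q → PV t M) (hτ : ∀ i, τ i ∈ TT V) (o : Fin t → Fin t → ℂ) (ho : ON o) (l : Fin t)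
    (j : ℕ) :
    FiniteDimensional ℂ (GS V τ o l j) ∧
      Module.finrank ℂ (GS V τ o l j) + Module.finrank ℂ (Fv (FL V (j + 1)) (o l)) ≤
        Module.finrank ℂ (Fv (FL V j) (o l)) := by
  classical
  have hE : ∀ x : Fv (FL V j) (o l), ∃ (v : PV t M) (g : Fin q → BR t), v ∈ FL V j ∧
      (∀ k, eval (o l) (v k) = x.1 k) ∧ ∀ i, prg v (τ i) = ss t ^ j * g i := by
    rintro ⟨x, v, hv, rfl⟩
    obtain ⟨g, hg⟩ := W05_quo V τ hτ j v hv
    exact ⟨v, g, hv, fun _ => rfl, hg⟩
  choose vx gx hvx hval hgx using hE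
  have hkey : ∀ (x : Fv (FL V j) (o l)) (v : PV t M) (g : Fin q → BR t),
      (∀ k, eval (o l) (v k) = x.1 k) → (∀ i, prg v (τ i) = ss t ^ j * g i) →
      enc o l (gx x) = enc o l g := by
    intro x v g h1 h2
    exact W05_key τ o ho l j (vx x) v (gx x) g (hgx x) h2 fun k => (hval x k).trans (h1 k).symm
  obtain ⟨Λ, hΛ⟩ : ∃ Λ : Fv (FL V j) (o l) →ₗ[ℂ] MvPolynomial (Fin q ⊕ Fin t) ℂ,
      ∀ x, Λ x = enc o l (gx x) := by
    refine ⟨{ toFun := fun x => enc o l (gx x), map_add' := ?_, map_smul' := ?_ }, fun _ => rfl⟩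
    · intro x y
      rw [← W05_add]
      refine hkey (x + y) (vx x + vx y) _ ?_ ?_
      · intro k
        rw [Pi.add_apply, map_add, hval, hval]
        rfl
      · intro i
        rw [prg_add_left, hgx, hgx, mul_add]
    · intro c x
      rw [RingHom.id_apply, ← W05_smul]
      refine hkey (c • x) ((C c : MvPolynomial (Fin t) ℂ) • vx x) _ ?_ ?_
      · intro k
        rw [Pi.smul_apply, smul_eq_mul, map_mul, eval_C, hval]
        rfl
      · intro i
        rw [prg_smul_left, hgx, iy_C]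
        ring
  have hrange : LinearMap.range Λ = GS V τ o l j := by
    apply le_antisymm
    · rintro P ⟨x, rfl⟩
      exact ⟨vx x, hvx x, gx x, hgx x, hΛ x⟩
    · rintro P ⟨v, hv, g, hg, rfl⟩
      refine ⟨⟨fun k => eval (o l) (v k), v, hv, rfl⟩, ?_⟩
      rw [hΛ]
      exact hkey _ v g (fun _ => rfl) hg
  have hker : (Fv (FL V (j + 1)) (o l)).submoduleOf (Fv (FL V j) (o l)) ≤ LinearMap.ker Λ := by
    rintro ⟨x, hx⟩ hx'
    obtain ⟨v, hv, hxv⟩ : x ∈ Fv (FL V (j + 1)) (o l) := hx'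
    obtain ⟨g, hg⟩ := W05_quo V τ hτ j v (FL_anti V (Nat.le_succ j) hv)
    rw [LinearMap.mem_ker, hΛ, hkey ⟨x, hx⟩ v g (fun k => (congrFun hxv k).symm) hg]
    exact enc_zero_of_mem ht V τ hτ o ho l j v g hg hv
  have hle : Fv (FL V (j + 1)) (o l) ≤ Fv (FL V j) (o l) := by
    rintro x ⟨v, hv, rfl⟩
    exact ⟨v, FL_anti V (Nat.le_succ j) hv, rfl⟩
  have hfin : Module.finrank ℂ (Fv (FL V (j + 1)) (o l)) ≤
      Module.finrank ℂ (LinearMap.ker Λ) := by
    rw [← (Submodule.submoduleOfEquivOfLe hle).finrank_eq]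
    exact Submodule.finrank_mono hker
  have hsum := LinearMap.finrank_range_add_finrank_ker Λ
  rw [← hrange]
  refine ⟨inferInstance, ?_⟩
  omega

end Pool.Agent.DAng
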