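import Pool.Agent.Lib.MP_e3689b_an.W02
import Pool.Agent.Lib.MP_e3689b_an.Mg.G004

set_option autoImplicit false

namespace Pool.Agent.DAng

open MvPolynomial

variable {t M : ℕ}

theorem ss_dvd_of_zero (ht : 2 ≤ t) (P : BR t)
    (h : ∀ y w : Fin t → ℂ, y ⟨0, by omega⟩ ≠ 0 → ∑ j, y j * w j = 0 → eval (Sum.elim y w) P = 0) :
    ss t ∣ P := by
  have hp := ss_prime ht
  have hI : (Ideal.span {ss t}).IsPrime := (Ideal.span_singleton_prime hp.ne_zero).2 hp
  have h1 : P * X (Sum.inl ⟨0, by omega⟩) ∈ vanishingIdeal ℂ (zeroLocus ℂ (Ideal.span {ss t})) := by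
    rw [mem_vanishingIdeal_iff]
    intro x hx
    rw [mem_zeroLocus_iff] at hx
    have hx1 := hx (ss t) (Ideal.mem_span_singleton_self _)
    obtain ⟨y, w, rfl⟩ : ∃ y w : Fin t → ℂ, x = Sum.elim y w :=
      ⟨fun j => x (Sum.inl j), fun j => x (Sum.inr j), by funext v; cases v <;> rfl⟩
    rw [aeval_eq_eval] at hx1 ⊢
    rw [map_mul, eval_X, Sum.elim_inl]
    have hx2 : ∑ j, y j * w j = 0 := by
      rw [← hx1]
      unfold ss
      rw [map_sum]
      refine Finset.sum_congr rfl fun j _ => ?_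
      rw [map_mul, eval_X, eval_X]
      rfl
    by_cases hy : y ⟨0, by omega⟩ = 0
    · rw [hy, mul_zero]
    · rw [h y w hy hx2, zero_mul]
  rw [IsPrime.vanishingIdeal_zeroLocus, Ideal.mem_span_singleton] at h1
  rcases hp.dvd_or_dvd h1 with h2 | h2
  · exact h2
  · rw [← iy_X] at h2
    exact absurd h2 (ss_not_dvd_iy _ (X_ne_zero _))

/-- the substitution `w_0 ↦ - ∑_{j ≠ 0} y_j w_j`, `w_j ↦ y_0 w_j` (`j ≠ 0`) -/
noncomputable def sig (ht : 2 ≤ t) : BR t →ₐ[ℂ] MvPolynomial (Fin t) (MvPolynomial (Fin t) ℂ) :=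
  aeval (Sum.elim (fun j => C (X j)) (fun j => if j = ⟨0, by omega⟩ then
    - ∑ i ∈ Finset.univ.erase (⟨0, by omega⟩ : Fin t), C (X i) * X i else C (X ⟨0, by omega⟩) * X j))

theorem sig_iy (ht : 2 ≤ t) (G : MvPolynomial (Fin t) ℂ) : sig ht (iy G) = C G := by
  induction G using MvPolynomial.induction_on with
  | C c =>
    rw [iy_C]
    exact AlgHom.commutes (sig ht) c
  | add p q hp hq => rw [map_add, map_add, hp, hq, map_add]
  | mul_X p i hp =>
    rw [map_mul, map_mul, hp, iy_X, map_mul]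
    congr 1
    unfold sig
    rw [aeval_X]
    rfl

theorem sig_eval (ht : 2 ≤ t) (P : BR t) (y w : Fin t → ℂ) :
    eval w (map (eval y) (sig ht P)) = eval (Sum.elim y (fun j => if j = ⟨0, by omega⟩ then
      - ∑ i ∈ Finset.univ.erase (⟨0, by omega⟩ : Fin t), y i * w i else y ⟨0, by omega⟩ * w j)) P := by
  have h : ((eval w).comp (map (eval y))).comp
      (sig ht : BR t →+* MvPolynomial (Fin t) (MvPolynomial (Fin t) ℂ)) =
      eval (Sum.elim y (fun j => if j = ⟨0, by omega⟩ then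
      - ∑ i ∈ Finset.univ.erase (⟨0, by omega⟩ : Fin t), y i * w i else y ⟨0, by omega⟩ * w j)) := by
    apply MvPolynomial.ringHom_ext
    · intro c
      rw [eval_C, RingHom.comp_apply, RingHom.comp_apply]
      have h1 : (sig ht : BR t →+* MvPolynomial (Fin t) (MvPolynomial (Fin t) ℂ)) (C c) = C (C c) :=
        AlgHom.commutes (sig ht) c
      rw [h1, map_C, eval_C, eval_C]
    · intro v
      rw [eval_X, RingHom.comp_apply, RingHom.comp_apply]
      have h1 : (sig ht : BR t →+* MvPolynomial (Fin t) (MvPolynomial (Fin t) ℂ)) (X v) =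
          Sum.elim (fun j => C (X j)) (fun j => if j = ⟨0, by omega⟩ then
    - ∑ i ∈ Finset.univ.erase (⟨0, by omega⟩ : Fin t), C (X i) * X i else C (X ⟨0, by omega⟩) * X j) v := by
        change sig ht (X v) = _
        unfold sig
        rw [aeval_X]
      rw [h1]
      rcases v with j | j
      · simp
      · simp only [Sum.elim_inr]
        split_ifs with hj
        · simp
        · simp
  exact congrArg (fun f : BR t →+* ℂ => f P) h

theorem sig_ker (ht : 2 ≤ t) (P : BR t) (h : sig ht P = 0) : ss t ∣ P := by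
  apply ss_dvd_of_zero ht
  intro y w hy hyw
  have h1 := sig_eval ht P y (fun j => w j / y ⟨0, by omega⟩)
  rw [h, map_zero, map_zero] at h1
  rw [h1]
  congr 1
  congr 1
  congr 1
  funext j
  split_ifs with hj
  · subst hj
    rw [← Finset.add_sum_erase _ _ (Finset.mem_univ (⟨0, by omega⟩ : Fin t))] at hyw
    have h2 : ∑ i ∈ Finset.univ.erase (⟨0, by omega⟩ : Fin t), y i * (w i / y ⟨0, by omega⟩) =
        (∑ i ∈ Finset.univ.erase (⟨0, by omega⟩ : Fin t), y i * w i) / y ⟨0, by omega⟩ := by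
      rw [Finset.sum_div]
      refine Finset.sum_congr rfl fun i _ => ?_
      rw [mul_div_assoc]
    rw [h2]
    field_simp
    linear_combination hyw
  · field_simp

/-- a nonvanishing minor for a family which is independent over the polynomials -/
theorem W06_minor {p : ℕ} {E : Type} [Fintype E] (A : Fin p → E → MvPolynomial (Fin t) ℂ)
    (h : ∀ c : Fin p → MvPolynomial (Fin t) ℂ, (∀ e, ∑ k, c k * A k e = 0) → c = 0) :
    ∃ Δ : MvPolynomial (Fin t) ℂ, Δ ≠ 0 ∧ ∀ y : Fin t → ℂ, eval y Δ ≠ 0 → ∀ c : Fin p → ℂ,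
      (∀ e, ∑ k, c k * eval y (A k e) = 0) → c = 0 := by
  classical
  obtain ⟨ρ, hρ, -, ⟨f, g, hdet⟩, θ, hθ, hθ0⟩ := R1 (Matrix.of (fun (e : E) (k : Fin p) => A k e))
  have hρp : ρ = p := by
    by_contra hne
    have hlt : 0 < Fintype.card (Fin p) - ρ := by
      rw [Fintype.card_fin] at hρ ⊢
      omega
    apply hθ.ne_zero ⟨0, hlt⟩
    apply h
    intro e
    have h1 := congrFun (hθ0 ⟨0, hlt⟩) e
    rw [Pi.zero_apply, Matrix.mulVec, dotProduct] at h1
    rw [← h1]
    refine Finset.sum_congr rfl fun k _ => ?_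
    rw [Matrix.of_apply, mul_comm]
  subst hρp
  have hinj : Function.Injective g := by
    intro i j hij
    by_contra hne
    apply hdet
    refine Matrix.det_zero_of_column_eq hne fun k => ?_
    rw [Matrix.submatrix_apply, Matrix.submatrix_apply, hij]
  have hbij : Function.Bijective g := Finite.injective_iff_bijective.1 hinj
  refine ⟨_, hdet, fun y hy c hc => ?_⟩
  rw [RingHom.map_det] at hy
  have h1 := Matrix.eq_zero_of_mulVec_eq_zero hy (v := c ∘ g) (by
    funext i
    rw [Pi.zero_apply, ← hc (f i), Matrix.mulVec, dotProduct]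
    rw [← Function.Bijective.sum_comp hbij (fun k => c k * eval y (A k (f i)))]
    refine Finset.sum_congr rfl fun j _ => ?_
    rw [mul_comm]
    rfl)
  funext k
  obtain ⟨j, rfl⟩ := hbij.2 k
  exact congrFun h1 j

theorem SL {p q : ℕ} (ht : 2 ≤ t) (G : Fin p → Fin q → BR t)
    (h : ∀ c : Fin p → MvPolynomial (Fin t) ℂ, (∀ i, ss t ∣ ∑ k, iy (c k) * G k i) → c = 0) :
    ∃ Δ : MvPolynomial (Fin t) ℂ, Δ ≠ 0 ∧ ∀ y : Fin t → ℂ, eval y Δ ≠ 0 → ∀ c : Fin p → ℂ,
      (∀ i, ∀ w : Fin t → ℂ, ∑ j, y j * w j = 0 → ∑ k, c k * eval (Sum.elim y w) (G k i) = 0) →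
      c = 0 := by
  classical
  obtain ⟨B, hB⟩ : ∃ B : Finset (Fin t →₀ ℕ), B = Finset.univ.biUnion (fun k : Fin p =>
    Finset.univ.biUnion (fun i : Fin q => (sig ht (G k i)).support)) := ⟨_, rfl⟩
  have hsupp : ∀ k i e, e ∉ B → coeff e (sig ht (G k i)) = 0 := by
    intro k i e he
    by_contra hc
    apply he
    rw [hB, Finset.mem_biUnion]
    refine ⟨k, Finset.mem_univ _, ?_⟩
    rw [Finset.mem_biUnion]
    exact ⟨i, Finset.mem_univ _, mem_support_iff.2 hc⟩
  obtain ⟨Δ₀, hΔ₀, H⟩ := W06_minor (fun (k : Fin p) (e : Fin q × B) =>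
    coeff (e.2 : Fin t →₀ ℕ) (sig ht (G k e.1))) (by
      intro c hc
      apply h
      intro i
      apply sig_ker ht
      rw [map_sum]
      ext1 e
      rw [coeff_sum, coeff_zero]
      have h1 : ∀ k, coeff e (sig ht (iy (c k) * G k i)) = c k * coeff e (sig ht (G k i)) := by
        intro k
        rw [map_mul, sig_iy, coeff_C_mul]
      rw [Finset.sum_congr rfl (fun k _ => h1 k)]
      by_cases he : e ∈ B
      · exact hc (i, ⟨e, he⟩)
      · refine Finset.sum_eq_zero fun k _ => ?_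
        rw [hsupp k i e he, mul_zero])
  refine ⟨Δ₀ * X ⟨0, by omega⟩, mul_ne_zero hΔ₀ (X_ne_zero _), fun y hy c hc => ?_⟩
  rw [map_mul, eval_X] at hy
  have hy0 := left_ne_zero_of_mul hy
  apply H y hy0 c
  rintro ⟨i, e, he⟩
  have h2 : ∑ k, C (c k) * map (eval y) (sig ht (G k i)) = 0 := by
    refine MvPolynomial.funext fun w => ?_
    rw [map_sum, map_zero]
    rw [← hc i (fun j => if j = ⟨0, by omega⟩ then
      - ∑ i ∈ Finset.univ.erase (⟨0, by omega⟩ : Fin t), y i * w i else y ⟨0, by omega⟩ * w j) ?_]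
    · refine Finset.sum_congr rfl fun k _ => ?_
      rw [map_mul, eval_C, sig_eval]
    · rw [← Finset.add_sum_erase _ _ (Finset.mem_univ (⟨0, by omega⟩ : Fin t))]
      rw [if_pos rfl]
      have h3 : ∑ x ∈ Finset.univ.erase (⟨0, by omega⟩ : Fin t), y x * (if x = ⟨0, by omega⟩ then
          - ∑ i ∈ Finset.univ.erase (⟨0, by omega⟩ : Fin t), y i * w i else y ⟨0, by omega⟩ * w x) =
          ∑ x ∈ Finset.univ.erase (⟨0, by omega⟩ : Fin t), y ⟨0, by omega⟩ * (y x * w x) := by
        refine Finset.sum_congr rfl fun x hx => ?_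
        rw [if_neg (Finset.ne_of_mem_erase hx)]
        ring
      rw [h3, ← Finset.mul_sum]
      ring
  have h4 := congrArg (coeff e) h2
  rw [coeff_sum, coeff_zero] at h4
  rw [← h4]
  refine Finset.sum_congr rfl fun k _ => ?_
  rw [coeff_C_mul, coeff_map]

end Pool.Agent.DAng
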