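import Pool.Agent.Lib.MP_e3689b_an.W04
import Pool.Agent.Lib.MP_e3689b_an.W06

set_option autoImplicit false

namespace Pool.Agent.DAng

open MvPolynomial

variable {t M : ℕ}

/-- There are `p = rank (FL V j) - rank (FL V (j+1))` elements of `FL V j` which are independent modulo `FL V (j+1)`.
PROOF. `FL V (j+1) ≤ FL V j`. Rank of the quotient (`Submodule.finrank_quotient_add_finrank` over a domain) and a linearly independent family of that size in the quotient (`exists_linearIndependent_of_le_finrank` or similar), lifted. -/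
theorem FL_indep (V : Submodule (MvPolynomial (Fin t) ℂ) (PV t M)) (j p : ℕ)
    (hp : Module.finrank (MvPolynomial (Fin t) ℂ) (FL V (j + 1)) + p =
      Module.finrank (MvPolynomial (Fin t) ℂ) (FL V j)) :
    ∃ f : Fin p → PV t M, (∀ k, f k ∈ FL V j) ∧
      ∀ c : Fin p → MvPolynomial (Fin t) ℂ, ∑ k, c k • f k ∈ FL V (j + 1) → c = 0 := by
  have hle : FL V (j + 1) ≤ FL V j := FL_anti V (Nat.le_succ j)
  obtain ⟨N, hN⟩ : ∃ N : Submodule (MvPolynomial (Fin t) ℂ) (FL V j),
    N = (FL V (j + 1)).comap (FL V j).subtype := ⟨_, rfl⟩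
  have hN1 : Module.finrank (MvPolynomial (Fin t) ℂ) N =
      Module.finrank (MvPolynomial (Fin t) ℂ) (FL V (j + 1)) := by
    rw [hN]
    exact LinearEquiv.finrank_eq (Submodule.comapSubtypeEquivOfLe hle)
  have h1 := Submodule.finrank_quotient_add_finrank N
  have h2 : p ≤ Module.finrank (MvPolynomial (Fin t) ℂ) (FL V j ⧸ N) := by omega
  obtain ⟨g, hg⟩ := exists_linearIndependent_of_le_finrank h2
  choose u hu using fun k => Submodule.Quotient.mk_surjective N (g k)
  refine ⟨fun k => (u k : PV t M), fun k => (u k).2, fun c hc => ?_⟩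
  rw [Fintype.linearIndependent_iff] at hg
  funext k
  refine hg c ?_ k
  have h3 : ∑ k, c k • g k = N.mkQ (∑ k, c k • u k) := by
    rw [map_sum]
    refine Finset.sum_congr rfl fun k _ => ?_
    rw [map_smul, Submodule.mkQ_apply, hu]
  rw [h3, Submodule.mkQ_apply, Submodule.Quotient.mk_eq_zero, hN, Submodule.mem_comap, map_sum]
  exact hc

theorem W07_perp (V : Submodule (MvPolynomial (Fin t) ℂ) (PV t M)) {q : ℕ}
    (τ : Fin q → PV t M) (hτ : Submodule.span (MvPolynomial (Fin t) ℂ) (Set.range τ) = TT V)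
    (j : ℕ) (v : PV t M) (hv : v ∈ V) (h : ∀ i, ss t ^ j ∣ prg v (τ i)) : v ∈ FL V j := by
  refine ⟨hv, fun x hx => ?_⟩
  have hx' : x ∈ Submodule.span (MvPolynomial (Fin t) ℂ) (Set.range τ) := by
    rw [hτ]; exact hx
  clear hx
  induction hx' using Submodule.span_induction with
  | mem x hx =>
    obtain ⟨i, rfl⟩ := hx
    exact h i
  | zero => rw [prg_zero_right]; exact dvd_zero _
  | add x y _ _ hx hy =>
    rw [prg_add_right]
    exact dvd_add hx hy
  | smul c x _ hx =>
    rw [prg_smul_right]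
    exact dvd_mul_of_dvd_right hx _

/-- the completeness relation of an orthonormal basis -/
theorem W07_unit (o : Fin t → Fin t → ℂ) (ho : ON o) (j j' : Fin t) :
    ∑ a, (starRingEnd ℂ) (o a j) * o a j' = if j = j' then 1 else 0 := by
  have h1 : (Matrix.of o) * (Matrix.of fun j a => (starRingEnd ℂ) (o a j)) = 1 := by
    ext a b
    rw [Matrix.mul_apply, Matrix.one_apply]
    exact ho a b
  have h2 := mul_eq_one_comm.1 h1
  have h3 := congrFun (congrFun h2 j) j'
  rw [Matrix.mul_apply, Matrix.one_apply] at h3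
  exact h3

theorem W07_w (o : Fin t → Fin t → ℂ) (ho : ON o) (l : Fin t) (w : Fin t → ℂ)
    (hw : ∑ j, o l j * w j = 0) (j : Fin t) :
    w j = ∑ a ∈ Finset.univ.erase l, (starRingEnd ℂ) (o a j) * ∑ j', o a j' * w j' := by
  have h1 : ∑ a, (starRingEnd ℂ) (o a j) * ∑ j', o a j' * w j' = w j := by
    have h2 : ∀ a, (starRingEnd ℂ) (o a j) * ∑ j', o a j' * w j' =
        ∑ j', ((starRingEnd ℂ) (o a j) * o a j') * w j' := by
      intro a
      rw [Finset.mul_sum]
      refine Finset.sum_congr rfl fun j' _ => ?_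
      ring
    rw [Finset.sum_congr rfl fun a _ => h2 a, Finset.sum_comm]
    rw [Finset.sum_congr rfl fun j' _ => (Finset.sum_mul _ _ _).symm]
    rw [Finset.sum_congr rfl fun j' _ => by rw [W07_unit o ho j j']]
    simp
  rw [← h1, ← Finset.sum_erase_add _ _ (Finset.mem_univ l), hw, mul_zero, add_zero]

theorem W07_rho (o : Fin t → Fin t → ℂ) (ho : ON o) (l : Fin t) (w : Fin t → ℂ)
    (hw : ∑ j, o l j * w j = 0) (P : BR t) :
    eval (Sum.elim (o l) w) P = eval (fun a => ∑ j', o a j' * w j') (rho o l P) := by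
  have h : ((eval (fun a => ∑ j', o a j' * w j')).comp
      (rho o l : BR t →+* MvPolynomial (Fin t) ℂ)) = eval (Sum.elim (o l) w) := by
    apply MvPolynomial.ringHom_ext
    · intro c
      rw [RingHom.comp_apply, eval_C]
      have h2 : (rho o l : BR t →+* MvPolynomial (Fin t) ℂ) (C c) = C c := by
        rw [← algebraMap_eq, ← algebraMap_eq]
        exact (rho o l).commutes c
      rw [h2, eval_C]
    · rintro (j | j)
      · simp [rho]
      · rw [RingHom.comp_apply, eval_X, Sum.elim_inr]
        have h2 : (rho o l : BR t →+* MvPolynomial (Fin t) ℂ) (X (Sum.inr j)) =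
            ∑ a ∈ Finset.univ.erase l, C ((starRingEnd ℂ) (o a j)) * X a := by
          simp [rho]
        rw [h2, map_sum]
        rw [W07_w o ho l w hw j]
        refine Finset.sum_congr rfl fun a _ => ?_
        rw [map_mul, eval_C, eval_X]
  rw [← h]
  rfl

/-- the `i`-th component of a linear relation between encodings -/
theorem W07_enc {p q : ℕ} (o : Fin t → Fin t → ℂ) (l : Fin t) (G : Fin p → Fin q → BR t)
    (α : Fin p → ℂ) (h : ∑ k, α k • enc o l (G k) = 0) (i : Fin q) :
    ∑ k, α k • rho o l (G k i) = 0 := by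
  classical
  obtain ⟨φ, hφ⟩ : ∃ φ : MvPolynomial (Fin q ⊕ Fin t) ℂ →ₐ[ℂ] MvPolynomial (Fin t) ℂ,
    φ = aeval (Sum.elim (fun i' => if i' = i then 1 else 0) X) := ⟨_, rfl⟩
  have h1 : ∀ g : Fin q → BR t, φ (enc o l g) = rho o l (g i) := by
    intro g
    unfold enc
    rw [map_sum, Finset.sum_eq_single i]
    · rw [map_mul, hφ, aeval_X, Sum.elim_inl, if_pos rfl, one_mul, aeval_rename]
      have h3 : (Sum.elim (fun i' => if i' = i then (1 : MvPolynomial (Fin t) ℂ) else 0) X) ∘ Sum.inr =
        X := by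
        funext a
        simp
      rw [h3, aeval_X_left_apply]
    · intro b _ hb
      rw [map_mul, hφ, aeval_X, Sum.elim_inl, if_neg hb, zero_mul]
    · intro hi
      exact absurd (Finset.mem_univ i) hi
  have h2 := congrArg φ h
  rw [map_sum, map_zero] at h2
  rw [← h2]
  refine Finset.sum_congr rfl fun k _ => ?_
  rw [map_smul, h1]

/-- For a generic point the dimension of the space of leading forms is at least the drop of the ranks.
PROOF. If `rank (FL V j) ≤ rank (FL V (j+1))` take `Δ = 1`. Otherwise let `p` be the difference, `f` from `FL_indep`, `G k i` with `prg (f k) (τ i) = s^j * G k i` (`τ i ∈ TT V`). Hypothesis of `SL`: if `s ∣ ∑ k, iy (c k) * G k i` for all `i`, then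
`s^(j+1) ∣ prg (∑ k, c k • f k) (τ i)` for all `i` (`prg_sum_smul_left`), hence for all elements of `TT V = span (range τ)` (`Submodule.span_induction`, `prg_add_right`, `prg_smul_right`), so `∑ c k • f k ∈ FL V (j+1)` and `c = 0`. `Δ` from `SL`.
Let `eval (o l) Δ ≠ 0`. The elements `enc o l (G k) ∈ GS V τ o l j` are linearly independent over `ℂ`: if `∑ k, α k • enc o l (G k) = 0`, then `∑ k, C (α k) * rho o l (G k i) = 0` for all `i` (coefficients of the `X (inl i)`; e.g. apply
the homomorphism `inl i' ↦ if i' = i then 1 else 0`, `inr a ↦ X a`). If `∑ j, o l j * w j = 0`, then `w = ∑_{a ≠ l} x_a conj (o a)` with `x_a = ∑ j, o a j * w j` (`ON o`: `o` is a unitary matrix, so `∑_a conj (o a j) * o a j' = δ`), so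
`eval (Sum.elim (o l) w) P = eval x (rho o l P)` and `∑ k, α k * eval (Sum.elim (o l) w) (G k i) = 0`; so `α = 0` by `SL`. Then `p ≤ finrank (GS ..)` (`GS` finite dimensional, `LinearIndependent.fintype_card_le_finrank`). -/
theorem GS_gen (ht : 2 ≤ t) (V : Submodule (MvPolynomial (Fin t) ℂ) (PV t M)) {q : ℕ}
    (τ : Fin q → PV t M) (hτ : Submodule.span (MvPolynomial (Fin t) ℂ) (Set.range τ) = TT V)
    (j : ℕ) :
    ∃ Δ : MvPolynomial (Fin t) ℂ, Δ ≠ 0 ∧ ∀ (o : Fin t → Fin t → ℂ) (l : Fin t), ON o →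
      eval (o l) Δ ≠ 0 → FiniteDimensional ℂ (GS V τ o l j) →
      Module.finrank (MvPolynomial (Fin t) ℂ) (FL V j) ≤
        Module.finrank (MvPolynomial (Fin t) ℂ) (FL V (j + 1)) +
          Module.finrank ℂ (GS V τ o l j) := by
  rcases le_or_gt (Module.finrank (MvPolynomial (Fin t) ℂ) (FL V j))
    (Module.finrank (MvPolynomial (Fin t) ℂ) (FL V (j + 1))) with hle | hlt
  · exact ⟨1, one_ne_zero, fun o l _ _ _ => by omega⟩
  obtain ⟨p, hp⟩ := Nat.exists_eq_add_of_lt hlt
  obtain ⟨f, hf, hind⟩ := FL_indep V j (p + 1) (by omega)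
  have hτm : ∀ i, τ i ∈ TT V := fun i => by
    rw [← hτ]
    exact Submodule.subset_span ⟨i, rfl⟩
  choose G hG using fun (k : Fin (p + 1)) (i : Fin q) => (hf k).2 (τ i) (hτm i)
  obtain ⟨Δ, hΔ, hΔ2⟩ := SL ht G (by
    intro c hc
    apply hind c
    refine W07_perp V τ hτ (j + 1) _ (V.sum_mem fun k _ => V.smul_mem _ (hf k).1) fun i => ?_
    rw [prg_sum_smul_left]
    have h1 : ∑ k, iy (c k) * prg (f k) (τ i) = ss t ^ j * ∑ k, iy (c k) * G k i := by
      rw [Finset.mul_sum]
      refine Finset.sum_congr rfl fun k _ => ?_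
      rw [hG k i]
      ring
    rw [h1, pow_succ]
    exact mul_dvd_mul_left _ (hc i))
  refine ⟨Δ, hΔ, fun o l ho hl hfin => ?_⟩
  have h2 : LinearIndependent ℂ (fun k : Fin (p + 1) =>
      (⟨enc o l (G k), f k, hf k, G k, hG k, rfl⟩ : GS V τ o l j)) := by
    rw [Fintype.linearIndependent_iff]
    intro α hα k
    have h3 : ∑ k, α k • enc o l (G k) = 0 := by
      have h4 := congrArg (fun x : GS V τ o l j => (x : MvPolynomial (Fin q ⊕ Fin t) ℂ)) hα
      simpa using h4
    have h5 : α = 0 := by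
      apply hΔ2 (o l) hl α
      intro i w hw
      have h6 := W07_enc o l G α h3 i
      have h7 := congrArg (eval (fun a => ∑ j', o a j' * w j')) h6
      rw [map_sum, map_zero] at h7
      rw [← h7]
      refine Finset.sum_congr rfl fun k _ => ?_
      rw [smul_eval, W07_rho o ho l w hw]
    rw [h5]
    rfl
  have h8 := h2.fintype_card_le_finrank
  rw [Fintype.card_fin] at h8
  omega

/-- PROOF. Let `p` be the rank of `F` and `f : Fin p → PV t M` a linearly independent family in `F`. The matrix `(f k) i`, `k : Fin p`, `i : Fin M`, has independent rows over the fraction field, so some minor of size `p` (columns `g : Fin p → Fin M`) is a nonzero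
polynomial `Δ` (`V10_minor`/`R1_sel`). If `eval y Δ ≠ 0` the values of the `f k` at `y` are linearly independent. -/
theorem Fv_gen (F : Submodule (MvPolynomial (Fin t) ℂ) (PV t M)) :
    ∃ Δ : MvPolynomial (Fin t) ℂ, Δ ≠ 0 ∧ ∀ y : Fin t → ℂ, eval y Δ ≠ 0 →
      Module.finrank (MvPolynomial (Fin t) ℂ) F ≤ Module.finrank ℂ (Fv F y) := by
  obtain ⟨f, hf⟩ := exists_linearIndependent_of_le_finrank
    (le_refl (Module.finrank (MvPolynomial (Fin t) ℂ) F))
  rw [Fintype.linearIndependent_iff] at hf
  obtain ⟨Δ, hΔ, hΔ2⟩ := W06_minor (fun k (e : Fin M) => (f k : PV t M) e) (by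
    intro c hc
    funext k
    refine hf c ?_ k
    apply Subtype.ext
    rw [Submodule.coe_zero]
    funext e
    have h1 := hc e
    rw [AddSubmonoidClass.coe_finsetSum, Finset.sum_apply]
    rw [Pi.zero_apply, ← h1]
    refine Finset.sum_congr rfl fun k _ => ?_
    rfl)
  refine ⟨Δ, hΔ, fun y hy => ?_⟩
  have h2 : LinearIndependent ℂ (fun k =>
      (⟨fun e => eval y ((f k : PV t M) e), f k, (f k).2, rfl⟩ : Fv F y)) := by
    rw [Fintype.linearIndependent_iff]
    intro α hα k
    have h5 : α = 0 := by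
      apply hΔ2 y hy α
      intro e
      have h4 := congrArg (fun x : Fv F y => (x : Fin M → ℂ) e) hα
      simpa using h4
    rw [h5]
    rfl
  have h8 := h2.fintype_card_le_finrank
  rw [Fintype.card_fin] at h8
  exact h8

end Pool.Agent.DAng
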