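import Pool.Agent.Lib.MP_e3689b_an.WD
import Pool.Agent.Lib.MP_e3689b_an.Mg.G019

set_option autoImplicit false

namespace Pool.Agent.DAng

open MvPolynomial

/-- A generic orthonormal basis.
PROOF. `P = ∏ l, rename (fun j => (l, j)) Δ : MvPolynomial (Fin t × Fin t) ℂ` is not zero (`rename_injective`, `Finset.prod_ne_zero_iff`), so by `U3` there is a unitary matrix `U` with `eval (fun ij => U ij.1 ij.2) P ≠ 0`. `o l j = U l j`: the rows of a unitary matrix are
orthonormal (`Matrix.mem_unitaryGroup_iff : U * star U = 1`). -/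
theorem exists_frame {t : ℕ} (Δ : MvPolynomial (Fin t) ℂ) (h : Δ ≠ 0) :
    ∃ o : Fin t → Fin t → ℂ, ON o ∧ ∀ l, eval (o l) Δ ≠ 0 := by
  classical
  set P : MvPolynomial (Fin t × Fin t) ℂ := ∏ l : Fin t, rename (fun j => (l, j)) Δ with hP
  have hP0 : P ≠ 0 := by
    rw [hP, Finset.prod_ne_zero_iff]
    intro l _
    have hinj : Function.Injective (fun j : Fin t => (l, j)) := fun a b hab => (Prod.mk.inj hab).2
    intro h0
    apply h
    apply rename_injective _ hinj
    rw [h0, map_zero]
  have hex : ∃ U : Matrix (Fin t) (Fin t) ℂ, U ∈ Matrix.unitaryGroup (Fin t) ℂ ∧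
      eval (fun ij : Fin t × Fin t => U ij.1 ij.2) P ≠ 0 := by
    by_contra hcon
    push Not at hcon
    exact hP0 (U3 P hcon)
  obtain ⟨U, hU, hne⟩ := hex
  refine ⟨fun l j => U l j, ?_, ?_⟩
  · intro l l'
    have h1 := (Matrix.mem_unitaryGroup_iff).1 hU
    have h2 := congrFun (congrFun h1 l) l'
    rw [Matrix.mul_apply, Matrix.one_apply] at h2
    rw [← h2]
    refine Finset.sum_congr rfl fun j _ => ?_
    rw [Matrix.star_apply]
    rfl
  · intro l h0
    apply hne
    rw [hP, map_prod]
    refine Finset.prod_eq_zero (Finset.mem_univ l) ?_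
    rw [eval_rename]
    exact h0

end Pool.Agent.DAng
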