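import Pool.Agent.Lib.MP_e3689b_an.W01

set_option autoImplicit false

namespace Pool.Agent.DAng

open MvPolynomial

variable {t M : ℕ}

/-- evaluation at the points `o l`, `conj (o l')` -/
noncomputable def evo (o : Fin t → Fin t → ℂ) (l l' : Fin t) : BR t →+* ℂ :=
  eval (Sum.elim (o l) (fun j => (starRingEnd ℂ) (o l' j)))

theorem evo_ss (o : Fin t → Fin t → ℂ) (ho : ON o) (l l' : Fin t) (h : l ≠ l') :
    evo o l l' (ss t) = 0 := by
  unfold evo ss
  rw [map_sum]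
  have h1 := ho l l'
  rw [if_neg h] at h1
  rw [← h1]
  refine Finset.sum_congr rfl fun j _ => ?_
  rw [map_mul, eval_X, eval_X]
  rfl

theorem evo_lw (o : Fin t → Fin t → ℂ) (ho : ON o) (l l' a : Fin t) :
    evo o l l' (lw (o a)) = if a = l' then 1 else 0 := by
  unfold evo lw
  rw [map_sum, ← ho a l']
  refine Finset.sum_congr rfl fun j _ => ?_
  rw [map_mul, eval_X, eval_C]
  rfl

theorem evo_ly (o : Fin t → Fin t → ℂ) (ho : ON o) (l l' a : Fin t) :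
    evo o l l' (ly (o a)) = if l = a then 1 else 0 := by
  unfold evo ly
  rw [map_sum, ← ho l a]
  refine Finset.sum_congr rfl fun j _ => ?_
  rw [map_mul, eval_X, eval_C, mul_comm]
  rfl

theorem orth1 (o : Fin t → Fin t → ℂ) (ho : ON o) (l l' : Fin t) (h : l ≠ l') (P : BR t)
    (hP : ss t ∣ P) : evo o l l' P = 0 := by
  obtain ⟨g, rfl⟩ := hP
  rw [map_mul, evo_ss o ho l l' h, zero_mul]

theorem W09_lb (D : Derivation ℂ (BR t) (BR t)) (x y : BR t) : D (x * y) = D x * y + x * D y := by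
  rw [Derivation.leibniz, smul_eq_mul, smul_eq_mul]
  ring

theorem W09_C (D : Derivation ℂ (BR t) (BR t)) (c : ℂ) (x : BR t) :
    D (C c * x) = C c * D x := by
  rw [W09_lb, derivation_C, zero_mul, zero_add]

theorem W09_w2 (c c' : Fin t → ℂ) (g : BR t) : ∃ h : BR t,
    Dw c (Dw c' (ss t ^ 2 * g)) = C 2 * (ly c * (ly c' * g)) + ss t * h := by
  have e1 : Dw c' (ss t ^ 2 * g) = C 2 * (ss t * (ly c' * g)) + ss t * (ss t * Dw c' g) := by
    rw [pow_two, mul_assoc, W09_lb, W09_lb, Dw_ss, map_ofNat C 2]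
    ring
  rw [e1]
  refine ⟨C 2 * (ly c' * Dw c g) + 2 * (ly c * Dw c' g) + ss t * Dw c (Dw c' g), ?_⟩
  rw [map_add, W09_C, W09_lb, W09_lb, W09_lb, W09_lb, Dw_ss, Dw_ly]
  ring

theorem W09_y2 (c c' : Fin t → ℂ) (g : BR t) : ∃ h : BR t,
    Dy c (Dy c' (ss t ^ 2 * g)) = C 2 * (lw c * (lw c' * g)) + ss t * h := by
  have e1 : Dy c' (ss t ^ 2 * g) = C 2 * (ss t * (lw c' * g)) + ss t * (ss t * Dy c' g) := by
    rw [pow_two, mul_assoc, W09_lb, W09_lb, Dy_ss, map_ofNat C 2]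
    ring
  rw [e1]
  refine ⟨C 2 * (lw c' * Dy c g) + 2 * (lw c * Dy c' g) + ss t * Dy c (Dy c' g), ?_⟩
  rw [map_add, W09_C, W09_lb, W09_lb, W09_lb, W09_lb, Dy_ss, Dy_lw]
  ring

/-- PROOF. `P = s^2 g`. `Dw b P = 2 s ly(b) g + s^2 Dw b g`; `Dw a (Dw b P) = 2 ly(a) ly(b) g + s * (..)` (`Dw_ss`, `Dw_ly`). The value is `2 [l = a] [l = b] (..) = 0`. -/
theorem orth2w (o : Fin t → Fin t → ℂ) (ho : ON o) (l l' a b : Fin t) (h : l ≠ l') (hab : a ≠ b)
    (P : BR t) (hP : ss t ^ 2 ∣ P) : evo o l l' (Dw (o a) (Dw (o b) P)) = 0 := by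
  obtain ⟨g, rfl⟩ := hP
  obtain ⟨k, hk⟩ := W09_w2 (o a) (o b) g
  rw [hk, map_add, map_mul, map_mul, map_mul, map_mul, evo_ss o ho l l' h, evo_ly o ho,
    evo_ly o ho]
  by_cases h1 : l = a
  · have h2 : l ≠ b := fun h2 => hab (h1.symm.trans h2)
    rw [if_neg h2]
    ring
  · rw [if_neg h1]
    ring

theorem orth2y (o : Fin t → Fin t → ℂ) (ho : ON o) (l l' a b : Fin t) (h : l ≠ l') (hab : a ≠ b)
    (P : BR t) (hP : ss t ^ 2 ∣ P) : evo o l l' (Dy (o a) (Dy (o b) P)) = 0 := by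
  obtain ⟨g, rfl⟩ := hP
  obtain ⟨k, hk⟩ := W09_y2 (o a) (o b) g
  rw [hk, map_add, map_mul, map_mul, map_mul, map_mul, evo_ss o ho l l' h, evo_lw o ho,
    evo_lw o ho]
  by_cases h1 : a = l'
  · have h2 : b ≠ l' := fun h2 => hab (h1.trans h2.symm)
    rw [if_neg h2]
    ring
  · rw [if_neg h1]
    ring

theorem W09_w3 (c c' : Fin t → ℂ) (g : BR t) : ∃ h : BR t,
    Dw c (Dw c' (ss t ^ 3 * g)) = ss t * (C 6 * (ly c * (ly c' * g))) + ss t * (ss t * h) := by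
  have e1 : Dw c' (ss t ^ 3 * g) =
      C 3 * (ss t * (ss t * (ly c' * g))) + ss t * (ss t * (ss t * Dw c' g)) := by
    have e0 : ss t ^ 3 * g = ss t * (ss t * (ss t * g)) := by ring
    rw [e0, W09_lb, W09_lb, W09_lb, Dw_ss, map_ofNat C 3]
    ring
  rw [e1]
  refine ⟨C 3 * (ly c' * Dw c g) + 3 * (ly c * Dw c' g) + ss t * Dw c (Dw c' g), ?_⟩
  rw [map_add, W09_C, W09_lb, W09_lb, W09_lb, W09_lb, W09_lb, W09_lb, Dw_ss, Dw_ly,
    map_ofNat C 3, map_ofNat C 6]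
  ring

theorem W09_Dly (o : Fin t → Fin t → ℂ) (ho : ON o) (a b : Fin t) :
    Dy (o a) (ly (o b)) = C (if a = b then 1 else 0) := by
  rw [Dy_ly, ho a b]

theorem W09_sp (x : BR t) (D D' : Derivation ℂ (BR t) (BR t)) : ∃ k : BR t,
    D (D' (ss t * x)) = D (D' (ss t)) * x + D' (ss t) * D x + D (ss t) * D' x + ss t * k := by
  refine ⟨D (D' x), ?_⟩
  rw [W09_lb, map_add, W09_lb, W09_lb]
  ring

/-- PROOF. `P = s^3 g`. With `α' = ly (o a')`, `β' = ly (o b')`, `α = lw (o a)`, `β = lw (o b)`: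
`Dw b' P = 3 s^2 β' g + s^3 Dw b' g`;  `Dw a' (Dw b' P) = s * (6 α' β' g) + s^2 * h` with `h = 3 β' (Dw a' g) + 3 α' (Dw b' g) + s * Dw a' (Dw b' g)` (`Dw_ss`, `Dw_ly`).
`Dy b` of this: `6 β α' β' g + s * (6 (Dy b α') β' g + 6 α' (Dy b β') g + 6 α' β' (Dy b g) + 2 β h) + s^2 * Dy b h`, (`Dy_ss`, `Dy_ly`: `Dy b α' = C (∑ o b j conj (o a' j)) = C [b = a']` by `ho`).
`Dy a` of this, evaluated with `s = 0`: `6 β (Dy a α' β' g + α' Dy a β' g + α' β' Dy a g) + α (6 [b = a'] β' g + 6 α' [b = b'] g + 6 α' β' (Dy b g) + 2 β h)` (`Dy_lw`). Values: `α' = [l = a']`, `β' = [l = b']`, `α = [a = l']`, `β = [b = l']`;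
`α' β' = 0` as `a' ≠ b'`, `α β = 0` as `a ≠ b`; the other four terms vanish by `h1`, ..., `h4`. -/
theorem orth3 (o : Fin t → Fin t → ℂ) (ho : ON o) (l l' a b a' b' : Fin t) (h : l ≠ l')
    (hab : a ≠ b) (hab' : a' ≠ b') (h1 : ¬ (b = l' ∧ a = a' ∧ l = b')) (h2 : ¬ (b = l' ∧ l = a' ∧ a = b'))
    (h3 : ¬ (a = l' ∧ b = a' ∧ l = b')) (h4 : ¬ (a = l' ∧ l = a' ∧ b = b'))
    (P : BR t) (hP : ss t ^ 3 ∣ P) :
    evo o l l' (Dy (o a) (Dy (o b) (Dw (o a') (Dw (o b') P)))) = 0 := by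
  obtain ⟨g, rfl⟩ := hP
  obtain ⟨k, hk⟩ := W09_w3 (o a') (o b') g
  obtain ⟨k1, hk1⟩ := W09_sp (C 6 * (ly (o a') * (ly (o b') * g))) (Dy (o a)) (Dy (o b))
  obtain ⟨k2, hk2⟩ := W09_sp (ss t * k) (Dy (o a)) (Dy (o b))
  rw [hk, map_add, map_add, hk1, hk2, W09_C, W09_C, W09_lb, W09_lb, W09_lb, W09_lb, W09_lb,
    W09_lb, Dy_ss, Dy_ss, Dy_lw, W09_Dly o ho, W09_Dly o ho, W09_Dly o ho, W09_Dly o ho]
  simp only [map_add, map_mul, evo_ss o ho l l' h, evo_ly o ho, evo_lw o ho, map_zero]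
  have hC : ∀ c : ℂ, evo o l l' (C c) = c := fun c => by
    unfold evo
    rw [eval_C]
  simp only [hC]
  have e1 : (if l = a' then (1 : ℂ) else 0) * (if l = b' then (1 : ℂ) else 0) = 0 := by
    by_cases q : l = a'
    · rw [if_neg (fun q' : l = b' => hab' (q.symm.trans q')), mul_zero]
    · rw [if_neg q, zero_mul]
  have e2 : (if a = l' then (1 : ℂ) else 0) * (if b = l' then (1 : ℂ) else 0) = 0 := by
    by_cases q : a = l'
    · rw [if_neg (fun q' : b = l' => hab (q.trans q'.symm)), mul_zero]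
    · rw [if_neg q, zero_mul]
  have e3 : (if b = l' then (1 : ℂ) else 0) * (if a = a' then (1 : ℂ) else 0) *
      (if l = b' then (1 : ℂ) else 0) = 0 := by
    by_cases q1 : b = l'
    · by_cases q2 : a = a'
      · rw [if_neg (fun q3 : l = b' => h1 ⟨q1, q2, q3⟩), mul_zero]
      · rw [if_neg q2, mul_zero, zero_mul]
    · rw [if_neg q1, zero_mul, zero_mul]
  have e4 : (if b = l' then (1 : ℂ) else 0) * (if l = a' then (1 : ℂ) else 0) *
      (if a = b' then (1 : ℂ) else 0) = 0 := by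
    by_cases q1 : b = l'
    · by_cases q2 : l = a'
      · rw [if_neg (fun q3 : a = b' => h2 ⟨q1, q2, q3⟩), mul_zero]
      · rw [if_neg q2, mul_zero, zero_mul]
    · rw [if_neg q1, zero_mul, zero_mul]
  have e5 : (if a = l' then (1 : ℂ) else 0) * (if b = a' then (1 : ℂ) else 0) *
      (if l = b' then (1 : ℂ) else 0) = 0 := by
    by_cases q1 : a = l'
    · by_cases q2 : b = a'
      · rw [if_neg (fun q3 : l = b' => h3 ⟨q1, q2, q3⟩), mul_zero]
      · rw [if_neg q2, mul_zero, zero_mul]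
    · rw [if_neg q1, zero_mul, zero_mul]
  have e6 : (if a = l' then (1 : ℂ) else 0) * (if l = a' then (1 : ℂ) else 0) *
      (if b = b' then (1 : ℂ) else 0) = 0 := by
    by_cases q1 : a = l'
    · by_cases q2 : l = a'
      · rw [if_neg (fun q3 : b = b' => h4 ⟨q1, q2, q3⟩), mul_zero]
      · rw [if_neg q2, mul_zero, zero_mul]
    · rw [if_neg q1, zero_mul, zero_mul]
  generalize (if l = a' then (1 : ℂ) else 0) = x1 at *
  generalize (if l = b' then (1 : ℂ) else 0) = x2 at *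
  generalize (if a = l' then (1 : ℂ) else 0) = x3 at *
  generalize (if b = l' then (1 : ℂ) else 0) = x4 at *
  generalize (if a = a' then (1 : ℂ) else 0) = x5 at *
  generalize (if a = b' then (1 : ℂ) else 0) = x6 at *
  generalize (if b = a' then (1 : ℂ) else 0) = x7 at *
  generalize (if b = b' then (1 : ℂ) else 0) = x8 at *
  linear_combination (6 * x4 * evo o l l' (Dy (o a) g) + 6 * x3 * evo o l l' (Dy (o b) g)) * e1 +
    2 * evo o l l' k * e2 + 6 * evo o l l' g * (e3 + e4 + e5 + e6)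

/-- PROOF. `evo o l l' (prg v v') = ∑ k, eval (o l) (v k) * conj (eval (o l') (v' k))`. -/
theorem evo_prg (o : Fin t → Fin t → ℂ) (l l' : Fin t) (v v' : PV t M) :
    evo o l l' (prg v v') = ∑ k, eval (o l) (v k) * (starRingEnd ℂ) (eval (o l') (v' k)) := by
  unfold evo prg
  rw [map_sum]
  refine Finset.sum_congr rfl fun k _ => ?_
  rw [map_mul, W01_ev_iy, W01_ev_iw]

end Pool.Agent.DAng
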