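import Pool.Agent.Lib.MP_e3689b_an.W03
import Pool.Agent.Lib.MP_e3689b_an.W09

set_option autoImplicit false

namespace Pool.Agent.DAng

open MvPolynomial

variable {t M : ℕ}

/-- Arithmetic of the star. PROOF. `4 ≤ t`, addition in `Fin t`: write `l`, `b` as natural numbers (`Fin.ext_iff`, `Fin.val_add`, `Fin.val_one'`, `Nat.add_mod`; split the cases `l + 1 < t`, `l + 1 = t`) and `omega`.
First: `l + 1 ≠ b` from `Qs`. (h1) `l + 1 = l' + 1` gives `l = l'`. (h2) `b = l'`, `l = l' + 1` contradicts `b + 1 ≠ l`. (h3) `l + 1 = l'`, `l = b'` contradicts `b' + 1 ≠ l'`. (h4) `l + 1 = l'`, `l' + 1 = l` gives `l + 2 = l`. -/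
theorem Qs_arith [NeZero t] (ht : 4 ≤ t) (l l' b b' : Fin t) (h : l ≠ l') (hb : b ∈ Qs l)
    (hb' : b' ∈ Qs l') :
    l + 1 ≠ b ∧ l + 1 ≠ l ∧ ¬ (b = l' ∧ l + 1 = l' + 1 ∧ l = b') ∧
      ¬ (b = l' ∧ l = l' + 1 ∧ l + 1 = b') ∧ ¬ (l + 1 = l' ∧ b = l' + 1 ∧ l = b') ∧
      ¬ (l + 1 = l' ∧ l = l' + 1 ∧ b = b') := by
  have hbl := (Finset.mem_filter.1 hb).2
  have hbl' := (Finset.mem_filter.1 hb').2
  have h1 : (1 : Fin t) ≠ 0 := by
    intro h0
    have := congrArg Fin.val h0
    rw [Fin.val_one', Fin.val_zero, Nat.mod_eq_of_lt (by omega)] at this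
    omega
  have h2 : (1 : Fin t) + 1 ≠ 0 := by
    intro h0
    have := congrArg Fin.val h0
    rw [Fin.val_add, Fin.val_one', Fin.val_zero, Nat.mod_eq_of_lt (by omega : 1 < t),
      Nat.mod_eq_of_lt (by omega)] at this
    omega
  refine ⟨fun h0 => hbl.2.1 h0.symm, fun h0 => h1 (by simpa using h0), ?_, ?_, ?_, ?_⟩
  · rintro ⟨_, h0, _⟩
    exact h (add_right_cancel h0)
  · rintro ⟨h0, h3, _⟩
    exact hbl.2.2 (by rw [h0, h3])
  · rintro ⟨h0, _, h3⟩
    exact hbl'.2.2 (by rw [← h3, h0])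
  · rintro ⟨h0, h3, _⟩
    rw [← h0, add_assoc] at h3
    exact h2 (by simpa using h3)

/-- PROOF. the three excluded values `l`, `l + 1`, `l - 1` are different for `t ≥ 3` (the complement of `Qs l` is `{l, l + 1, l - 1}`). -/
theorem Qs_card [NeZero t] (ht : 4 ≤ t) (l : Fin t) : (Qs l).card = t - 3 := by
  have h1 : (1 : Fin t) ≠ 0 := by
    intro h0
    have := congrArg Fin.val h0
    rw [Fin.val_one', Fin.val_zero, Nat.mod_eq_of_lt (by omega)] at this
    omega
  have h2 : (1 : Fin t) + 1 ≠ 0 := by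
    intro h0
    have := congrArg Fin.val h0
    rw [Fin.val_add, Fin.val_one', Fin.val_zero, Nat.mod_eq_of_lt (by omega : 1 < t),
      Nat.mod_eq_of_lt (by omega)] at this
    omega
  have h3 : Qs l = Finset.univ \ {l, l + 1, l - 1} := by
    ext b
    simp only [Qs, Finset.mem_filter, Finset.mem_univ, true_and, Finset.mem_sdiff,
      Finset.mem_insert, Finset.mem_singleton, not_or]
    constructor
    · rintro ⟨a1, a2, a3⟩
      exact ⟨a1, a2, fun h => a3 (by rw [h, sub_add_cancel])⟩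
    · rintro ⟨a1, a2, a3⟩
      exact ⟨a1, a2, fun h => a3 (by rw [← h, add_sub_cancel_right])⟩
  have h4 : ({l, l + 1, l - 1} : Finset (Fin t)).card = 3 := by
    rw [Finset.card_eq_three]
    refine ⟨l, l + 1, l - 1, ?_, ?_, ?_, rfl⟩
    · intro h
      exact h1 (by simpa using h)
    · intro h
      have h5 : l + 1 = l := by
        nth_rewrite 1 [h]
        rw [sub_add_cancel]
      exact h1 (by simpa using h5)
    · intro h
      have h5 : l + (1 + 1) = l := by
        rw [← add_assoc, h, sub_add_cancel]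
      exact h2 (by simpa using h5)
  rw [h3, Finset.card_sdiff_of_subset (Finset.subset_univ _), h4, Finset.card_univ, Fintype.card_fin]

/-- induction over the generators of `W_l` -/
theorem W10_gen [NeZero t] (V : Submodule (MvPolynomial (Fin t) ℂ) (PV t M))
    (o : Fin t → Fin t → ℂ) (l : Fin t) (P : (Fin M → ℂ) → Prop) (h0 : P 0)
    (hadd : ∀ x y, P x → P y → P (x + y)) (hsmul : ∀ (c : ℂ) x, P x → P (c • x))
    (h1 : ∀ v ∈ V, P (fun k => eval (o l) (v k)))
    (h2 : ∀ v ∈ FL V 2, ∀ b ∈ Qs l,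
      P (fun k => eval (o l) (dv (o (l + 1)) (dv (o b) v) k)))
    (x : Fin M → ℂ) (hx : x ∈ Wl V o l) : P x := by
  obtain ⟨y, hy, z, hz, rfl⟩ := Submodule.mem_sup.1 hx
  refine hadd _ _ ?_ ?_
  · obtain ⟨v, hv, rfl⟩ := hy
    exact h1 v hv
  · clear hx
    induction hz using Submodule.span_induction with
    | mem z hz =>
      obtain ⟨v, hv, b, hb, rfl⟩ := hz
      exact h2 v hv b hb
    | zero => exact h0
    | add x y _ _ hx hy => exact hadd _ _ hx hy
    | smul c x _ hx => exact hsmul c x hx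

/-- THE SPACES `W_l` ARE ORTHOGONAL.
PROOF. By sesquilinearity (`Submodule.mem_sup`, `Submodule.span_induction`) it is enough to consider generators: values `x = v(o l)` with `v ∈ V` or `x = (D_{l+1} D_b v)(o l)`, `v ∈ FL V 2`, `b ∈ Qs l`, the same for `x'`. By `evo_prg` the sum is
`evo o l l' (prg u u')`, with `prg (dv a (dv b v)) v' = Dy a (Dy b (prg v v'))` and `prg v (dv a' (dv b' v')) = Dw a' (Dw b' (prg v v'))` (`Dy_prg`, `Dw_prg`). Cases: `V`, `V`: `orth1`. `V`, second: `s^2 ∣ prg v v'` (`FL_two`, `dvd_swap`), `orth2w`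
(`l' + 1 ≠ b'`). second, `V`: `orth2y`. second, second: `FL_two_two`, `orth3`, `Qs_arith`. -/
theorem Wl_orth [NeZero t] (ht : 4 ≤ t) (V : Submodule (MvPolynomial (Fin t) ℂ) (PV t M))
    (hV : IsoV V) (o : Fin t → Fin t → ℂ) (ho : ON o) (l l' : Fin t) (h : l ≠ l')
    (x x' : Fin M → ℂ) (hx : x ∈ Wl V o l) (hx' : x' ∈ Wl V o l') :
    ∑ k, x k * (starRingEnd ℂ) (x' k) = 0 := by
  have hyy : ∀ (a b : Fin t → ℂ) (v v' : PV t M),
      prg (dv a (dv b v)) v' = Dy a (Dy b (prg v v')) := by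
    intro a b v v'
    rw [Dy_prg, Dy_prg]
  have hww : ∀ (a b : Fin t → ℂ) (v v' : PV t M),
      prg v (dv a (dv b v')) = Dw a (Dw b (prg v v')) := by
    intro a b v v'
    rw [Dw_prg, Dw_prg]
  revert x'
  refine W10_gen V o l
    (fun x => ∀ x', x' ∈ Wl V o l' → ∑ k, x k * (starRingEnd ℂ) (x' k) = 0) ?_ ?_ ?_ ?_ ?_ x hx
  · intro x' _
    simp
  · intro x y h1 h2 x' hx'
    rw [← add_zero (0 : ℂ)]
    nth_rewrite 1 [← h1 x' hx']
    rw [← h2 x' hx', ← Finset.sum_add_distrib]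
    refine Finset.sum_congr rfl fun k _ => ?_
    rw [Pi.add_apply, add_mul]
  · intro c x h1 x' hx'
    rw [← mul_zero c, ← h1 x' hx', Finset.mul_sum]
    refine Finset.sum_congr rfl fun k _ => ?_
    rw [Pi.smul_apply, smul_eq_mul, mul_assoc]
  · intro v hv
    refine W10_gen V o l' (fun x' => ∑ k, eval (o l) (v k) * (starRingEnd ℂ) (x' k) = 0)
      ?_ ?_ ?_ ?_ ?_
    · simp
    · intro x y h1 h2
      rw [← add_zero (0 : ℂ)]
      nth_rewrite 1 [← h1]
      rw [← h2, ← Finset.sum_add_distrib]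
      refine Finset.sum_congr rfl fun k _ => ?_
      rw [Pi.add_apply, map_add, mul_add]
    · intro c x h1
      rw [← mul_zero ((starRingEnd ℂ) c), ← h1, Finset.mul_sum]
      refine Finset.sum_congr rfl fun k _ => ?_
      rw [Pi.smul_apply, smul_eq_mul, map_mul]
      ring
    · intro v' hv'
      rw [← evo_prg]
      exact orth1 o ho l l' h _ (hV v hv v' hv')
    · intro v' hv' b' hb'
      rw [← evo_prg, hww]
      refine orth2w o ho l l' (l' + 1) b' h (fun h0 => (Finset.mem_filter.1 hb').2.2.1 h0.symm) _ ?_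
      exact dvd_swap _ _ 2 (FL_two V v' v hv' hv)
  · intro v hv b hb
    refine W10_gen V o l' (fun x' => ∑ k, eval (o l) (dv (o (l + 1)) (dv (o b) v) k) *
      (starRingEnd ℂ) (x' k) = 0) ?_ ?_ ?_ ?_ ?_
    · simp
    · intro x y h1 h2
      rw [← add_zero (0 : ℂ)]
      nth_rewrite 1 [← h1]
      rw [← h2, ← Finset.sum_add_distrib]
      refine Finset.sum_congr rfl fun k _ => ?_
      rw [Pi.add_apply, map_add, mul_add]
    · intro c x h1
      rw [← mul_zero ((starRingEnd ℂ) c), ← h1, Finset.mul_sum]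
      refine Finset.sum_congr rfl fun k _ => ?_
      rw [Pi.smul_apply, smul_eq_mul, map_mul]
      ring
    · intro v' hv'
      rw [← evo_prg, hyy]
      refine orth2y o ho l l' (l + 1) b h (fun h0 => (Finset.mem_filter.1 hb).2.2.1 h0.symm) _ ?_
      exact FL_two V v v' hv hv'
    · intro v' hv' b' hb'
      rw [← evo_prg, hyy, hww]
      obtain ⟨a1, a2, a3, a4, a5, a6⟩ := Qs_arith ht l l' b b' h hb hb'
      exact orth3 o ho l l' (l + 1) b (l' + 1) b' h a1
        (fun h0 => (Finset.mem_filter.1 hb').2.2.1 h0.symm) a3 a4 a5 a6 _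
        (FL_two_two (by omega) V v v' hv hv')

/-- PROOF. For mutually orthogonal subspaces `W_l` of `ℂ^M` (positive definite form `∑ x_k conj(x'_k)`) the sum of the dimensions is at most `M`: the map `∏ W_l → ℂ^M`, `(x_l) ↦ ∑ x_l` is injective (`∑ x_l = 0` gives `∑_k |x_l k|^2 = 0` by pairing with
`x_l`), so `∑ finrank W_l = finrank (∏ W_l) ≤ M` (`Module.finrank_pi_fintype`, `LinearMap.finrank_le_finrank_of_injective`). -/
theorem Wl_sum [NeZero t] (ht : 4 ≤ t) (V : Submodule (MvPolynomial (Fin t) ℂ) (PV t M))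
    (hV : IsoV V) (o : Fin t → Fin t → ℂ) (ho : ON o) :
    ∑ l, Module.finrank ℂ (Wl V o l) ≤ M := by
  let Φ : (∀ l, Wl V o l) →ₗ[ℂ] (Fin M → ℂ) :=
    ∑ l, (Wl V o l).subtype.comp (LinearMap.proj l)
  have hΦ : ∀ x, Φ x = ∑ l, (x l : Fin M → ℂ) := by
    intro x
    simp [Φ]
  have hinj : Function.Injective Φ := by
    rw [injective_iff_map_eq_zero]
    intro x hx
    rw [hΦ] at hx
    funext l
    have h1 : ∑ k, (x l : Fin M → ℂ) k * (starRingEnd ℂ) ((x l : Fin M → ℂ) k) = 0 := by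
      have h2 : ∑ k, (∑ l', (x l' : Fin M → ℂ)) k * (starRingEnd ℂ) ((x l : Fin M → ℂ) k) = 0 := by
        rw [hx]
        simp
      rw [← h2]
      have h3 : ∀ k, (∑ l', (x l' : Fin M → ℂ)) k * (starRingEnd ℂ) ((x l : Fin M → ℂ) k) =
          ∑ l', (x l' : Fin M → ℂ) k * (starRingEnd ℂ) ((x l : Fin M → ℂ) k) := by
        intro k
        rw [Finset.sum_apply, Finset.sum_mul]
      rw [Finset.sum_congr rfl fun k _ => h3 k, Finset.sum_comm, Finset.sum_eq_single l]
      · intro l' _ hl'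
        exact Wl_orth ht V hV o ho l' l hl' _ _ (x l').2 (x l).2
      · intro hl
        exact absurd (Finset.mem_univ l) hl
    have h4 : ∑ k, ‖(x l : Fin M → ℂ) k‖ ^ 2 = 0 := by
      have h5 : ((∑ k, ‖(x l : Fin M → ℂ) k‖ ^ 2 : ℝ) : ℂ) = 0 := by
        rw [← h1]
        push_cast
        refine Finset.sum_congr rfl fun k _ => ?_
        rw [Complex.mul_conj, Complex.normSq_eq_norm_sq]
        push_cast
        rfl
      exact_mod_cast h5
    apply Subtype.ext
    funext k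
    have h6 := (Finset.sum_eq_zero_iff_of_nonneg (fun k _ => by positivity)).1 h4 k
      (Finset.mem_univ k)
    have h7 : ‖(x l : Fin M → ℂ) k‖ = 0 := by simpa using h6
    exact norm_eq_zero.1 h7
  have h1 := LinearMap.finrank_le_finrank_of_injective hinj
  rw [Module.finrank_pi_fintype, Module.finrank_fin_fun] at h1
  exact h1

end Pool.Agent.DAng
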