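import Pool.Agent.Lib.MP_e3689b_an.W04
import Pool.Agent.Lib.MP_e3689b_an.Mg.G009

set_option autoImplicit false

namespace Pool.Agent.DAng

open MvPolynomial

variable {t M : ℕ}

/-- the test map -/
noncomputable def tst {q : ℕ} (τ : Fin q → PV t M) (o : Fin t → Fin t → ℂ) (l : Fin t) :
    (Fin M → ℂ) →ₗ[ℂ] MvPolynomial (Fin q ⊕ Fin t) ℂ :=
  ∑ i : Fin q, ∑ k : Fin M, (LinearMap.proj (R := ℂ) (φ := fun _ : Fin M => ℂ) k).smulRight
    (X (Sum.inl i) * rename Sum.inr (rho o l (iw (τ i k))))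

theorem W11_rho_C (o : Fin t → Fin t → ℂ) (l : Fin t) (c : ℂ) : rho o l (C c) = C c := by
  have h := (rho o l).commutes c
  rw [MvPolynomial.algebraMap_eq, MvPolynomial.algebraMap_eq] at h
  exact h

theorem W11_rho_iy (o : Fin t → Fin t → ℂ) (l : Fin t) (G : MvPolynomial (Fin t) ℂ) :
    rho o l (iy G) = C (eval (o l) G) := by
  induction G using MvPolynomial.induction_on with
  | C c => rw [iy_C, W11_rho_C, eval_C]
  | add p q hp hq => rw [map_add, map_add, map_add, hp, hq, C_add]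
  | mul_X p i hp =>
    rw [map_mul, map_mul, hp, iy_X, map_mul, eval_X, C_mul]
    congr 1
    unfold rho
    rw [aeval_X]
    rfl

theorem W11_apply {q : ℕ} (τ : Fin q → PV t M) (o : Fin t → Fin t → ℂ) (l : Fin t)
    (x : Fin M → ℂ) : tst τ o l x =
      ∑ i, ∑ k, x k • (X (Sum.inl i) * rename Sum.inr (rho o l (iw (τ i k)))) := by
  unfold tst
  rw [LinearMap.sum_apply]
  refine Finset.sum_congr rfl fun i _ => ?_
  rw [LinearMap.sum_apply]
  rfl

/-- PROOF. `rho o l (iy G) = C (eval (o l) G)` (induction); expand `rho o l (prg v (τ i)) = ∑ k, C (eval (o l) (v k)) * rho o l (iw (τ i k))`. -/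
theorem tst_val {q : ℕ} (τ : Fin q → PV t M) (o : Fin t → Fin t → ℂ) (l : Fin t) (v : PV t M) :
    tst τ o l (fun k => eval (o l) (v k)) =
      ∑ i, X (Sum.inl i) * rename Sum.inr (rho o l (prg v (τ i))) := by
  rw [W11_apply]
  refine Finset.sum_congr rfl fun i _ => ?_
  unfold prg
  rw [map_sum, map_sum, Finset.mul_sum]
  refine Finset.sum_congr rfl fun k _ => ?_
  rw [map_mul, map_mul, W11_rho_iy, rename_C, smul_eq_C_mul]
  ring

/-- PROOF. `tst_val`; `v ∈ V = FL V 1` (`FL_one`), so `s ∣ prg v (τ i)`, `rho_ss`. -/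
theorem tst_V {q : ℕ} (V : Submodule (MvPolynomial (Fin t) ℂ) (PV t M)) (hV : IsoV V)
    (τ : Fin q → PV t M) (hτ : ∀ i, τ i ∈ TT V) (o : Fin t → Fin t → ℂ) (ho : ON o) (l : Fin t)
    (x : Fin M → ℂ) (hx : x ∈ Fv V (o l)) : tst τ o l x = 0 := by
  obtain ⟨v, hv, rfl⟩ := hx
  rw [tst_val]
  refine Finset.sum_eq_zero fun i _ => ?_
  have h1 : v ∈ FL V 1 := by
    rw [FL_one V hV]
    exact hv
  obtain ⟨g, hg⟩ := h1.2 (τ i) (hτ i)
  rw [hg, pow_one, map_mul, rho_ss o ho l, zero_mul, map_zero, mul_zero]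

theorem W11_lb (D : Derivation ℂ (BR t) (BR t)) (x y : BR t) : D (x * y) = D x * y + x * D y := by
  rw [Derivation.leibniz, smul_eq_mul, smul_eq_mul]
  ring

theorem W11_C (D : Derivation ℂ (BR t) (BR t)) (c : ℂ) (x : BR t) :
    D (C c * x) = C c * D x := by
  rw [W11_lb, derivation_C, zero_mul, zero_add]

theorem W11_y2 (c c' : Fin t → ℂ) (g : BR t) : ∃ h : BR t,
    Dy c (Dy c' (ss t ^ 2 * g)) = C 2 * (lw c * (lw c' * g)) + ss t * h := by
  have e1 : Dy c' (ss t ^ 2 * g) = C 2 * (ss t * (lw c' * g)) + ss t * (ss t * Dy c' g) := by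
    rw [pow_two, mul_assoc, W11_lb, W11_lb, Dy_ss, map_ofNat C 2]
    ring
  rw [e1]
  refine ⟨C 2 * (lw c' * Dy c g) + 2 * (lw c * Dy c' g) + ss t * Dy c (Dy c' g), ?_⟩
  rw [map_add, W11_C, W11_lb, W11_lb, W11_lb, W11_lb, Dy_ss, Dy_lw]
  ring

/-- PROOF. `tst_val`; `prg (dv a (dv b v)) (τ i) = Dy a (Dy b (s^2 g i)) = 2 lw(a) lw(b) g i + s * (..)` (`Dy_prg`, `Dy_ss`, `Dy_lw`, Leibniz); `rho_ss`, `rho_lw`; `enc`. -/
theorem tst_D {q : ℕ} (τ : Fin q → PV t M) (o : Fin t → Fin t → ℂ) (ho : ON o) (l a b : Fin t)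
    (ha : a ≠ l) (hb : b ≠ l) (v : PV t M) (g : Fin q → BR t)
    (hg : ∀ i, prg v (τ i) = ss t ^ 2 * g i) :
    tst τ o l (fun k => eval (o l) (dv (o a) (dv (o b) v) k)) =
      C 2 * (X (Sum.inr a) * (X (Sum.inr b) * enc o l g)) := by
  rw [tst_val]
  unfold enc
  rw [Finset.mul_sum, Finset.mul_sum, Finset.mul_sum]
  refine Finset.sum_congr rfl fun i _ => ?_
  obtain ⟨h, hh⟩ := W11_y2 (o a) (o b) (g i)
  rw [← Dy_prg, ← Dy_prg, hg i, hh, map_add, map_mul (rho o l) (ss t), rho_ss o ho l, zero_mul,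
    add_zero, map_mul (rho o l), map_mul (rho o l), map_mul (rho o l), W11_rho_C,
    rho_lw o ho l a ha, rho_lw o ho l b hb, map_mul, map_mul, map_mul, rename_C, rename_X,
    rename_X]
  ring

theorem W11_mem [NeZero t] (ht : 4 ≤ t) (V : Submodule (MvPolynomial (Fin t) ℂ) (PV t M))
    {q : ℕ} (τ : Fin q → PV t M) (o : Fin t → Fin t → ℂ)
    (ho : ON o) (l b : Fin t) (hb : b ∈ Qs l) (P : MvPolynomial (Fin q ⊕ Fin t) ℂ)
    (hP : P ∈ GS V τ o l 2) :
    X (Sum.inr (l + 1)) * (X (Sum.inr b) * P) ∈ (Wl V o l).map (tst τ o l) := by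
  obtain ⟨v, hv, g, hg, rfl⟩ := hP
  have hl : l + 1 ≠ l := by
    intro h
    have h1 : (1 : Fin t) = 0 := add_eq_left.mp h
    have h2 := congrArg Fin.val h1
    rw [Fin.val_one', Fin.val_zero, Nat.mod_eq_of_lt (by omega)] at h2
    exact one_ne_zero h2
  have hbl : b ≠ l := by
    unfold Qs at hb
    exact (Finset.mem_filter.mp hb).2.1
  have h1 := tst_D τ o ho l (l + 1) b hl hbl v g hg
  refine ⟨(1 / 2 : ℂ) • (fun k => eval (o l) (dv (o (l + 1)) (dv (o b) v) k)), ?_, ?_⟩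
  · refine Submodule.smul_mem _ _ (Submodule.mem_sup_right (Submodule.subset_span ?_))
    exact ⟨v, hv, b, hb, rfl⟩
  · rw [map_smul, h1, smul_eq_C_mul, ← mul_assoc, ← C_mul]
    norm_num

/-- LOWER BOUND for the dimension of `W_l`.
PROOF. Let `Z = (Wl V o l).map (tst τ o l)` (finite dimensional). The kernel of `tst` restricted to `Wl V o l` contains `Fv V (o l)` (`tst_V`), so by rank-nullity `finrank (Fv V (o l)) + finrank Z ≤ finrank (Wl V o l)`. For `P ∈ GS V τ o l 2` and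
`b ∈ Qs l`: `X (inr (l+1)) * (X (inr b) * P) ∈ Z` (`tst_D`, scale by `1/2`; `l + 1 ≠ l` and `b ≠ l`). So for `m ∈ lead mo (GS V τ o l 2)`: `m + single (inr b) 1 + single (inr (l+1)) 1 ∈ lead mo Z` (degree of a product:
`MonomialOrder.degree_mul`, `degree_X`). The image of `bdT (act (Qs l)) Y` under the injective map `m ↦ m + single (inr (l+1)) 1` consists of leading exponents of `Z`: `lead_card`. (`bdT` and `act`: unfold.) -/
theorem Wl_lower [NeZero t] (ht : 4 ≤ t) (V : Submodule (MvPolynomial (Fin t) ℂ) (PV t M))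
    (hV : IsoV V) {q : ℕ} (τ : Fin q → PV t M) (hτ : ∀ i, τ i ∈ TT V) (o : Fin t → Fin t → ℂ)
    (ho : ON o) (l : Fin t) (mo : MonomialOrder.{0, 0} (Fin q ⊕ Fin t))
    (Y : Finset ((Fin q ⊕ Fin t) →₀ ℕ)) (hY : ∀ m ∈ Y, m ∈ lead mo (GS V τ o l 2)) :
    Module.finrank ℂ (Fv V (o l)) + (bdT (act (Qs l)) Y).card ≤ Module.finrank ℂ (Wl V o l) := by
  classical
  have hFW : Fv V (o l) ≤ Wl V o l := le_sup_left
  -- rank-nullity
  have h1 := LinearMap.finrank_range_add_finrank_ker ((tst τ o l).domRestrict (Wl V o l))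
  rw [LinearMap.range_domRestrict] at h1
  have h2 : Module.finrank ℂ (Fv V (o l)) ≤
      Module.finrank ℂ (LinearMap.ker ((tst τ o l).domRestrict (Wl V o l))) := by
    have hinj : Function.Injective (LinearMap.codRestrict
        (LinearMap.ker ((tst τ o l).domRestrict (Wl V o l))) (Submodule.inclusion hFW)
        (fun x => by
          rw [LinearMap.mem_ker, LinearMap.domRestrict_apply]
          exact tst_V V hV τ hτ o ho l _ x.2)) := by
      intro x y hxy
      have h := congrArg Subtype.val hxy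
      exact Submodule.inclusion_injective hFW h
    exact LinearMap.finrank_le_finrank_of_injective hinj
  -- leading exponents
  have h3 : (bdT (act (Qs l)) Y).card ≤ Module.finrank ℂ ((Wl V o l).map (tst τ o l)) := by
    have hcard : ((bdT (act (Qs l)) Y).image
        (fun m => m + Finsupp.single (Sum.inr (l + 1)) 1)).card = (bdT (act (Qs l)) Y).card :=
      Finset.card_image_of_injective _ (add_left_injective _)
    rw [← hcard]
    refine lead_card mo _ _ ?_
    intro m' hm'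
    obtain ⟨m1, hm1, rfl⟩ := Finset.mem_image.mp hm'
    simp only [bdT, Finset.mem_biUnion, Finset.mem_image] at hm1
    obtain ⟨s, hs, m, hm, rfl⟩ := hm1
    unfold act at hs
    obtain ⟨b, hb, rfl⟩ := Finset.mem_map.mp hs
    obtain ⟨P, hP, hP0, rfl⟩ := hY m hm
    refine ⟨X (Sum.inr (l + 1)) * (X (Sum.inr b) * P), W11_mem ht V τ o ho l b hb P hP,
      mul_ne_zero (X_ne_zero _) (mul_ne_zero (X_ne_zero _) hP0), ?_⟩
    rw [MonomialOrder.degree_mul (X_ne_zero _) (mul_ne_zero (X_ne_zero _) hP0),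
      MonomialOrder.degree_mul (X_ne_zero _) hP0, MonomialOrder.degree_X, MonomialOrder.degree_X]
    simp only [Function.Embedding.coeFn_mk]
    abel
  omega

end Pool.Agent.DAng
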