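import Pool.Agent.Lib.MP_e3689b_an.W05
import Pool.Agent.Lib.MP_e3689b_an.W07
import Pool.Agent.Lib.MP_e3689b_an.W08
import Pool.Agent.Lib.MP_e3689b_an.W10
import Pool.Agent.Lib.MP_e3689b_an.W11
import Pool.Agent.Lib.MP_e3689b_an.Mg.G007

set_option autoImplicit false

namespace Pool.Agent.DAng

open MvPolynomial

variable {t M : ℕ}

theorem W12_le (f x : ℕ → ℕ) (D : ℕ) (h1 : ∀ j, 1 ≤ j → f j ≤ f (j + 1) + x j)
    (h2 : ∀ j, D < j → f j = 0) : ∀ n j, 1 ≤ j → D + 1 - j ≤ n → f j ≤ ∑ i ∈ Finset.Icc j D, x i := by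
  intro n
  induction n with
  | zero =>
    intro j _ hn
    rw [h2 j (by omega)]
    exact Nat.zero_le _
  | succ n ih =>
    intro j hj hn
    rcases Nat.lt_or_ge D j with h | h
    · rw [h2 j h]
      exact Nat.zero_le _
    · have e : Finset.Icc j D = insert j (Finset.Icc (j + 1) D) := by
        ext i
        simp only [Finset.mem_insert, Finset.mem_Icc]
        omega
      rw [e, Finset.sum_insert (by simp)]
      have h3 := ih (j + 1) (by omega) (by omega)
      have h4 := h1 j hj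
      omega

/-- Downward induction and exchange of the sums. -/
theorem W12_sum (f x : ℕ → ℕ) (D : ℕ) (h1 : ∀ j, 1 ≤ j → f j ≤ f (j + 1) + x j)
    (h2 : ∀ j, D < j → f j = 0) :
    ∑ j ∈ Finset.Icc 2 D, f j ≤ ∑ i ∈ Finset.Icc 2 D, (i - 1) * x i := by
  calc ∑ j ∈ Finset.Icc 2 D, f j ≤ ∑ j ∈ Finset.Icc 2 D, ∑ i ∈ Finset.Icc j D, x i := by
        refine Finset.sum_le_sum fun j hj => ?_
        rw [Finset.mem_Icc] at hj
        exact W12_le f x D h1 h2 (D + 1 - j) j (by omega) le_rfl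
    _ = ∑ i ∈ Finset.Icc 2 D, ∑ j ∈ Finset.Icc 2 i, x i := by
        refine Finset.sum_comm' fun a b => ?_
        simp only [Finset.mem_Icc]
        omega
    _ = ∑ i ∈ Finset.Icc 2 D, (i - 1) * x i := by
        refine Finset.sum_congr rfl fun i _ => ?_
        rw [Finset.sum_const, Nat.card_Icc, smul_eq_mul]
        congr 1

/-- Downward induction. -/
theorem W12_sum2 (e x : ℕ → ℕ) (D : ℕ) (h1 : ∀ j, 1 ≤ j → x j + e (j + 1) ≤ e j) :
    ∑ i ∈ Finset.Icc 1 D, x i ≤ e 1 := by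
  have h : ∀ D, ∑ i ∈ Finset.Icc 1 D, x i + e (D + 1) ≤ e 1 := by
    intro D
    induction D with
    | zero => simp
    | succ D ih =>
      have e1 : Finset.Icc 1 (D + 1) = insert (D + 1) (Finset.Icc 1 D) := by
        ext i
        simp only [Finset.mem_insert, Finset.mem_Icc]
        omega
      rw [e1, Finset.sum_insert (by simp)]
      have := h1 (D + 1) (by omega)
      omega
  have := h D
  omega

/-- THE LOCAL PART.
PROOF. `IsoV (Fc 1)` is `h1`; `exists_max` gives `V`; `Fc_le`. `D₁` from `FL_bot`, `D' = max D D₁`, so `FL V j = ⊥` for `j > D'`. `TT V` is finitely generated (Noetherian): `τ : Fin q → PV t M` with `span (range τ) = TT V`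
(`Submodule.fg_iff_exists_fin_generating_family`). Let `Δ` be the product of the `Δ_j` of `GS_gen`, `j ∈ range (D'+1)`, and of the polynomial of `Fv_gen` for `V`; `exists_frame` gives `o`. By `Wl_sum` and the pigeonhole principle there is `l` with
`t * finrank (Wl V o l) ≤ M` (`Finset.exists_le_of_sum_le` or: the minimum). `mo = MonomialOrder.lex` on `Fin q ⊕ Fin t` (a linear order on the sum type is needed: use `toLex`-free order `Sum.Lex`, or `(MonomialOrder.lex ..)` through an equivalence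
`Fin q ⊕ Fin t ≃ Fin (q + t)`; or `MonomialOrder.degLex`; any monomial order on the finite type `Fin q ⊕ Fin t` will do, e.g. choose a linear order with `WellFoundedGT` on the type by transport along `finSumFinEquiv`). `S j = (lead_finite mo (GS V τ o l j)).toFinset`, so
`(S j).card = finrank (GS ..j)` (`lead_ncard`, finite dimensional by `GS_val`). `A = act (univ.erase l)` (card `t - 1`), `Q = act (Qs l) ⊆ A` (card `t - 3`: `Qs_card`). `bdT A (S (j+1)) ⊆ S j`: `lead_mul`, `GS_X`. `S j = ∅` for `j > D'`: `GS V τ o l j = ⊥`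
because `FL V j = ⊥` (`v = 0`, `s^j g i = 0`, `g i = 0`). `ν = finrank (Fv V (o l))`. The last inequality: `Wl_lower`. `∑_{j ∈ Icc 1 D'} (S j).card ≤ ν`: `W12_sum2` with `e j = finrank (Fv (FL V j) (o l))` and `GS_val`; `FL V 1 = V` (`FL_one`).
`d`: `r j ≤ finrank (Fc j) ≤ finrank (FL V j) =: f j` (independent families, `Fc_le`), so `d ≤ ∑_{j ∈ Icc 1 D} f j ≤ f 1 + ∑_{j ∈ Icc 2 D'} f j`; `f 1 = finrank V ≤ ν` by `Fv_gen`; `W12_sum` with `x j = (S j).card` (`GS_gen`; for `j > D'` both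
`f j` vanish). -/
theorem LOCAL {d D : ℕ} (ht : 4 ≤ t) (r : ℕ → ℕ)
    (Fc : ℕ → Submodule (MvPolynomial (Fin t) ℂ) (PV t M)) (b : ∀ j, Fin (r j) → PV t M)
    (h1 : ∀ v ∈ Fc 1, ∀ v' ∈ Fc 1, ss t ∣ prg v v')
    (h2 : ∀ j, 1 ≤ j → Fc (j + 1) ≤ Fc j)
    (h3 : ∀ j, 1 ≤ j → ∀ v ∈ Fc (j + 1), ∀ i, dv (Pi.single i 1) v ∈ Fc j)
    (h4 : ∀ j, LinearIndependent (MvPolynomial (Fin t) ℂ) (b j)) (h5 : ∀ j i, b j i ∈ Fc j)
    (hd : d ≤ ∑ j ∈ Finset.Icc 1 D, r j) :
    ∃ (q ν D' : ℕ) (A Q : Finset (Fin q ⊕ Fin t)) (S : ℕ → Finset ((Fin q ⊕ Fin t) →₀ ℕ)),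
      A.card = t - 1 ∧ Q ⊆ A ∧ Q.card = t - 3 ∧ (∀ j, 1 ≤ j → bdT A (S (j + 1)) ⊆ S j) ∧
      (∀ j, D' < j → S j = ∅) ∧ d ≤ ν + ∑ j ∈ Finset.Icc 2 D', (j - 1) * (S j).card ∧
      ∑ j ∈ Finset.Icc 1 D', (S j).card ≤ ν ∧ t * (ν + (bdT Q (S 2)).card) ≤ M := by
  classical
  have : NeZero t := ⟨by omega⟩
  have ht2 : 2 ≤ t := by omega
  obtain ⟨V, hFV, hV, hm⟩ := exists_max (Fc 1) h1
  obtain ⟨D₁, hD₁⟩ := FL_bot ht2 V
  obtain ⟨q, τ, hτ⟩ := Submodule.fg_iff_exists_fin_generating_family.1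
    (IsNoetherian.noetherian (TT V))
  have hτm : ∀ i, τ i ∈ TT V := fun i => hτ ▸ Submodule.subset_span ⟨i, rfl⟩
  obtain ⟨D', hD'⟩ : ∃ D', D' = max D D₁ := ⟨_, rfl⟩
  have hbot : ∀ j, D' < j → FL V j = ⊥ := fun j hj => hD₁ j (by omega)
  -- genericity
  choose Δ hΔ0 hΔ using fun j => GS_gen ht2 V τ hτ j
  obtain ⟨Δv, hΔv0, hΔv⟩ := Fv_gen V
  obtain ⟨o, ho, hol⟩ := exists_frame (Δv * ∏ j ∈ Finset.range (D' + 1), Δ j)
    (mul_ne_zero hΔv0 (Finset.prod_ne_zero_iff.2 fun j _ => hΔ0 j))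
  have hov : ∀ l, eval (o l) Δv ≠ 0 := by
    intro l hc
    apply hol l
    rw [map_mul, hc, zero_mul]
  have hoj : ∀ l, ∀ j ≤ D', eval (o l) (Δ j) ≠ 0 := by
    intro l j hj hc
    apply hol l
    rw [map_mul, map_prod, Finset.prod_eq_zero (Finset.mem_range.2 (Nat.lt_succ_of_le hj)) hc,
      mul_zero]
  -- pigeonhole
  have hsum := Wl_sum ht V hV o ho
  obtain ⟨l, hl⟩ : ∃ l, t * Module.finrank ℂ (Wl V o l) ≤ M := by
    by_contra hc
    push Not at hc
    have hne : (Finset.univ : Finset (Fin t)).Nonempty := ⟨⟨0, by omega⟩, Finset.mem_univ _⟩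
    have h6 : ∑ _l : Fin t, M < ∑ l : Fin t, t * Module.finrank ℂ (Wl V o l) :=
      Finset.sum_lt_sum_of_nonempty hne fun l _ => hc l
    rw [← Finset.mul_sum, Finset.sum_const, Finset.card_univ, Fintype.card_fin, smul_eq_mul] at h6
    have h7 := Nat.lt_of_mul_lt_mul_left h6
    omega
  -- monomial order
  obtain ⟨mo⟩ : Nonempty (MonomialOrder.{0, 0} (Fin q ⊕ Fin t)) := by
    let lo : LinearOrder (Fin q ⊕ Fin t) :=
      LinearOrder.lift' finSumFinEquiv finSumFinEquiv.injective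
    exact ⟨@MonomialOrder.lex (Fin q ⊕ Fin t) lo
      (@Finite.to_wellFoundedGT (Fin q ⊕ Fin t) _ lo.toPreorder)⟩
  have hfd : ∀ j, FiniteDimensional ℂ (GS V τ o l j) := fun j =>
    (GS_val ht2 V τ hτm o ho l j).1
  have hfin : ∀ j, (lead mo (GS V τ o l j)).Finite := fun j => by
    have := hfd j
    exact lead_finite mo _
  obtain ⟨S, hS⟩ : ∃ S : ℕ → Finset ((Fin q ⊕ Fin t) →₀ ℕ), S = fun j => (hfin j).toFinset :=
    ⟨_, rfl⟩
  have hSm : ∀ j m, m ∈ S j ↔ m ∈ lead mo (GS V τ o l j) := fun j m => by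
    rw [hS]
    exact Set.Finite.mem_toFinset _
  have hSc : ∀ j, (S j).card = Module.finrank ℂ (GS V τ o l j) := fun j => by
    have := hfd j
    rw [hS]
    exact lead_ncard mo _
  have hFL1 : FL V 1 = V := FL_one V hV
  refine ⟨q, Module.finrank ℂ (Fv V (o l)), D', act (Finset.univ.erase l), act (Qs l), S,
    ?_, ?_, ?_, ?_, ?_, ?_, ?_, ?_⟩
  · rw [act, Finset.card_map, Finset.card_erase_of_mem (Finset.mem_univ _), Finset.card_univ,
      Fintype.card_fin]
  · intro x hx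
    rw [act, Finset.mem_map] at hx ⊢
    obtain ⟨b, hb, rfl⟩ := hx
    refine ⟨b, ?_, rfl⟩
    rw [Qs, Finset.mem_filter] at hb
    exact Finset.mem_erase.2 ⟨hb.2.1, Finset.mem_univ _⟩
  · rw [act, Finset.card_map, Qs_card ht]
  · intro j hj x hx
    rw [mem_bdT] at hx
    obtain ⟨s, hs, m, hm', rfl⟩ := hx
    rw [act, Finset.mem_map] at hs
    obtain ⟨a, ha, rfl⟩ := hs
    rw [hSm] at hm' ⊢
    exact lead_mul mo _ _ _ (fun P hP => GS_X V hV hm τ o ho l a (Finset.ne_of_mem_erase ha) j hj P hP)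
      m hm'
  · intro j hj
    rw [Finset.eq_empty_iff_forall_notMem]
    intro m hm'
    rw [hSm] at hm'
    obtain ⟨P, hP, hP0, -⟩ := hm'
    obtain ⟨v, hv, g, hg, rfl⟩ := hP
    apply hP0
    rw [hbot j hj, Submodule.mem_bot] at hv
    unfold enc
    refine Finset.sum_eq_zero fun i _ => ?_
    have h6 := hg i
    rw [hv, prg_zero_left] at h6
    have h7 : g i = 0 := by
      rcases mul_eq_zero.1 h6.symm with h8 | h8
      · exact absurd h8 (pow_ne_zero _ (ss_prime ht2).ne_zero)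
      · exact h8
    rw [h7, map_zero, map_zero, mul_zero]
  · -- degree
    have hr : ∀ j, 1 ≤ j → r j ≤ Module.finrank (MvPolynomial (Fin t) ℂ) (FL V j) := by
      intro j hj
      have hle := Fc_le ht2 V hV Fc hFV h2 h3 j hj
      have hli : LinearIndependent (MvPolynomial (Fin t) ℂ)
          (fun i : Fin (r j) => (⟨b j i, hle (h5 j i)⟩ : FL V j)) := by
        refine LinearIndependent.of_comp (FL V j).subtype ?_
        exact h4 j
      have h6 := hli.fintype_card_le_finrank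
      rwa [Fintype.card_fin] at h6
    have hz : ∀ j, D' < j → Module.finrank (MvPolynomial (Fin t) ℂ) (FL V j) = 0 := by
      intro j hj
      rw [hbot j hj]
      exact finrank_bot _ _
    have hf : ∀ j, 1 ≤ j → Module.finrank (MvPolynomial (Fin t) ℂ) (FL V j) ≤
        Module.finrank (MvPolynomial (Fin t) ℂ) (FL V (j + 1)) + (S j).card := by
      intro j hj
      rcases Nat.lt_or_ge D' j with h | h
      · rw [hz j h]
        exact Nat.zero_le _
      · rw [hSc]
        exact hΔ j o l ho (hoj l j h) (hfd j)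
    have h6 : d ≤ ∑ j ∈ Finset.Icc 1 D', Module.finrank (MvPolynomial (Fin t) ℂ) (FL V j) := by
      refine hd.trans (le_trans (Finset.sum_le_sum fun j hj => hr j (Finset.mem_Icc.1 hj).1) ?_)
      refine Finset.sum_le_sum_of_subset ?_
      intro j hj
      rw [Finset.mem_Icc] at hj ⊢
      omega
    have h7 : Module.finrank (MvPolynomial (Fin t) ℂ) (FL V 1) ≤ Module.finrank ℂ (Fv V (o l)) := by
      rw [hFL1]
      exact hΔv (o l) (hov l)
    have h8 := W12_sum (fun j => Module.finrank (MvPolynomial (Fin t) ℂ) (FL V j))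
      (fun j => (S j).card) D' hf hz
    rcases Nat.eq_zero_or_pos D' with h0 | hpos
    · rw [h0] at h6
      simp at h6
      omega
    · have e1 : Finset.Icc 1 D' = insert 1 (Finset.Icc 2 D') := by
        ext i
        simp only [Finset.mem_insert, Finset.mem_Icc]
        omega
      rw [e1, Finset.sum_insert (by simp)] at h6
      exact h6.trans (add_le_add h7 h8)
  · have h6 := W12_sum2 (fun j => Module.finrank ℂ (Fv (FL V j) (o l))) (fun j => (S j).card) D'
      (fun j _ => by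
        rw [hSc]
        exact (GS_val ht2 V τ hτm o ho l j).2)
    have h7 : ∑ i ∈ Finset.Icc 1 D', (S i).card ≤
      Module.finrank ℂ (Fv (FL V 1) (o l)) := h6
    rw [hFL1] at h7
    exact h7
  · refine le_trans (Nat.mul_le_mul_left t ?_) hl
    exact Wl_lower ht V hV τ hτm o ho l mo (S 2) (fun m hm' => (hSm 2 m).1 hm')

end Pool.Agent.DAng
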