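import Pool.Agent.Lib.MP_e3689b_an.Mg.G006
import Pool.Agent.Lib.MP_e3689b_an.W12
import Pool.Agent.Lib.MP_e3689b_an.Mg.G008
import Pool.Agent.Lib.MP_e3689b_an.Mg.G010
import Pool.Agent.Lib.MP_e3689b_an.T2

set_option autoImplicit false

namespace Pool.Agent.DAng

open MvPolynomial

/-- THEOREM T: the exponential range. -/
theorem thmT {m N d : ℕ} (hm : 4 ≤ m) (hN : N ≤ 2 ^ (m + 1))
    (p : Fin N → MvPolynomial (Fin (m + 1)) ℂ) (q : MvPolynomial (Fin (m + 1)) ℂ)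
    (hred : ∀ r : MvPolynomial (Fin (m + 1)) ℂ, r ∣ q → (∀ j, r ∣ p j) → IsUnit r)
    (hq : ∀ z : Fin (m + 1) → ℂ, ∑ i, ‖z i‖ ^ 2 ≤ 1 → eval z q ≠ 0)
    (hs : ∀ z : Fin (m + 1) → ℂ, ∑ i, ‖z i‖ ^ 2 = 1 → ∑ j, ‖eval z (p j) / eval z q‖ ^ 2 = 1)
    (hd : max (Finset.univ.sup (fun j => (p j).totalDegree)) q.totalDegree = d) :
    m * d + 1 ≤ N := by
  obtain ⟨M, D, r, Fc, b, hMN, h1, h2, h3, h4, h5, hd'⟩ :=
    GLOB (by omega : 2 ≤ m) _ (V26_good p q hred hq hs hd)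
  obtain ⟨q', ν, D', A, Q, S, hA, hQA, hQ, hS, -, hdν, hν, hM⟩ :=
    LOCAL hm r Fc b h1 h2 h3 h4 h5 hd'
  obtain ⟨r', hr'⟩ : ∃ r', m = r' + 1 := ⟨m - 1, by omega⟩
  subst hr'
  exact TC_comb r' (by omega) A Q (by omega) hQA (by omega) S hS ν d D' N hν hdν
    ((Nat.succ_le_succ hM).trans hMN) hN

end Pool.Agent.DAng
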