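import Pool.Agent.Lib.MP_e3689b_an.TD

set_option autoImplicit false

/-!
# Definitions for the local part of Theorem T

`V` is a submodule of `ℂ[y]^M` with `⟨V, V⟩ ⊆ (s)`, `RR V = {v ∈ V | ⟨v, V⟩ ⊆ (s^2)}`,
`TT V = V + ℂ[y] D(RR V)` (the test vectors) and `FL V j = {v ∈ V | ⟨v, TT V⟩ ⊆ (s^j)}`.
-/

namespace Pool.Agent.DAng

open MvPolynomial

section basic
variable {t M : ℕ}

theorem iw_add (G H : MvPolynomial (Fin t) ℂ) : iw (G + H) = iw G + iw H := by
  simp [iw, cj]

theorem iw_mul (G H : MvPolynomial (Fin t) ℂ) : iw (G * H) = iw G * iw H := by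
  simp [iw, cj]

theorem iw_zero : iw (0 : MvPolynomial (Fin t) ℂ) = 0 := by
  simp [iw, cj]

theorem iw_C (c : ℂ) : iw (C c : MvPolynomial (Fin t) ℂ) = C ((starRingEnd ℂ) c) := by
  simp [iw, cj]

theorem iw_X (j : Fin t) : iw (X j : MvPolynomial (Fin t) ℂ) = X (Sum.inr j) := by
  simp [iw, cj]

theorem iy_X (j : Fin t) : iy (X j : MvPolynomial (Fin t) ℂ) = X (Sum.inl j) := by
  simp [iy]

theorem iy_C (c : ℂ) : iy (C c : MvPolynomial (Fin t) ℂ) = C c := by
  simp [iy]

theorem prg_add_left (v v₁ v' : PV t M) : prg (v + v₁) v' = prg v v' + prg v₁ v' := by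
  unfold prg
  rw [← Finset.sum_add_distrib]
  refine Finset.sum_congr rfl fun k _ => ?_
  rw [Pi.add_apply, map_add, add_mul]

theorem prg_add_right (v v' v₁ : PV t M) : prg v (v' + v₁) = prg v v' + prg v v₁ := by
  unfold prg
  rw [← Finset.sum_add_distrib]
  refine Finset.sum_congr rfl fun k _ => ?_
  rw [Pi.add_apply, iw_add, mul_add]

theorem prg_zero_left (v' : PV t M) : prg 0 v' = 0 := by
  unfold prg
  simp

theorem prg_zero_right (v : PV t M) : prg v 0 = 0 := by
  unfold prg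
  simp [iw_zero]

theorem prg_smul_left (c : MvPolynomial (Fin t) ℂ) (v v' : PV t M) :
    prg (c • v) v' = iy c * prg v v' := by
  unfold prg
  rw [Finset.mul_sum]
  refine Finset.sum_congr rfl fun k _ => ?_
  rw [Pi.smul_apply, smul_eq_mul, map_mul, mul_assoc]

theorem prg_smul_right (c : MvPolynomial (Fin t) ℂ) (v v' : PV t M) :
    prg v (c • v') = iw c * prg v v' := by
  unfold prg
  rw [Finset.mul_sum]
  refine Finset.sum_congr rfl fun k _ => ?_
  rw [Pi.smul_apply, smul_eq_mul, iw_mul]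
  ring

end basic

section defs
variable {t M : ℕ}

/-- the directional derivative in `y` -/
noncomputable def Dy (c : Fin t → ℂ) : Derivation ℂ (BR t) (BR t) := ∑ a, c a • pderiv (Sum.inl a)

/-- the directional derivative in `w` (conjugated direction) -/
noncomputable def Dw (c : Fin t → ℂ) : Derivation ℂ (BR t) (BR t) :=
  ∑ a, ((starRingEnd ℂ) (c a)) • pderiv (Sum.inr a)

/-- the linear form `∑ c_a w_a` -/
noncomputable def lw (c : Fin t → ℂ) : BR t := ∑ a, C (c a) * X (Sum.inr a)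

/-- the linear form `∑ conj(c_a) y_a` -/
noncomputable def ly (c : Fin t → ℂ) : BR t := ∑ a, C ((starRingEnd ℂ) (c a)) * X (Sum.inl a)

/-- exchange of `y` and `w` and conjugation of the coefficients -/
noncomputable def sw : BR t →+* BR t := (rename Sum.swap).toRingHom.comp (map (starRingEnd ℂ))

/-- `⟨V, V⟩ ⊆ (s)` -/
def IsoV (V : Submodule (MvPolynomial (Fin t) ℂ) (PV t M)) : Prop :=
  ∀ v ∈ V, ∀ v' ∈ V, ss t ∣ prg v v'

/-- `V` is maximal with `⟨V, V⟩ ⊆ (s)` -/
def MaxV (V : Submodule (MvPolynomial (Fin t) ℂ) (PV t M)) : Prop :=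
  ∀ V' : Submodule (MvPolynomial (Fin t) ℂ) (PV t M), V ≤ V' → IsoV V' → V' ≤ V

/-- the elements of `V` whose pairings with all elements of `T` are divisible by `s^j` -/
noncomputable def perp (V : Submodule (MvPolynomial (Fin t) ℂ) (PV t M)) (T : Set (PV t M)) (j : ℕ) :
    Submodule (MvPolynomial (Fin t) ℂ) (PV t M) where
  carrier := {v | v ∈ V ∧ ∀ τ ∈ T, ss t ^ j ∣ prg v τ}
  add_mem' := by
    rintro a b ⟨ha, ha'⟩ ⟨hb, hb'⟩
    refine ⟨V.add_mem ha hb, fun τ hτ => ?_⟩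
    rw [prg_add_left]
    exact dvd_add (ha' τ hτ) (hb' τ hτ)
  zero_mem' := ⟨V.zero_mem, fun τ _ => by rw [prg_zero_left]; exact dvd_zero _⟩
  smul_mem' := by
    rintro c a ⟨ha, ha'⟩
    refine ⟨V.smul_mem c ha, fun τ hτ => ?_⟩
    rw [prg_smul_left]
    exact dvd_mul_of_dvd_right (ha' τ hτ) _

/-- `{v ∈ V | ⟨v, V⟩ ⊆ (s^2)}` -/
noncomputable def RR (V : Submodule (MvPolynomial (Fin t) ℂ) (PV t M)) :
    Submodule (MvPolynomial (Fin t) ℂ) (PV t M) := perp V V 2

/-- the test vectors: `V` and the derivatives of the elements of `RR V` -/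
noncomputable def TT (V : Submodule (MvPolynomial (Fin t) ℂ) (PV t M)) :
    Submodule (MvPolynomial (Fin t) ℂ) (PV t M) :=
  V ⊔ Submodule.span (MvPolynomial (Fin t) ℂ) {x | ∃ v ∈ RR V, ∃ c : Fin t → ℂ, x = dv c v}

/-- the filtration -/
noncomputable def FL (V : Submodule (MvPolynomial (Fin t) ℂ) (PV t M)) (j : ℕ) :
    Submodule (MvPolynomial (Fin t) ℂ) (PV t M) := perp V (TT V) j

/-- the values at the point `y` of the elements of `F` -/
noncomputable def Fv (F : Submodule (MvPolynomial (Fin t) ℂ) (PV t M)) (y : Fin t → ℂ) :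
    Submodule ℂ (Fin M → ℂ) where
  carrier := {x | ∃ v ∈ F, x = fun k => eval y (v k)}
  add_mem' := by
    rintro a b ⟨v, hv, rfl⟩ ⟨v', hv', rfl⟩
    refine ⟨v + v', F.add_mem hv hv', ?_⟩
    funext k
    simp
  zero_mem' := ⟨0, F.zero_mem, by funext k; simp⟩
  smul_mem' := by
    rintro c a ⟨v, hv, rfl⟩
    refine ⟨(C c : MvPolynomial (Fin t) ℂ) • v, F.smul_mem _ hv, ?_⟩
    funext k
    simp

/-- orthonormal basis of `ℂ^t` -/
def ON (o : Fin t → Fin t → ℂ) : Prop :=
  ∀ l l', ∑ j, o l j * (starRingEnd ℂ) (o l' j) = if l = l' then 1 else 0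

/-- evaluation at `y = o l`, `w = ∑_{a ≠ l} X_a conj(o a)` -/
noncomputable def rho (o : Fin t → Fin t → ℂ) (l : Fin t) : BR t →ₐ[ℂ] MvPolynomial (Fin t) ℂ :=
  aeval (Sum.elim (fun j => C (o l j))
    (fun j => ∑ a ∈ Finset.univ.erase l, C ((starRingEnd ℂ) (o a j)) * X a))

/-- the encoding of a vector of leading forms in one polynomial -/
noncomputable def enc {q : ℕ} (o : Fin t → Fin t → ℂ) (l : Fin t) (g : Fin q → BR t) :
    MvPolynomial (Fin q ⊕ Fin t) ℂ := ∑ i, X (Sum.inl i) * rename Sum.inr (rho o l (g i))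

/-- the space of the leading forms of level `j` at the point `o l` -/
noncomputable def GS (V : Submodule (MvPolynomial (Fin t) ℂ) (PV t M)) {q : ℕ} (τ : Fin q → PV t M)
    (o : Fin t → Fin t → ℂ) (l : Fin t) (j : ℕ) :
    Submodule ℂ (MvPolynomial (Fin q ⊕ Fin t) ℂ) where
  carrier := {P | ∃ v ∈ FL V j, ∃ g : Fin q → BR t,
    (∀ i, prg v (τ i) = ss t ^ j * g i) ∧ P = enc o l g}
  add_mem' := by
    rintro a b ⟨v, hv, g, hg, rfl⟩ ⟨v', hv', g', hg', rfl⟩
    refine ⟨v + v', (FL V j).add_mem hv hv', fun i => g i + g' i, fun i => ?_, ?_⟩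
    · rw [prg_add_left, hg, hg', mul_add]
    · unfold enc
      rw [← Finset.sum_add_distrib]
      refine Finset.sum_congr rfl fun i _ => ?_
      rw [map_add, map_add, mul_add]
  zero_mem' := by
    refine ⟨0, (FL V j).zero_mem, fun _ => 0, fun i => ?_, ?_⟩
    · rw [prg_zero_left, mul_zero]
    · unfold enc
      simp
  smul_mem' := by
    rintro c a ⟨v, hv, g, hg, rfl⟩
    refine ⟨(C c : MvPolynomial (Fin t) ℂ) • v, (FL V j).smul_mem _ hv, fun i => C c * g i,
      fun i => ?_, ?_⟩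
    · rw [prg_smul_left, hg, iy_C]
      ring
    · unfold enc
      rw [Finset.smul_sum]
      refine Finset.sum_congr rfl fun i _ => ?_
      rw [map_mul, map_mul, smul_eq_C_mul]
      have h1 : rename Sum.inr ((rho o l) (C c)) = (C c : MvPolynomial (Fin q ⊕ Fin t) ℂ) := by
        have h2 : (rho o l) (C c) = C c := by
          rw [← algebraMap_eq, ← algebraMap_eq]
          exact (rho o l).commutes c
        rw [h2, rename_C]
      rw [h1]
      ring

/-- the second neighbours: the indices different from `l`, `l + 1`, `l - 1` (modulo `t`) -/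
def Qs [NeZero t] (l : Fin t) : Finset (Fin t) :=
  Finset.univ.filter (fun b => b ≠ l ∧ b ≠ l + 1 ∧ b + 1 ≠ l)

/-- the space `W_l` -/
noncomputable def Wl [NeZero t] (V : Submodule (MvPolynomial (Fin t) ℂ) (PV t M))
    (o : Fin t → Fin t → ℂ) (l : Fin t) : Submodule ℂ (Fin M → ℂ) :=
  Fv V (o l) ⊔ Submodule.span ℂ {x | ∃ v ∈ FL V 2, ∃ b ∈ Qs l,
    x = fun k => eval (o l) (dv (o (l + 1)) (dv (o b) v) k)}

/-- active variables: the `X (inr a)` with `a ∈ A` -/
def act {q : ℕ} (A : Finset (Fin t)) : Finset (Fin q ⊕ Fin t) := A.map ⟨Sum.inr, Sum.inr_injective⟩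

end defs

end Pool.Agent.DAng
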